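import Pool.Agent.Lib.MP_3efbeb_nt.PR.Spec

/-!
# MP_3efbeb_nt, PR, module ALT: the alternation lemma
-/

set_option autoImplicit false

namespace Pool.Agent.Lib.MP_3efbeb_nt.PR

namespace ALTM

lemma lz_mul {a b : ℤ} (ha : a ≠ 0) (hb : b ≠ 0) : lz (a * b) = lz a * lz b := by
  unfold lz
  rw [Int.natAbs_mul,
    (Nat.perm_primeFactorsList_mul (Int.natAbs_ne_zero.2 ha) (Int.natAbs_ne_zero.2 hb)).length_eq,
    List.length_append, pow_add]

lemma lz_cases (a : ℤ) : lz a = 1 ∨ lz a = -1 := by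
  unfold lz
  exact neg_one_pow_eq_or ℤ _

lemma lz_sq (a : ℤ) : lz a * lz a = 1 := by
  rcases lz_cases a with h | h <;> rw [h] <;> norm_num

lemma lz_other {a σ : ℤ} (hσ : σ = 1 ∨ σ = -1) (h : lz a ≠ σ) : lz a = -σ := by
  rcases lz_cases a with h' | h' <;> rcases hσ with rfl | rfl <;> simp_all

end ALTM

open ALTM

/-- one half of the chain -/
lemma ALTM.half {δ g s t L L1 σ : ℤ} (hσ : σ = 1 ∨ σ = -1) (hg : s * g = t + 2) (hs : lz s = -1)
    (ht : lz t = -1) (hs0 : s ≠ 0) (ht0 : t ≠ 0) (hL1 : s * L + δ = t * L1)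
    (n0 : L ≠ 0) (n1 : L1 ≠ 0) (n2 : L1 + δ ≠ 0) (n3 : t * (L1 + δ) + δ ≠ 0)
    (a1 : ¬ (lz (s * L) = σ ∧ lz (s * L + δ) = σ)) (a2 : ¬ (lz L1 = σ ∧ lz (L1 + δ) = σ))
    (a3 : ¬ (lz (t * (L1 + δ)) = σ ∧ lz (t * (L1 + δ) + δ) = σ)) (hL : lz L = -σ) :
    lz (L + g * δ) = σ := by
  have e1 : lz (s * L) = σ := by rw [lz_mul hs0 n0, hs, hL]; ring
  have e2 : lz (s * L + δ) = -σ := lz_other hσ (fun h => a1 ⟨e1, h⟩)
  have e3 : lz L1 = σ := by
    rw [hL1, lz_mul ht0 n1, ht] at e2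
    linarith
  have e4 : lz (L1 + δ) = -σ := lz_other hσ (fun h => a2 ⟨e3, h⟩)
  have e5 : lz (t * (L1 + δ)) = σ := by rw [lz_mul ht0 n2, ht, e4]; ring
  have e6 : lz (t * (L1 + δ) + δ) = -σ := lz_other hσ (fun h => a3 ⟨e5, h⟩)
  have e7 : t * (L1 + δ) + δ = s * (L + g * δ) := by
    have : t * (L1 + δ) + δ = (s * L + δ) + t * δ + δ := by rw [hL1]; ring
    rw [this]
    have : s * (L + g * δ) = s * L + (s * g) * δ := by ring
    rw [this, hg]
    ring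
  have n4 : L + g * δ ≠ 0 := by
    intro h
    rw [e7, h, mul_zero] at n3
    exact n3 rfl
  rw [e7, lz_mul hs0 n4, hs] at e6
  linarith

theorem specALT : SpecALT := by
  intro δ g s t s' t' L L1 L2 σ hσ hg hg' hs ht hs' ht' hs0 ht0 hs0' ht0' hL1 hL2 hne halt
  have h0 := hne 0
  have h1 := hne 1
  have h2 := hne 2
  have h3 := hne 3
  have h4 := hne 4
  have h5 := hne 5
  have h6 := hne 6
  have h7 := hne 7
  have a0 := halt 0
  have a1 := halt 1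
  have a2 := halt 2
  have a3 := halt 3
  have a4 := halt 4
  have a5 := halt 5
  have a6 := halt 6
  have a7 := halt 7
  simp only [chn, Matrix.cons_val] at h0 h1 h2 h3 h4 h5 h6 h7 a0 a1 a2 a3 a4 a5 a6 a7
  by_cases c1 : lz L = σ
  · have c2 : lz (L + δ) = -σ := lz_other hσ (fun h => a0 ⟨c1, h⟩)
    rw [c1, c2]
    rcases hσ with rfl | rfl <;> norm_num
  · have c1' : lz L = -σ := lz_other hσ c1
    by_cases c2 : lz (L + δ) = σ
    · rw [c1', c2]
      rcases hσ with rfl | rfl <;> norm_num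
    · exfalso
      have c2' : lz (L + δ) = -σ := lz_other hσ c2
      have r1 : lz (L + g * δ) = σ :=
        ALTM.half hσ hg hs ht hs0 ht0 hL1 h0.1 h2.1 h2.2 h3.2 a1 a2 a3 c1'
      have r2 : lz ((L + δ) + g * δ) = σ :=
        ALTM.half hσ hg' hs' ht' hs0' ht0' hL2 h0.2 h5.1 h5.2 h6.2 a4 a5 a6 c2'
      refine a7 ⟨r1, ?_⟩
      rw [show L + g * δ + δ = (L + δ) + g * δ by ring]
      exact r2

end Pool.Agent.Lib.MP_3efbeb_nt.PR
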