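import Pool.Agent.Lib.MP_3efbeb_nt.PR.CFGB

/-!
# MP_3efbeb_nt, PR, module CFG (helper24): the 24 polynomials
-/

set_option autoImplicit false

namespace Pool.Agent.Lib.MP_3efbeb_nt.PR

open CHNM CFGM

theorem specCFG (hSEL : SpecSEL) (hLOC : SpecLOC) (hPSEL : SpecPSEL) (hALT : SpecALT) (hSIX : SpecSIX) : SpecCFG := by
  intro h M0 B hh h24 h6 hM0
  obtain ⟨k, rfl⟩ : ∃ k, h = 4 * k := (Dvd.dvd.trans (by norm_num) h24 : 4 ∣ h)
  have hk1 : 1 ≤ k := by omega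
  have hk6 : 6 ∣ k := by omega
  obtain ⟨PM, mM, hloc⟩ := CRTMM.locM hLOC (k : ℤ) M0 hM0 (by exact_mod_cast hk6)
  have copP : Nat.Coprime PM M0 := cop_of_primes fun p hp hpM =>
    hloc p hp hpM PM mM (Int.ModEq.refl _) (Int.ModEq.refl _) _ (by simp)
  have copPk : Nat.Coprime (PM + k) M0 := cop_of_primes fun p hp hpM => by
    have := hloc p hp hpM PM mM (Int.ModEq.refl _) (Int.ModEq.refl _) ((PM : ℤ) + k) (by simp)
    push_cast
    exact this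
  obtain ⟨C1, z1, hsel⟩ := hSEL M0 hM0
  obtain ⟨C2, z2, hps⟩ := hPSEL k M0 PM (2 * C1) hk1 hM0 h6 copP copPk
  obtain ⟨E, hE⟩ : ∃ E : ℕ, E = 6 * C1 + C2 + 5 := ⟨_, rfl⟩
  refine ⟨8 * E, z1 + z2 + 16 + 4 * k + M0 + B + 1, fun z hz => ?_⟩
  obtain ⟨g, s, t, g1, gM, gz, htr, htt⟩ := hsel z (by omega)
  have tr : ∀ i, Trip M0 z g (s i) (t i) := fun i => (htr i).1
  have tz : ∀ i, RZ z (t i : ℤ) := fun i => (tr i).2.2.2.1
  have t1 : ∀ i, 1 ≤ t i := fun i => (tr i).2.1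
  have tC : ∀ i, t i ≤ z ^ C1 := fun i => (htr i).2
  have tt2 : ∀ i j, t i * t j ≤ z ^ (2 * C1) := fun i j => by
    calc t i * t j ≤ z ^ C1 * z ^ C1 := Nat.mul_le_mul (tC i) (tC j)
      _ = z ^ (2 * C1) := by rw [← pow_add]; congr 1; ring
  have ttz : ∀ i j, RZ z ((t i * t j : ℕ) : ℤ) := fun i j => by
    push_cast
    exact RZ_mul (tz i) (tz j)
  have c4 : ∀ {a b c d : Fin 6}, a ≠ c → a ≠ d → b ≠ c → b ≠ d → Nat.Coprime (t a * t b) (t c * t d) :=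
    fun h1 h2 h3 h4 => Nat.Coprime.mul_left
      (Nat.Coprime.mul_right (htt _ _ h1) (htt _ _ h2))
      (Nat.Coprime.mul_right (htt _ _ h3) (htt _ _ h4))
  obtain ⟨P, P1, PC, Pa, Pb, Pc, PMm, Pz, Pkz⟩ := hps z (by omega) (t 0 * t 1) (t 2 * t 3) (t 4 * t 5)
    (Nat.mul_pos (t1 0) (t1 1)) (Nat.mul_pos (t1 2) (t1 3)) (Nat.mul_pos (t1 4) (t1 5)) (ttz 0 1) (ttz 2 3) (ttz 4 5)
    (c4 (by decide) (by decide) (by decide) (by decide)) (c4 (by decide) (by decide) (by decide) (by decide))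
    (c4 (by decide) (by decide) (by decide) (by decide)) (tt2 0 1) (tt2 2 3) (tt2 4 5)
  have Pc' : P ≡ 1 [MOD t 4 * t 5] := Pc
  obtain ⟨B', hB'⟩ : ∃ B' : ℕ, B' = (B + 1 + (3 * z ^ C1 + 6) * (4 * k)) * (z ^ C1 * z ^ C1) := ⟨_, rfl⟩
  obtain ⟨m0, mB, mT, mm, d0, d1, d2, d3, d4, d5⟩ := CRTMM.chains_m0 k M0 P mM B' s t hM0 t1 htt
    (fun i => cop_of_RZ (tz i) hM0 (by omega)) (fun i => cop_of_RZ (tz i) (by norm_num) (by omega))
    (fun i => cop_of_RZ (tz i) hk1 (by omega)) (fun i => cop_of_RZ (tz i) (by omega) (by omega))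
    (fun i => cop_ts (by omega) (tr i)) ((Dvd.intro _ rfl).trans Pa) ((Dvd.intro_left _ rfl).trans Pa)
    ((Dvd.intro _ rfl).trans Pb) ((Dvd.intro_left _ rfl).trans Pb) (Pc'.of_dvd (Dvd.intro _ rfl))
    (Pc'.of_dvd (Dvd.intro_left _ rfl))
  have hts := fun i => trip_s hM0 gM (tr i)
  have hgC : g ≤ z ^ C1 + 2 := (hts 0).2.2.2.2.2.2.trans (Nat.add_le_add_right (tC 0) 2)
  obtain ⟨bT, bm, bP, bPk, bs, bt, bg, bk, b16⟩ := zbounds (k := k) (B := B) (C2 := C2) (by omega) (by omega) (by omega)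
    (by omega) hE tC (fun i => (hts i).2.2.2.2.2.1) hgC PC hB' mT
  obtain ⟨W, hW⟩ : ∃ W : ℤ, W = ((z ^ E : ℕ) : ℤ) := ⟨_, rfl⟩
  obtain ⟨T, hT⟩ : ∃ T : ℤ, T = ((M0 * ∏ i, t i : ℕ) : ℤ) := ⟨_, rfl⟩
  have hprod1 : 1 ≤ ∏ i, t i := Nat.succ_le_of_lt (Finset.prod_pos fun i _ => t1 i)
  have T1 : 1 ≤ T := by rw [hT]; exact_mod_cast Nat.mul_pos hM0 hprod1
  have TW : T ≤ W := by rw [hT, hW]; exact_mod_cast bT
  have mW : (m0 : ℤ) ≤ W := by rw [hW]; exact_mod_cast bm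
  have PW : (P : ℤ) ≤ W := by rw [hW]; exact_mod_cast bP
  have PkW : (P : ℤ) + k ≤ W := by rw [hW]; exact_mod_cast bPk
  have sW : ∀ i, (s i : ℤ) ≤ W := fun i => by rw [hW]; exact_mod_cast bs i
  have tW : ∀ i, (t i : ℤ) ≤ W := fun i => by rw [hW]; exact_mod_cast bt i
  have gW : (g : ℤ) ≤ W := by rw [hW]; exact_mod_cast bg
  have kW : 4 * (k : ℤ) ≤ W := by rw [hW]; exact_mod_cast bk
  have W16 : 16 ≤ W := by rw [hW]; exact_mod_cast b16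
  have W8 : W ^ 8 = (z : ℤ) ^ (8 * E) := by rw [hW]; push_cast; rw [← pow_mul, mul_comm]
  have hB'1 : 1 ≤ B' := by
    rw [hB']
    have := Nat.one_le_pow C1 z (by omega)
    exact Nat.mul_pos (by omega) (Nat.mul_pos this this)
  have m1 : (1 : ℤ) ≤ m0 := by exact_mod_cast hB'1.trans mB
  have P1' : (1 : ℤ) ≤ P := by exact_mod_cast P1
  have k0 : (0 : ℤ) ≤ k := by positivity
  have k1' : (1 : ℤ) ≤ k := by exact_mod_cast hk1
  obtain ⟨⟨n1, n1W⟩, ⟨n2, n2W⟩, ⟨n3, n3W⟩, ⟨qa1, qa2, qa3, qa4⟩, ⟨qb1, qb2, qb3, qb4⟩, ⟨qc1, qc2⟩⟩ :=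
    sizes P1' PW k0 PkW m1 mW kW T1 TW W16
  -- the lower bound for `L0`
  have hLB : ∀ (i j : Fin 6) (L0 : ℤ), (m0 : ℤ) ≤ L0 →
      ((B : ℤ) + 1 + ((t i : ℤ) + t j + g + 4) * ((4 * k : ℕ) : ℤ)) * ((t i : ℤ) * t j) ≤ L0 := by
    intro i j L0 hL0
    refine le_trans ?_ hL0
    have a1 : (B + 1 + (t i + t j + g + 4) * (4 * k)) * (t i * t j) ≤ m0 := by
      refine le_trans ?_ mB
      rw [hB']
      refine Nat.mul_le_mul ?_ (Nat.mul_le_mul (tC i) (tC j))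
      refine Nat.add_le_add_left (Nat.mul_le_mul_right _ ?_) _
      have := tC i; have := tC j
      omega
    exact_mod_cast a1
  have tT : ∀ i, (t i : ℤ) ∣ T := fun i => by
    rw [hT]
    exact_mod_cast (Finset.dvd_prod_of_mem t (Finset.mem_univ i)).mul_left M0
  have Tp : ∀ p : ℕ, p.Prime → p < z → ¬ p ∣ M0 → ¬ (p : ℤ) ∣ T := fun p hp hpz hpM => by
    rw [hT]; exact T_dvd tz p hp hpz hpM
  have hlocP : ∀ p : ℕ, p.Prime → p ∣ M0 → ∀ x ∈ ([(P : ℤ), P + k, m0, (P + k) * m0 + 2, P * m0 + 2,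
      P * (P + k) * m0 + 2 * k, P * (P + k) * m0 + 2 * P + 4 * k, (P + k) ^ 2 * m0 * (P * m0 + 2) + 8 * k,
      P * m0 * (P * (P + k) * m0 + 2 * P + 4 * k) + 8 * k, P * ((P + k) * m0 + 2) - 4 * k] : List ℤ),
      ¬ (p : ℤ) ∣ x := by
    intro p hp hpM
    refine hloc p hp hpM P m0 ?_ ?_
    · exact Int.natCast_modEq_iff.2 (Nat.ModEq.of_dvd hpM PMm)
    · exact Int.natCast_modEq_iff.2 (mm.of_dvd hpM)
  -- the three chains
  obtain ⟨α0, β0, ch0⟩ := chain_ok hALT (4 * k) M0 B z g (s 0) (t 0) (s 1) (t 1) W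
    (((P : ℤ) + k) ^ 2 * m0 * (P * m0 + 2)) T (4 * k) (Or.inl (by push_cast; ring)) hM0 gM (tr 0) (tr 1) (tT 0) (tT 1) T1 Tp
    W16 (sW 0) (sW 1) (tW 0) (tW 1) gW (by push_cast; exact kW) TW n1W (hLB 0 1 _ n1) d0 d1 (by
      intro p hp hpM
      have hx := hlocP p hp hpM
      simp only [List.mem_cons, List.not_mem_nil, or_false, forall_eq_or_imp, forall_eq] at hx
      obtain ⟨x1, x2, x3, x4, x5, x6, x7, x8, x9, x10⟩ := hx
      have pp := Nat.prime_iff_prime_int.1 hp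
      refine ⟨?_, ?_, ?_⟩
      · intro hd
        rcases pp.dvd_or_dvd hd with hd | hd
        · rcases pp.dvd_or_dvd hd with hd | hd
          · exact x2 (pp.dvd_of_dvd_pow hd)
          · exact x3 hd
        · exact x5 hd
      · rw [show ((P : ℤ) + k) ^ 2 * m0 * (P * m0 + 2) + 4 * k =
          ((P + k) * m0 + 2) * (P * (P + k) * m0 + 2 * k) by ring]
        intro hd
        rcases pp.dvd_or_dvd hd with hd | hd
        · exact x4 hd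
        · exact x6 hd
      · rw [show ((P : ℤ) + k) ^ 2 * m0 * (P * m0 + 2) + 2 * (4 * k) =
          (P + k) ^ 2 * m0 * (P * m0 + 2) + 8 * k by ring]
        exact x8)
  obtain ⟨α1, β1, ch1⟩ := chain_ok hALT (4 * k) M0 B z g (s 2) (t 2) (s 3) (t 3) W
    ((P : ℤ) * m0 * (P * (P + k) * m0 + 2 * P + 4 * k)) T (4 * k) (Or.inl (by push_cast; ring)) hM0 gM (tr 2) (tr 3)
    (tT 2) (tT 3) T1 Tp
    W16 (sW 2) (sW 3) (tW 2) (tW 3) gW (by push_cast; exact kW) TW n2W (hLB 2 3 _ n2) d2 d3 (by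
      intro p hp hpM
      have hx := hlocP p hp hpM
      simp only [List.mem_cons, List.not_mem_nil, or_false, forall_eq_or_imp, forall_eq] at hx
      obtain ⟨x1, x2, x3, x4, x5, x6, x7, x8, x9, x10⟩ := hx
      have pp := Nat.prime_iff_prime_int.1 hp
      refine ⟨?_, ?_, ?_⟩
      · intro hd
        rcases pp.dvd_or_dvd hd with hd | hd
        · rcases pp.dvd_or_dvd hd with hd | hd
          · exact x1 hd
          · exact x3 hd
        · exact x7 hd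
      · rw [show (P : ℤ) * m0 * (P * (P + k) * m0 + 2 * P + 4 * k) + 4 * k =
          (P * m0 + 2) * (P * (P + k) * m0 + 2 * k) by ring]
        intro hd
        rcases pp.dvd_or_dvd hd with hd | hd
        · exact x5 hd
        · exact x6 hd
      · rw [show (P : ℤ) * m0 * (P * (P + k) * m0 + 2 * P + 4 * k) + 2 * (4 * k) =
          P * m0 * (P * (P + k) * m0 + 2 * P + 4 * k) + 8 * k by ring]
        exact x9)
  obtain ⟨α2, β2, ch2⟩ := chain_ok hALT (4 * k) M0 B z g (s 4) (t 4) (s 5) (t 5) W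
    ((P : ℤ) * ((P + k) * m0 + 2) + 4 * k) T (-(4 * k)) (Or.inr (by push_cast; ring)) hM0 gM (tr 4) (tr 5)
    (tT 4) (tT 5) T1 Tp
    W16 (sW 4) (sW 5) (tW 4) (tW 5) gW (by push_cast; exact kW) TW n3W (hLB 4 5 _ n3)
    (by rw [← sub_eq_add_neg]; exact d4) (by rw [← sub_eq_add_neg, add_neg_cancel_right]; exact d5) (by
      intro p hp hpM
      have hx := hlocP p hp hpM
      simp only [List.mem_cons, List.not_mem_nil, or_false, forall_eq_or_imp, forall_eq] at hx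
      obtain ⟨x1, x2, x3, x4, x5, x6, x7, x8, x9, x10⟩ := hx
      have pp := Nat.prime_iff_prime_int.1 hp
      refine ⟨?_, ?_, ?_⟩
      · rw [show (P : ℤ) * ((P + k) * m0 + 2) + 4 * k = P * (P + k) * m0 + 2 * P + 4 * k by ring]
        exact x7
      · rw [add_neg_cancel_right]
        intro hd
        rcases pp.dvd_or_dvd hd with hd | hd
        · exact x1 hd
        · exact x4 hd
      · rw [show (P : ℤ) * ((P + k) * m0 + 2) + 4 * k + 2 * -(4 * k) = P * ((P + k) * m0 + 2) - 4 * k by ring]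
        exact x10)
  -- the index set
  obtain ⟨φ⟩ : Nonempty (Fin 24 ≃ Fin 3 × Fin 8) := ⟨Fintype.equivOfCardEq (by simp)⟩
  obtain ⟨A, hA⟩ : ∃ A : Fin 3 → Fin 8 → ℤ, A = ![α0, α1, α2] := ⟨_, rfl⟩
  obtain ⟨Be, hBe⟩ : ∃ A : Fin 3 → Fin 8 → ℤ, A = ![β0, β1, β2] := ⟨_, rfl⟩
  obtain ⟨L, hL⟩ : ∃ A : Fin 3 → ℤ, A = ![((P : ℤ) + k) ^ 2 * m0 * (P * m0 + 2),
    (P : ℤ) * m0 * (P * (P + k) * m0 + 2 * P + 4 * k), (P : ℤ) * ((P + k) * m0 + 2) + 4 * k] := ⟨_, rfl⟩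
  obtain ⟨δ, hδ⟩ : ∃ A : Fin 3 → ℤ, A = ![4 * (k : ℤ), 4 * k, -(4 * k)] := ⟨_, rfl⟩
  obtain ⟨Q1, hQ1⟩ : ∃ A : Fin 3 → ℤ, A = ![((P : ℤ) + k) ^ 2 * (2 * P * m0 + 2),
    2 * (P : ℤ) ^ 2 * (P + k) * m0 + P * (2 * P + 4 * k), (P : ℤ) * (P + k)] := ⟨_, rfl⟩
  obtain ⟨Q2, hQ2⟩ : ∃ A : Fin 3 → ℤ, A = ![((P : ℤ) + k) ^ 2 * P * T, (P : ℤ) ^ 2 * (P + k) * T, 0] := ⟨_, rfl⟩
  have hch : ∀ c : Fin 3, ChainOK (4 * k) M0 B z W (L c) T (δ c) (A c) (Be c) := by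
    rw [hA, hBe, hL, hδ]
    intro c
    fin_cases c
    · exact ch0
    · exact ch1
    · exact ch2
  have hQ : ∀ c : Fin 3, 0 ≤ Q1 c ∧ 0 ≤ Q2 c ∧ 1 ≤ Q1 c + Q2 c ∧ Q1 c ≤ W ^ 8 ∧ Q2 c ≤ W ^ 8 := by
    rw [hQ1, hQ2]
    intro c
    have hW8 : 0 ≤ W ^ 8 := by positivity
    fin_cases c
    · exact ⟨qa1, (by show (0 : ℤ) ≤ ((P : ℤ) + k) ^ 2 * P * T; linarith), by show (1 : ℤ) ≤ ((P : ℤ) + k) ^ 2 * (2 * P * m0 + 2) + ((P : ℤ) + k) ^ 2 * P * T; linarith,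
        qa2, qa4⟩
    · exact ⟨qb1, (by show (0 : ℤ) ≤ (P : ℤ) ^ 2 * (P + k) * T; linarith), by
        show (1 : ℤ) ≤ (2 * (P : ℤ) ^ 2 * (P + k) * m0 + P * (2 * P + 4 * k)) + (P : ℤ) ^ 2 * (P + k) * T; linarith,
        qb2, qb4⟩
    · exact ⟨by show (0 : ℤ) ≤ (P : ℤ) * (P + k); linarith, le_refl _, by
        show (1 : ℤ) ≤ (P : ℤ) * (P + k) + 0; linarith, qc2, hW8⟩
  have hQp : ∀ p : ℕ, p.Prime → p < z → ¬ p ∣ M0 → ∀ c, ¬ ((p : ℤ) ∣ Q1 c ∧ (p : ℤ) ∣ Q2 c) := by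
    rw [hQ1, hQ2]
    intro p hp hpz hpM c
    have pp := Nat.prime_iff_prime_int.1 hp
    have f1 : ¬ (p : ℤ) ∣ (P : ℤ) := Pz p hp hpz
    have f2 : ¬ (p : ℤ) ∣ (P : ℤ) + k := by
      have := Pkz p hp hpz
      push_cast at this
      exact this
    have f3 := Tp p hp hpz hpM
    fin_cases c
    · rintro ⟨-, hd⟩
      change (p : ℤ) ∣ ((P : ℤ) + k) ^ 2 * P * T at hd
      rcases pp.dvd_or_dvd hd with hd | hd
      · rcases pp.dvd_or_dvd hd with hd | hd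
        · exact f2 (pp.dvd_of_dvd_pow hd)
        · exact f1 hd
      · exact f3 hd
    · rintro ⟨-, hd⟩
      change (p : ℤ) ∣ (P : ℤ) ^ 2 * (P + k) * T at hd
      rcases pp.dvd_or_dvd hd with hd | hd
      · rcases pp.dvd_or_dvd hd with hd | hd
        · exact f1 (pp.dvd_of_dvd_pow hd)
        · exact f2 hd
      · exact f3 hd
    · rintro ⟨hd, -⟩
      change (p : ℤ) ∣ (P : ℤ) * (P + k) at hd
      rcases pp.dvd_or_dvd hd with hd | hd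
      · exact f1 hd
      · exact f2 hd
  refine ⟨fun i => Q1 (φ i).1, fun i => Q2 (φ i).1, fun i => A (φ i).1 (φ i).2, fun i => Be (φ i).1 (φ i).2,
    fun i => ?_, fun i => ?_, fun p hp hpz hpM i => ⟨(hch _).2.1 p hp hpz hpM _, hQp p hp hpz hpM _⟩,
    fun p hp hpM i => (hch _).2.2.1 p hp hpM _, ?_⟩
  · rw [← W8]; exact hQ _
  · rw [← W8]; exact (hch _).1 _
  · intro σ hσ y
    by_contra hno
    push Not at hno
    have hw : ∀ c, 0 ≤ Q1 c * y + Q2 c * y ^ 2 := fun c => by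
      have := (hQ c).1
      have := (hQ c).2.1
      positivity
    have key : ∀ c, lz (L c + T * (Q1 c * y + Q2 c * y ^ 2)) * lz (L c + T * (Q1 c * y + Q2 c * y ^ 2) + δ c) = -1 := by
      intro c
      refine (hch c).2.2.2 σ _ hσ (hw c) fun j hj => ?_
      have := hno (φ.symm (c, j))
      simp only [Equiv.apply_symm_apply] at this
      exact this hj.1 hj.2
    have k0' := key 0
    have k1 := key 1
    have k2 := key 2
    rw [hL, hδ, hQ1, hQ2] at k0' k1 k2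
    change lz (((P : ℤ) + k) ^ 2 * m0 * (P * m0 + 2) + T * ((((P : ℤ) + k) ^ 2 * (2 * P * m0 + 2)) * y +
      (((P : ℤ) + k) ^ 2 * P * T) * y ^ 2)) * lz (((P : ℤ) + k) ^ 2 * m0 * (P * m0 + 2) +
      T * ((((P : ℤ) + k) ^ 2 * (2 * P * m0 + 2)) * y + (((P : ℤ) + k) ^ 2 * P * T) * y ^ 2) + 4 * k) = -1 at k0'
    change lz ((P : ℤ) * m0 * (P * (P + k) * m0 + 2 * P + 4 * k) + T * ((2 * (P : ℤ) ^ 2 * (P + k) * m0 +
      P * (2 * P + 4 * k)) * y + ((P : ℤ) ^ 2 * (P + k) * T) * y ^ 2)) *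
      lz ((P : ℤ) * m0 * (P * (P + k) * m0 + 2 * P + 4 * k) + T * ((2 * (P : ℤ) ^ 2 * (P + k) * m0 +
      P * (2 * P + 4 * k)) * y + ((P : ℤ) ^ 2 * (P + k) * T) * y ^ 2) + 4 * k) = -1 at k1
    change lz ((P : ℤ) * ((P + k) * m0 + 2) + 4 * k + T * (((P : ℤ) * (P + k)) * y + 0 * y ^ 2)) *
      lz ((P : ℤ) * ((P + k) * m0 + 2) + 4 * k + T * (((P : ℤ) * (P + k)) * y + 0 * y ^ 2) + -(4 * k)) = -1 at k2
    have em : (1 : ℤ) ≤ m0 + T * y := by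
      have : 0 ≤ T * y := mul_nonneg (by linarith) (by positivity)
      linarith
    refine hSIX P k (m0 + T * y) P1' k1' em ?_ ?_ ?_
    · rw [show ((P : ℤ) + k) ^ 2 * (m0 + T * y) * (P * (m0 + T * y) + 2) =
        ((P : ℤ) + k) ^ 2 * m0 * (P * m0 + 2) + T * ((((P : ℤ) + k) ^ 2 * (2 * P * m0 + 2)) * y +
        (((P : ℤ) + k) ^ 2 * P * T) * y ^ 2) by ring]
      exact k0'
    · rw [show (P : ℤ) * (m0 + T * y) * (P * (P + k) * (m0 + T * y) + 2 * P + 4 * k) =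
        (P : ℤ) * m0 * (P * (P + k) * m0 + 2 * P + 4 * k) + T * ((2 * (P : ℤ) ^ 2 * (P + k) * m0 +
        P * (2 * P + 4 * k)) * y + ((P : ℤ) ^ 2 * (P + k) * T) * y ^ 2) by ring]
      exact k1
    · rw [mul_comm]
      rw [show (P : ℤ) * ((P + k) * m0 + 2) + 4 * k + T * (((P : ℤ) * (P + k)) * y + 0 * y ^ 2) + -(4 * k) =
        (P : ℤ) * ((P + k) * (m0 + T * y) + 2) by ring,
        show (P : ℤ) * ((P + k) * m0 + 2) + 4 * k + T * (((P : ℤ) * (P + k)) * y + 0 * y ^ 2) =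
        (P : ℤ) * ((P + k) * (m0 + T * y) + 2) + 4 * k by ring] at k2
      exact k2

end Pool.Agent.Lib.MP_3efbeb_nt.PR
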