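import Pool.Agent.Lib.MP_3efbeb_nt.PR.Spec

/-!
# MP_3efbeb_nt, PR, module FIN (helper66): the final form of the pair theorem, for all `z ≥ 2`
-/

set_option autoImplicit false

namespace Pool.Agent.Lib.MP_3efbeb_nt.PR

open Finset
open scoped Classical

/-- FIN (from MAIN). `i < j` in `H`, `24 ∣ j - i`, all other elements of `H` congruent to `i` modulo `(48 |H|)!`. -/
def SpecFIN : Prop := ∀ (H : Finset ℕ) (i j : ℕ), i ∈ H → j ∈ H → i < j → 24 ∣ j - i →
  (∀ k ∈ H, k ≠ j → ((48 * H.card).factorial : ℤ) ∣ (k : ℤ) - i) → ∀ r : ℕ,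
  ∃ C : ℕ, ∀ z : ℕ, 2 ≤ z → ∀ x : ℕ, z ^ C ≤ x →
    Nat.sqrt x ≤ z ^ C * ((Icc 1 x).filter (fun n =>
      (∀ p : ℕ, p.Prime → p ∣ ∏ h ∈ H, (n + h) → z < p) ∧
      (n + i).primeFactorsList.length % 2 = r % 2 ∧ (n + j).primeFactorsList.length % 2 = r % 2)).card

namespace FINM

theorem neg_one_pow_eq {a r : ℕ} (h : ((-1 : ℤ)) ^ a = (-1) ^ r) : a % 2 = r % 2 := by
  rcases Nat.even_or_odd a with ha | ha <;> rcases Nat.even_or_odd r with hr | hr
  · rw [Nat.even_iff.1 ha, Nat.even_iff.1 hr]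
  · rw [ha.neg_one_pow, hr.neg_one_pow] at h
    norm_num at h
  · rw [ha.neg_one_pow, hr.neg_one_pow] at h
    norm_num at h
  · rw [Nat.odd_iff.1 ha, Nat.odd_iff.1 hr]

end FINM

open FINM

theorem specFIN (hMAIN : SpecMAIN) : SpecFIN := by
  intro H i j hi hj hij h24 hH r
  set h : ℕ := j - i with hh
  have hjh : j = i + h := by omega
  set K : Finset ℤ := ((H.erase i).erase j).image (fun k : ℕ => (k : ℤ) - i) with hK
  have hKcard : K.card = H.card - 2 := by
    rw [hK, card_image_of_injective _ (fun a b hab => by simpa using hab),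
      card_erase_of_mem (mem_erase.2 ⟨by omega, hj⟩), card_erase_of_mem hi]
    omega
  have h2 : 2 ≤ H.card := by
    have := card_le_card (show ({i, j} : Finset ℕ) ⊆ H by
      intro x hx
      rw [mem_insert, mem_singleton] at hx
      rcases hx with rfl | rfl
      · exact hi
      · exact hj)
    rwa [card_pair (by omega)] at this
  have hKH : K.card + 2 = H.card := by omega
  obtain ⟨C, z0, hC⟩ := hMAIN h K (by omega) h24 (by
    intro k hk
    rw [hKH]
    rw [hK, mem_image] at hk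
    obtain ⟨k', hk', rfl⟩ := hk
    rw [mem_erase, mem_erase] at hk'
    exact hH k' hk'.2.2 hk'.1)
  set i0 : ℕ := i with hi0
  set A : ℕ := (z0 + 2) * C + i + 2 with hA
  refine ⟨2 * A, ?_⟩
  intro z hz x hx
  have hz0 : 0 < z := by omega
  -- the new level
  set Z : ℕ := max (z + 1) z0 with hZ
  have hzZ : z < Z := lt_of_lt_of_le (by omega) (le_max_left _ _)
  have hZz0 : z0 ≤ Z := le_max_right _ _
  have hZle : Z ≤ z ^ (z0 + 2) := by
    apply max_le
    · calc z + 1 ≤ z * z := by nlinarith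
        _ = z ^ 2 := by ring
        _ ≤ z ^ (z0 + 2) := Nat.pow_le_pow_right hz0 (by omega)
    · calc z0 ≤ 2 ^ z0 := Nat.lt_two_pow_self.le
        _ ≤ z ^ z0 := Nat.pow_le_pow_left hz _
        _ ≤ z ^ (z0 + 2) := Nat.pow_le_pow_right hz0 (by omega)
  have hZC : Z ^ C ≤ z ^ ((z0 + 2) * C) := by
    rw [pow_mul]
    exact Nat.pow_le_pow_left hZle C
  -- shift by `i`
  have hizA : i ≤ z ^ i := (Nat.lt_two_pow_self.le).trans (Nat.pow_le_pow_left hz _)
  have hZCx : Z ^ C ≤ x := by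
    refine hZC.trans (le_trans (Nat.pow_le_pow_right hz0 ?_) hx)
    omega
  have hmain := hC Z hZz0 ((-1) ^ r) (by
    rcases Nat.even_or_odd r with hr | hr
    · left; exact hr.neg_one_pow
    · right; exact hr.neg_one_pow) x hZCx
  set S1 := (Icc 1 x).filter (fun n : ℕ => RZ Z (n : ℤ) ∧ RZ Z ((n : ℤ) + h) ∧
      (∀ k ∈ K, 0 < (n : ℤ) + k ∧ RZ Z ((n : ℤ) + k)) ∧ lz (n : ℤ) = (-1) ^ r ∧ lz ((n : ℤ) + h) = (-1) ^ r) with hS1
  set S2 := (Icc 1 x).filter (fun n =>
      (∀ p : ℕ, p.Prime → p ∣ ∏ h ∈ H, (n + h) → z < p) ∧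
      (n + i).primeFactorsList.length % 2 = r % 2 ∧ (n + j).primeFactorsList.length % 2 = r % 2) with hS2
  -- elements of `S1` which are larger than `i` give elements of `S2`
  have hmap : ∀ n ∈ S1.filter (fun n => i < n), n - i ∈ S2 := by
    intro n hn
    rw [mem_filter, hS1, mem_filter, mem_Icc] at hn
    obtain ⟨⟨⟨hn1, hnx⟩, hr1, hr2, hr3, hl1, hl2⟩, hin⟩ := hn
    rw [hS2, mem_filter, mem_Icc]
    have e1 : n - i + i = n := by omega
    have e2 : n - i + j = n + h := by omega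
    refine ⟨⟨by omega, by omega⟩, ?_, ?_, ?_⟩
    · intro p hp hd
      obtain ⟨k, hk, hpk⟩ := (Prime.exists_mem_finset_dvd (Nat.prime_iff.1 hp) hd)
      by_contra hcon
      have hpZ : p < Z := by omega
      by_cases hki : k = i
      · rw [hki, e1] at hpk
        exact hr1 p hp hpZ (by exact_mod_cast hpk)
      by_cases hkj : k = j
      · rw [hkj, e2] at hpk
        exact hr2 p hp hpZ (by exact_mod_cast hpk)
      have hkK : (k : ℤ) - i ∈ K := by
        rw [hK, mem_image]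
        exact ⟨k, mem_erase.2 ⟨hkj, mem_erase.2 ⟨hki, hk⟩⟩, rfl⟩
      refine (hr3 _ hkK).2 p hp hpZ ?_
      have e3 : ((n - i + k : ℕ) : ℤ) = (n : ℤ) + ((k : ℤ) - i) := by
        rw [Nat.cast_add, Nat.cast_sub hin.le]
        ring
      rw [← e3]
      exact_mod_cast hpk
    · rw [e1]
      apply neg_one_pow_eq
      have := hl1
      unfold lz at this
      rwa [Int.natAbs_natCast] at this
    · rw [e2]
      apply neg_one_pow_eq
      have := hl2
      unfold lz at this
      have e4 : ((n : ℤ) + (h : ℤ)).natAbs = n + h := by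
        rw [← Nat.cast_add, Int.natAbs_natCast]
      rwa [e4] at this
  have hcard1 : (S1.filter (fun n => i < n)).card ≤ S2.card := by
    apply card_le_card_of_injOn (fun n => n - i) hmap
    intro n hn n' hn' hnn
    have h3 := (mem_filter.1 (mem_coe.1 hn)).2
    have h4 := (mem_filter.1 (mem_coe.1 hn')).2
    have h5 : n - i = n' - i := hnn
    omega
  have hcard2 : S1.card ≤ S2.card + i := by
    have h6 : S1.card = (S1.filter (fun n => i < n)).card + (S1.filter (fun n => ¬ i < n)).card :=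
      (card_filter_add_card_filter_not _).symm
    have h7 : (S1.filter (fun n => ¬ i < n)).card ≤ i := by
      have h8 : S1.filter (fun n => ¬ i < n) ⊆ Icc 1 i := by
        intro n hn
        rw [mem_filter, hS1, mem_filter, mem_Icc] at hn
        rw [mem_Icc]
        omega
      have := card_le_card h8
      rwa [Nat.card_Icc, Nat.add_sub_cancel] at this
    omega
  -- the numbers
  have hR : z ^ A ≤ Nat.sqrt x := by
    rw [Nat.le_sqrt', ← pow_mul]
    refine le_trans (Nat.pow_le_pow_right hz0 (by omega)) hx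
  have h9 : Nat.sqrt x ≤ z ^ ((z0 + 2) * C) * (S2.card + i) :=
    hmain.trans (Nat.mul_le_mul hZC hcard2)
  have h10 : 2 * (z ^ ((z0 + 2) * C) * i) ≤ Nat.sqrt x := by
    refine le_trans ?_ hR
    calc 2 * (z ^ ((z0 + 2) * C) * i) ≤ z * (z ^ ((z0 + 2) * C) * z ^ i) :=
          Nat.mul_le_mul hz (Nat.mul_le_mul_left _ hizA)
      _ = z ^ ((z0 + 2) * C + i + 1) := by rw [← pow_add, ← pow_succ']
      _ ≤ z ^ A := Nat.pow_le_pow_right hz0 (by omega)
  have h11 : Nat.sqrt x ≤ 2 * (z ^ ((z0 + 2) * C) * S2.card) := by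
    have : z ^ ((z0 + 2) * C) * (S2.card + i) = z ^ ((z0 + 2) * C) * S2.card + z ^ ((z0 + 2) * C) * i := by ring
    omega
  calc Nat.sqrt x ≤ 2 * (z ^ ((z0 + 2) * C) * S2.card) := h11
    _ ≤ z * (z ^ ((z0 + 2) * C) * S2.card) := Nat.mul_le_mul_right _ hz
    _ = z ^ ((z0 + 2) * C + 1) * S2.card := by rw [pow_succ]; ring
    _ ≤ z ^ (2 * A) * S2.card := Nat.mul_le_mul_right _ (Nat.pow_le_pow_right hz0 (by omega))

end Pool.Agent.Lib.MP_3efbeb_nt.PR
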