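import Pool.Agent.Lib.MP_3efbeb_nt.PR.Spec

/-!
# MP_3efbeb_nt, PR, module LOC: classes modulo the small primes (helper62)
-/

set_option autoImplicit false

namespace Pool.Agent.Lib.MP_3efbeb_nt.PR

namespace LOCM

open Polynomial

/-- all ten numbers are different from zero -/
def good {p : ℕ} (P m k : ZMod p) : Prop :=
  P ≠ 0 ∧ P + k ≠ 0 ∧ m ≠ 0 ∧ (P + k) * m + 2 ≠ 0 ∧ P * m + 2 ≠ 0 ∧ P * (P + k) * m + 2 * k ≠ 0 ∧
    P * (P + k) * m + 2 * P + 4 * k ≠ 0 ∧ (P + k) ^ 2 * m * (P * m + 2) + 8 * k ≠ 0 ∧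
    P * m * (P * (P + k) * m + 2 * P + 4 * k) + 8 * k ≠ 0 ∧ P * ((P + k) * m + 2) - 4 * k ≠ 0

instance {p : ℕ} (P m k : ZMod p) : Decidable (good P m k) := by
  unfold good
  infer_instance

theorem of_good {p : ℕ} {k : ℤ} (h : ∃ P m : ZMod p, good P m (k : ZMod p)) :
    ∃ P m : ℤ, ∀ x ∈ ([P, P + k, m, (P + k) * m + 2, P * m + 2,
      P * (P + k) * m + 2 * k, P * (P + k) * m + 2 * P + 4 * k, (P + k) ^ 2 * m * (P * m + 2) + 8 * k,
      P * m * (P * (P + k) * m + 2 * P + 4 * k) + 8 * k, P * ((P + k) * m + 2) - 4 * k] : List ℤ),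
      ¬ (p : ℤ) ∣ x := by
  obtain ⟨P', m', hg⟩ := h
  obtain ⟨P, rfl⟩ := ZMod.intCast_surjective P'
  obtain ⟨m, rfl⟩ := ZMod.intCast_surjective m'
  obtain ⟨h1, h2, h3, h4, h5, h6, h7, h8, h9, h10⟩ := hg
  refine ⟨P, m, ?_⟩
  intro x hx
  rw [← ZMod.intCast_zmod_eq_zero_iff_dvd]
  simp only [List.mem_cons, List.not_mem_nil, or_false] at hx
  rcases hx with rfl | rfl | rfl | rfl | rfl | rfl | rfl | rfl | rfl | rfl <;> push_cast <;> assumption

theorem lin_ne {F : Type} [Field F] {a b : F} (ha : a ≠ 0) : (C a * X + C b : F[X]) ≠ 0 := by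
  intro h
  have := congrArg (fun f => coeff f 1) h
  simp at this
  exact ha this

theorem quad_ne {F : Type} [Field F] {a b c : F} (ha : a ≠ 0) : (C a * X ^ 2 + C b * X + C c : F[X]) ≠ 0 := by
  intro h
  have := congrArg (fun f => coeff f 2) h
  simp [coeff_X] at this
  exact ha this

theorem large {p : ℕ} [Fact p.Prime] (hp : 11 ≤ p) (P k : ZMod p) (hP : P ≠ 0) (hPk : P + k ≠ 0) :
    ∃ m : ZMod p, good P m k := by
  let F : (ZMod p)[X] := (C 1 * X + C 0) * (C (P + k) * X + C 2) * (C P * X + C 2) * (C (P * (P + k)) * X + C (2 * k)) *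
    (C (P * (P + k)) * X + C (2 * P + 4 * k)) * (C ((P + k) ^ 2 * P) * X ^ 2 + C (2 * (P + k) ^ 2) * X + C (8 * k)) *
    (C (P * (P * (P + k))) * X ^ 2 + C (P * (2 * P + 4 * k)) * X + C (8 * k)) *
    (C (P * (P + k)) * X + C (2 * P - 4 * k))
  have hPP : P * (P + k) ≠ 0 := mul_ne_zero hP hPk
  have hF : F ≠ 0 := by
    refine mul_ne_zero (mul_ne_zero (mul_ne_zero (mul_ne_zero (mul_ne_zero (mul_ne_zero (mul_ne_zero ?_ ?_) ?_) ?_) ?_) ?_) ?_) ?_
    · exact lin_ne one_ne_zero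
    · exact lin_ne hPk
    · exact lin_ne hP
    · exact lin_ne hPP
    · exact lin_ne hPP
    · exact quad_ne (mul_ne_zero (pow_ne_zero 2 hPk) hP)
    · exact quad_ne (mul_ne_zero hP hPP)
    · exact lin_ne hPP
  have hdeg : F.natDegree ≤ 10 := by
    have l1 : ∀ a b : ZMod p, (C a * X + C b : (ZMod p)[X]).natDegree ≤ 1 := fun a b => natDegree_linear_le
    have l2 : ∀ a b c : ZMod p, (C a * X ^ 2 + C b * X + C c : (ZMod p)[X]).natDegree ≤ 2 := fun a b c =>
      natDegree_quadratic_le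
    have h1 := natDegree_mul_le_of_le (l1 1 0) (l1 (P + k) 2)
    have h2 := natDegree_mul_le_of_le h1 (l1 P 2)
    have h3 := natDegree_mul_le_of_le h2 (l1 (P * (P + k)) (2 * k))
    have h4 := natDegree_mul_le_of_le h3 (l1 (P * (P + k)) (2 * P + 4 * k))
    have h5 := natDegree_mul_le_of_le h4 (l2 ((P + k) ^ 2 * P) (2 * (P + k) ^ 2) (8 * k))
    have h6 := natDegree_mul_le_of_le h5 (l2 (P * (P * (P + k))) (P * (2 * P + 4 * k)) (8 * k))
    exact natDegree_mul_le_of_le h6 (l1 (P * (P + k)) (2 * P - 4 * k))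
  obtain ⟨m, hm⟩ := exists_eval_ne_zero_of_natDegree_lt_card F hF (by
    rw [Cardinal.mk_fintype, ZMod.card]
    exact_mod_cast (show F.natDegree < p by omega))
  simp only [F, eval_mul, eval_add, eval_C, eval_X, eval_pow, ne_eq, mul_eq_zero, not_or] at hm
  obtain ⟨⟨⟨⟨⟨⟨⟨g1, g2⟩, g3⟩, g4⟩, g5⟩, g6⟩, g7⟩, g8⟩ := hm
  refine ⟨m, hP, hPk, fun h => g1 ?_, g2, g3, g4, fun h => g5 ?_, fun h => g6 ?_, fun h => g7 ?_, fun h => g8 ?_⟩
  · rw [h]; ring
  · rw [← h]; ring
  · rw [← h]; ring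
  · rw [← h]; ring
  · rw [← h]; ring

theorem two : good (1 : ZMod 2) 1 0 := by decide

theorem three : good (1 : ZMod 3) 2 0 := by decide

theorem five : ∀ k : ZMod 5, ∃ P m : ZMod 5, good P m k := by decide

theorem seven : ∀ k : ZMod 7, ∃ P m : ZMod 7, good P m k := by decide

end LOCM

open LOCM in
theorem specLOC : SpecLOC := by
  intro p k hp hk
  have _ : Fact p.Prime := ⟨hp⟩
  apply of_good
  by_cases h11 : 11 ≤ p
  · have h3 : ∀ q : ℤ, 0 < q → q < 11 → ((q : ℤ) : ZMod p) ≠ 0 := by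
      intro q hq hq' h
      rw [ZMod.intCast_zmod_eq_zero_iff_dvd] at h
      have := Int.le_of_dvd hq h
      omega
    have h1 : (1 : ZMod p) ≠ 0 := one_ne_zero
    have h2 : (2 : ZMod p) ≠ 0 := by
      have := h3 2 (by norm_num) (by norm_num)
      exact_mod_cast this
    by_cases hk1 : (1 : ZMod p) + (k : ZMod p) = 0
    · have hk2 : (2 : ZMod p) + (k : ZMod p) ≠ 0 := by
        intro h
        apply h1
        linear_combination h - hk1
      obtain ⟨m, hm⟩ := large h11 2 (k : ZMod p) h2 hk2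
      exact ⟨2, m, hm⟩
    · obtain ⟨m, hm⟩ := large h11 1 (k : ZMod p) h1 hk1
      exact ⟨1, m, hm⟩
  · have hp2 := hp.two_le
    have hlt : p < 11 := by omega
    interval_cases p
    · have h0 : (k : ZMod 2) = 0 := by
        rw [ZMod.intCast_zmod_eq_zero_iff_dvd]
        exact dvd_trans (by norm_num) hk
      rw [h0]
      exact ⟨1, 1, two⟩
    · have h0 : (k : ZMod 3) = 0 := by
        rw [ZMod.intCast_zmod_eq_zero_iff_dvd]
        exact dvd_trans (by norm_num) hk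
      rw [h0]
      exact ⟨1, 2, three⟩
    · exact absurd hp (by norm_num)
    · exact five _
    · exact absurd hp (by norm_num)
    · exact seven _
    · exact absurd hp (by norm_num)
    · exact absurd hp (by norm_num)
    · exact absurd hp (by norm_num)

end Pool.Agent.Lib.MP_3efbeb_nt.PR
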