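import Pool.Agent.Lib.MP_3efbeb_nt.PR.Spec

/-!
# MP_3efbeb_nt, PR, module MAIN (helper66): the count
-/

set_option autoImplicit false

namespace Pool.Agent.Lib.MP_3efbeb_nt.PR

open Finset
open scoped Classical

noncomputable section

namespace MAINM

open Polynomial

/-- one factor -/
def fac (a b q1 q2 : ℤ) : Polynomial ℤ := C a + C b * (C q1 * X + C q2 * X ^ 2)

theorem fac_eval (a b q1 q2 y : ℤ) : (fac a b q1 q2).eval y = a + b * (q1 * y + q2 * y ^ 2) := by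
  unfold fac
  simp

theorem fac_deg (a b q1 q2 : ℤ) : (fac a b q1 q2).natDegree ≤ 2 := by
  unfold fac
  compute_degree

theorem fac_coeff1 (a b q1 q2 : ℤ) : (fac a b q1 q2).coeff 1 = b * q1 := by
  unfold fac
  rw [coeff_add, coeff_C_mul, coeff_add, coeff_C_mul, coeff_C_mul, coeff_X_pow, coeff_X, coeff_C]
  norm_num

theorem fac_coeff2 (a b q1 q2 : ℤ) : (fac a b q1 q2).coeff 2 = b * q2 := by
  unfold fac
  rw [coeff_add, coeff_C_mul, coeff_add, coeff_C_mul, coeff_C_mul, coeff_X_pow, coeff_X, coeff_C]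
  norm_num

theorem fac_map_ne {p : ℕ} (hp : p.Prime) {a b q1 q2 : ℤ} (hb : ¬ (p : ℤ) ∣ b) (hq : ¬ ((p : ℤ) ∣ q1 ∧ (p : ℤ) ∣ q2)) :
    (fac a b q1 q2).map (Int.castRingHom (ZMod p)) ≠ 0 := by
  intro h
  have : Fact p.Prime := ⟨hp⟩
  have hpz : Prime (p : ℤ) := Nat.prime_iff_prime_int.1 hp
  have h1 := congrArg (fun f => coeff f 1) h
  have h2 := congrArg (fun f => coeff f 2) h
  simp only [coeff_map, coeff_zero, fac_coeff1, fac_coeff2, eq_intCast, ZMod.intCast_zmod_eq_zero_iff_dvd] at h1 h2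
  refine hq ⟨?_, ?_⟩
  · exact (hpz.dvd_or_dvd h1).resolve_left hb
  · exact (hpz.dvd_or_dvd h2).resolve_left hb

/-- the product -/
def FF (K : Finset ℤ) (al be q1 q2 : Fin 24 → ℤ) : Polynomial ℤ :=
  ∏ i : Fin 24, ∏ k ∈ K, fac (al i + k) (be i) (q1 i) (q2 i)

theorem FF_eval (K : Finset ℤ) (al be q1 q2 : Fin 24 → ℤ) (y : ℤ) :
    (FF K al be q1 q2).eval y = ∏ i : Fin 24, ∏ k ∈ K, (al i + k + be i * (q1 i * y + q2 i * y ^ 2)) := by
  unfold FF
  rw [eval_prod]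
  refine prod_congr rfl fun i _ => ?_
  rw [eval_prod]
  exact prod_congr rfl fun k _ => fac_eval _ _ _ _ _

theorem FF_deg (K : Finset ℤ) (al be q1 q2 : Fin 24 → ℤ) : (FF K al be q1 q2).natDegree ≤ 48 * K.card := by
  unfold FF
  refine (natDegree_prod_le _ _).trans ?_
  have h1 : ∀ i ∈ (Finset.univ : Finset (Fin 24)),
      (∏ k ∈ K, fac (al i + k) (be i) (q1 i) (q2 i)).natDegree ≤ 2 * K.card := by
    intro i _
    refine (natDegree_prod_le _ _).trans ?_
    refine (sum_le_sum fun k _ => fac_deg _ _ _ _).trans ?_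
    rw [sum_const, smul_eq_mul, mul_comm]
  refine (sum_le_sum h1).trans ?_
  rw [sum_const, smul_eq_mul, card_univ, Fintype.card_fin]
  omega

theorem FF_loc (K : Finset ℤ) (al be q1 q2 : Fin 24 → ℤ) {p : ℕ} (hp : p.Prime) (hdeg : 48 * K.card < p)
    (hb : ∀ i, ¬ (p : ℤ) ∣ be i) (hq : ∀ i, ¬ ((p : ℤ) ∣ q1 i ∧ (p : ℤ) ∣ q2 i)) :
    ∃ y : ℤ, ¬ (p : ℤ) ∣ (FF K al be q1 q2).eval y := by
  have : Fact p.Prime := ⟨hp⟩
  have hne : (FF K al be q1 q2).map (Int.castRingHom (ZMod p)) ≠ 0 := by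
    unfold FF
    rw [Polynomial.map_prod]
    refine prod_ne_zero_iff.2 fun i _ => ?_
    rw [Polynomial.map_prod]
    exact prod_ne_zero_iff.2 fun k _ => fac_map_ne hp (hb i) (hq i)
  have hcard : ((((FF K al be q1 q2).map (Int.castRingHom (ZMod p))).natDegree : ℕ) : Cardinal) < Cardinal.mk (ZMod p) := by
    rw [Cardinal.mk_fintype, ZMod.card, Nat.cast_lt]
    exact (natDegree_map_le.trans (FF_deg K al be q1 q2)).trans_lt hdeg
  obtain ⟨r, hr⟩ := exists_eval_ne_zero_of_natDegree_lt_card _ hne hcard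
  refine ⟨(r.val : ℤ), fun h => hr ?_⟩
  have h2 : (Int.castRingHom (ZMod p)) ((FF K al be q1 q2).eval (r.val : ℤ)) = 0 := by
    rw [eq_intCast, ZMod.intCast_zmod_eq_zero_iff_dvd]
    exact h
  rw [← Polynomial.eval_map_apply] at h2
  simpa using h2

end MAINM

open MAINM

theorem specMAIN (hCFG : SpecCFG) (hSVP : SpecSVP) : SpecMAIN := by
  intro h K hh h24 hK
  obtain ⟨D, hD⟩ : ∃ D : ℕ, D = 48 * (K.card + 2) := ⟨_, rfl⟩
  rw [← hD] at hK
  obtain ⟨M0, hM0⟩ : ∃ M0 : ℕ, M0 = D.factorial := ⟨_, rfl⟩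
  rw [← hM0] at hK
  have hM01 : 1 ≤ M0 := by rw [hM0]; exact Nat.succ_le_of_lt (Nat.factorial_pos D)
  have h6 : 6 ∣ M0 := by rw [hM0]; exact Nat.dvd_factorial (by norm_num) (by omega)
  obtain ⟨B, hB⟩ : ∃ B : ℕ, B = 1 + (∑ k ∈ K, k.natAbs) := ⟨_, rfl⟩
  obtain ⟨C1, z1, hC1⟩ := hCFG h M0 B hh h24 h6 hM01
  obtain ⟨C2, hC2⟩ := hSVP D
  set C3 := C1 + 1 with hC3
  refine ⟨2 * (C2 + C3 + 7), max z1 2, ?_⟩
  intro z hz σ hσ x hx
  have hz1 : z1 ≤ z := (le_max_left _ _).trans hz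
  have hz2 : 2 ≤ z := (le_max_right _ _).trans hz
  have hz0 : 0 < z := by omega
  obtain ⟨q1, q2, al, be, hq, hab, hloc1, hloc2, hsign⟩ := hC1 z hz1
  -- the size of `√x`
  set R := Nat.sqrt x with hR
  have hRbig : z ^ (C2 + C3 + 7) ≤ R := by
    rw [hR, Nat.le_sqrt', ← pow_mul]
    refine le_trans (Nat.pow_le_pow_right hz0 (by omega)) hx
  set Y := R / z ^ C3 with hY
  have hzC3 : 0 < z ^ C3 := Nat.pow_pos hz0
  have hYR : Y * z ^ C3 ≤ R := Nat.div_mul_le_self _ _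
  have hYbig : z ^ (C2 + 7) ≤ Y := by
    rw [hY, Nat.le_div_iff_mul_le hzC3, ← pow_add]
    refine le_trans (Nat.pow_le_pow_right hz0 (by omega)) hRbig
  have hY1 : 1 ≤ Y := (Nat.one_le_pow _ _ hz0).trans hYbig
  have hRY : R < (Y + 1) * z ^ C3 := by
    have h2 := Nat.div_add_mod R (z ^ C3)
    have h3 := Nat.mod_lt R hzC3
    nlinarith
  set K' : Finset ℤ := insert 0 (insert (h : ℤ) K) with hK'
  have hcardK' : K'.card ≤ K.card + 2 := by
    refine (card_insert_le _ _).trans ?_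
    have := card_insert_le (h : ℤ) K
    omega
  set F := FF K' al be q1 q2 with hF
  have hFdeg : F.natDegree ≤ D := by
    refine (FF_deg K' al be q1 q2).trans ?_
    rw [hD]
    exact Nat.mul_le_mul_left _ hcardK'
  have hpint : ∀ p : ℕ, p.Prime → Prime (p : ℤ) := fun p hp => Nat.prime_iff_prime_int.1 hp
  have hFloc : ∀ p : ℕ, p.Prime → p < z → ∃ y : ℤ, ¬ (p : ℤ) ∣ F.eval y := by
    intro p hp hpz
    by_cases hpM : p ∣ M0
    · refine ⟨0, ?_⟩
      rw [hF, FF_eval]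
      intro hd
      obtain ⟨i, _, hi⟩ := (hpint p hp).exists_mem_finset_dvd hd
      obtain ⟨k, hk, hik⟩ := (hpint p hp).exists_mem_finset_dvd hi
      have h4 := hloc2 p hp hpM i
      have h5 : (p : ℤ) ∣ al i + k := by simpa using hik
      rw [hK', mem_insert, mem_insert] at hk
      rcases hk with rfl | rfl | hk
      · exact h4.1 (by simpa using h5)
      · exact h4.2 h5
      · refine h4.1 ?_
        have h6' : (p : ℤ) ∣ k := dvd_trans (by exact_mod_cast hpM) (hK k hk)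
        exact (dvd_add_left h6').1 h5
    · have hpD : D < p := by
        by_contra hcon
        exact hpM (by rw [hM0]; exact Nat.dvd_factorial hp.pos (not_lt.1 hcon))
      have h7 : 48 * K'.card < p := lt_of_le_of_lt (Nat.mul_le_mul_left _ hcardK') (by rw [← hD]; exact hpD)
      exact FF_loc K' al be q1 q2 hp h7 (fun i => (hloc1 p hp hpz hpM i).1) (fun i => (hloc1 p hp hpz hpM i).2)
  have hsv := hC2 F z Y hFdeg hz2 ((Nat.pow_le_pow_right hz0 (by omega)).trans hYbig) hFloc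
  set G := (Icc 1 Y).filter (fun y : ℕ => RZ z (F.eval (y : ℤ))) with hG
  set S := (Icc 1 x).filter (fun n : ℕ => RZ z (n : ℤ) ∧ RZ z ((n : ℤ) + h) ∧
      (∀ k ∈ K, 0 < (n : ℤ) + k ∧ RZ z ((n : ℤ) + k)) ∧ lz (n : ℤ) = σ ∧ lz ((n : ℤ) + h) = σ) with hS
  -- the numbers
  set N : Fin 24 → ℕ → ℤ := fun i y => al i + be i * (q1 i * y + q2 i * y ^ 2) with hN
  have hNmono : ∀ i, ∀ y y' : ℕ, y < y' → N i y < N i y' := by
    intro i y y' hyy
    have h8 := hq i
    have h9 := hab i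
    have h10 : (y : ℤ) < y' := by exact_mod_cast hyy
    have h11 : (0 : ℤ) ≤ y := by positivity
    show al i + be i * (q1 i * y + q2 i * y ^ 2) < al i + be i * (q1 i * y' + q2 i * y' ^ 2)
    have h12 : q1 i * y + q2 i * y ^ 2 < q1 i * y' + q2 i * y' ^ 2 := by
      have h13 : (y : ℤ) + 1 ≤ y' := h10
      have h14 : (y : ℤ) ^ 2 + 1 ≤ (y' : ℤ) ^ 2 := by nlinarith
      have h15 : q1 i * y + q1 i ≤ q1 i * y' := by nlinarith [h8.1]
      have h16 : q2 i * (y : ℤ) ^ 2 + q2 i ≤ q2 i * (y' : ℤ) ^ 2 := by nlinarith [h8.2.1]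
      linarith [h8.2.2.1]
    have h17 : 0 < be i := by linarith [h9.2.2.1]
    have := mul_lt_mul_of_pos_left h12 h17
    linarith
  have hNlow : ∀ i, ∀ y : ℕ, (B : ℤ) ≤ N i y := by
    intro i y
    have h8 := hq i
    have h9 := hab i
    have h11 : (0 : ℤ) ≤ y := by positivity
    show (B : ℤ) ≤ al i + be i * (q1 i * y + q2 i * y ^ 2)
    have h12 : 0 ≤ be i * (q1 i * y + q2 i * y ^ 2) := by
      have := h8.1
      have := h8.2.1
      have : 0 ≤ be i := by linarith [h9.2.2.1]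
      positivity
    linarith [h9.1]
  have hNup : ∀ i, ∀ y : ℕ, y ≤ Y → N i y ≤ x := by
    intro i y hy
    have h8 := hq i
    have h9 := hab i
    have hzC1 : (1 : ℤ) ≤ (z : ℤ) ^ C1 := by exact_mod_cast Nat.one_le_pow _ _ hz0
    have hyY : (y : ℤ) ≤ Y := by exact_mod_cast hy
    have h11 : (0 : ℤ) ≤ y := by positivity
    have hY1' : (1 : ℤ) ≤ Y := by exact_mod_cast hY1
    set W : ℤ := (z : ℤ) ^ C1 with hW
    have h12 : q1 i * y + q2 i * y ^ 2 ≤ 2 * W * Y ^ 2 := by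
      have h13 : q1 i * y ≤ W * Y := mul_le_mul h8.2.2.2.1 hyY h11 (by linarith)
      have h14 : (y : ℤ) ^ 2 ≤ (Y : ℤ) ^ 2 := pow_le_pow_left₀ h11 hyY 2
      have h15 : q2 i * (y : ℤ) ^ 2 ≤ W * (Y : ℤ) ^ 2 := mul_le_mul h8.2.2.2.2 h14 (by positivity) (by linarith)
      have h16 : W * Y ≤ W * (Y : ℤ) ^ 2 := by
        have : (Y : ℤ) ≤ (Y : ℤ) ^ 2 := by nlinarith
        exact mul_le_mul_of_nonneg_left this (by linarith)
      linarith
    have h17 : be i * (q1 i * y + q2 i * y ^ 2) ≤ W * (2 * W * Y ^ 2) :=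
      mul_le_mul h9.2.2.2 h12 (by have := h8.1; have := h8.2.1; positivity) (by linarith)
    have h18 : N i y ≤ 3 * W ^ 2 * (Y : ℤ) ^ 2 := by
      show al i + be i * (q1 i * y + q2 i * y ^ 2) ≤ _
      have h19 : al i ≤ W ^ 2 * (Y : ℤ) ^ 2 := by
        refine h9.2.1.trans ?_
        have h20 : (1 : ℤ) ≤ (Y : ℤ) ^ 2 := one_le_pow₀ hY1'
        nlinarith
      nlinarith
    have h21 : (3 : ℤ) * W ^ 2 * (Y : ℤ) ^ 2 ≤ x := by
      have h22 : (3 : ℤ) * W ^ 2 ≤ ((z : ℤ) ^ C3) ^ 2 := by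
        have h22' : (z : ℤ) ^ C3 = W * z := by rw [hC3, pow_succ]
        rw [h22', mul_pow]
        have h23 : (3 : ℤ) ≤ (z : ℤ) ^ 2 := by
          have : (2 : ℤ) ≤ z := by exact_mod_cast hz2
          nlinarith
        nlinarith [sq_nonneg W]
      have h24' : ((Y : ℤ) * (z : ℤ) ^ C3) ^ 2 ≤ x := by
        have h25 : (Y * z ^ C3) ^ 2 ≤ x := by
          refine le_trans (Nat.pow_le_pow_left hYR 2) ?_
          rw [hR]
          exact Nat.sqrt_le' x
        exact_mod_cast h25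
      nlinarith [sq_nonneg (Y : ℤ)]
    linarith
  -- the choice of `i`
  choose ii hii using fun y : ℕ => hsign σ hσ y
  have hmap : ∀ y ∈ G, (ii y, (N (ii y) y).toNat) ∈ (Finset.univ : Finset (Fin 24)) ×ˢ S := by
    intro y hy
    rw [hG, mem_filter, mem_Icc] at hy
    obtain ⟨⟨hy1, hyY⟩, hyR⟩ := hy
    rw [mem_product]
    refine ⟨mem_univ _, ?_⟩
    have hB1 : (1 : ℤ) ≤ B := by exact_mod_cast (show 1 ≤ B by rw [hB]; exact Nat.le_add_right 1 _)
    have h26 := hNlow (ii y) y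
    have h27 : ((N (ii y) y).toNat : ℤ) = N (ii y) y := Int.toNat_of_nonneg (by linarith)
    rw [hS, mem_filter, mem_Icc, h27]
    have hfac : ∀ k ∈ K', RZ z (N (ii y) y + k) := by
      intro k hk p hp hpz hd
      refine hyR p hp hpz ?_
      rw [hF, FF_eval]
      refine dvd_trans ?_ (Finset.dvd_prod_of_mem _ (mem_univ (ii y)))
      refine dvd_trans ?_ (Finset.dvd_prod_of_mem _ hk)
      have h28 : al (ii y) + k + be (ii y) * (q1 (ii y) * (y : ℤ) + q2 (ii y) * (y : ℤ) ^ 2) = N (ii y) y + k := by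
        show _ = al (ii y) + be (ii y) * (q1 (ii y) * (y : ℤ) + q2 (ii y) * (y : ℤ) ^ 2) + k
        ring
      rw [h28]
      exact hd
    refine ⟨⟨?_, ?_⟩, ?_, ?_, ?_, (hii y).1, (hii y).2⟩
    · have : (1 : ℤ) ≤ ((N (ii y) y).toNat : ℤ) := by rw [h27]; linarith
      exact_mod_cast this
    · have : ((N (ii y) y).toNat : ℤ) ≤ x := by rw [h27]; exact hNup (ii y) y hyY
      exact_mod_cast this
    · have := hfac 0 (by rw [hK']; exact mem_insert_self _ _)
      simpa using this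
    · exact hfac h (by rw [hK']; exact mem_insert_of_mem (mem_insert_self _ _))
    · intro k hk
      refine ⟨?_, hfac k (by rw [hK']; exact mem_insert_of_mem (mem_insert_of_mem hk))⟩
      have h29 : (k.natAbs : ℤ) ≤ ((∑ k ∈ K, k.natAbs : ℕ) : ℤ) := by
        exact_mod_cast Finset.single_le_sum (f := fun k : ℤ => k.natAbs) (fun _ _ => Nat.zero_le _) hk
      have h30 : (B : ℤ) = 1 + ((∑ k ∈ K, k.natAbs : ℕ) : ℤ) := by rw [hB]; push_cast; rfl
      have h31 : -(k.natAbs : ℤ) ≤ k := by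
        rw [Int.natCast_natAbs]
        exact neg_abs_le k
      linarith
  have hinj : Set.InjOn (fun y : ℕ => (ii y, (N (ii y) y).toNat)) (G : Set ℕ) := by
    intro y _ y' _ hyy
    have h32 : ii y = ii y' := congrArg Prod.fst hyy
    have h33 : (N (ii y) y).toNat = (N (ii y') y').toNat := congrArg Prod.snd hyy
    have hB1 : (1 : ℤ) ≤ B := by exact_mod_cast (show 1 ≤ B by rw [hB]; exact Nat.le_add_right 1 _)
    have h34 := hNlow (ii y) y
    have h35 := hNlow (ii y') y'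
    have h36 : N (ii y) y = N (ii y') y' := by
      have h37 : ((N (ii y) y).toNat : ℤ) = ((N (ii y') y').toNat : ℤ) := by exact_mod_cast h33
      rwa [Int.toNat_of_nonneg (by linarith), Int.toNat_of_nonneg (by linarith)] at h37
    rw [h32] at h36
    rcases lt_trichotomy y y' with hlt | heq | hgt
    · exact absurd h36 (hNmono _ _ _ hlt).ne
    · exact heq
    · exact absurd h36 (hNmono _ _ _ hgt).ne'
  have hcard : G.card ≤ 24 * S.card := by
    have := card_le_card_of_injOn _ hmap hinj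
    rwa [card_product, card_univ, Fintype.card_fin] at this
  -- the end
  have h38 : Y ≤ z ^ C2 * (24 * S.card) := hsv.trans (Nat.mul_le_mul_left _ hcard)
  have h39 : R ≤ 2 * Y * z ^ C3 := by
    have : (Y + 1) * z ^ C3 ≤ 2 * Y * z ^ C3 := Nat.mul_le_mul_right _ (by omega)
    omega
  have h40 : 48 ≤ z ^ 6 := by
    have : 2 ^ 6 ≤ z ^ 6 := Nat.pow_le_pow_left hz2 6
    omega
  calc R ≤ 2 * Y * z ^ C3 := h39
    _ ≤ 2 * (z ^ C2 * (24 * S.card)) * z ^ C3 := Nat.mul_le_mul_right _ (Nat.mul_le_mul_left _ h38)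
    _ = 48 * (z ^ (C2 + C3) * S.card) := by rw [pow_add]; ring
    _ ≤ z ^ 6 * (z ^ (C2 + C3) * S.card) := Nat.mul_le_mul_right _ h40
    _ = z ^ (6 + (C2 + C3)) * S.card := by rw [pow_add]; ring
    _ ≤ z ^ (2 * (C2 + C3 + 7)) * S.card := Nat.mul_le_mul_right _ (Nat.pow_le_pow_right hz0 (by omega))

end

end Pool.Agent.Lib.MP_3efbeb_nt.PR
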