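import Pool.Agent.Lib.MP_3efbeb_nt.PR.Spec

/-!
# MP_3efbeb_nt, PR: PSEL, the choice of `P` (helper44)
-/

set_option autoImplicit false

namespace Pool.Agent.Lib.MP_3efbeb_nt.PR

open Finset Polynomial

noncomputable section

namespace PSELM

theorem rz_coprime {z a M : ℕ} (hM : 1 ≤ M) (hz : M < z) (ha : RZ z a) : Nat.Coprime a M := by
  apply Nat.coprime_of_dvd
  intro p hp hpa hpM
  have h1 : p ≤ M := Nat.le_of_dvd (by omega) hpM
  exact ha p hp (by omega) (Int.natCast_dvd_natCast.2 hpa)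

theorem not_dvd_of_rz {z a p : ℕ} (ha : RZ z a) (hp : p.Prime) (hpz : p < z) : ¬ p ∣ a :=
  fun h => ha p hp hpz (Int.natCast_dvd_natCast.2 h)

/-- two values of a linear form -/
theorem lin_two {p : ℕ} (hp : p.Prime) (h5 : 5 ≤ p) {u0 A : ℤ} (hA : ¬ (p : ℤ) ∣ A) {y y' : ℤ}
    (hne : y ≠ y') (hy : 0 ≤ y ∧ y ≤ 2) (hy' : 0 ≤ y' ∧ y' ≤ 2) (h : (p : ℤ) ∣ u0 + A * y)
    (h' : (p : ℤ) ∣ u0 + A * y') : False := by
  have hpp : Prime (p : ℤ) := Nat.prime_iff_prime_int.1 hp
  have h1 : (p : ℤ) ∣ A * (y - y') := by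
    have := dvd_sub h h'
    have e : u0 + A * y - (u0 + A * y') = A * (y - y') := by ring
    rwa [e] at this
  rcases hpp.dvd_or_dvd h1 with h2 | h2
  · exact hA h2
  · have h3 : y - y' ≠ 0 := sub_ne_zero.2 hne
    have h4 := Int.le_of_dvd (abs_pos.2 h3) ((dvd_abs _ _).2 h2)
    have h5' : |y - y'| ≤ 2 := by
      rw [abs_le]
      omega
    omega

end PSELM

open PSELM

theorem specPSEL (hSVP : SpecSVP) : SpecPSEL := by
  classical
  intro k M P0 D hk hM h6 hP0 hP0k
  obtain ⟨C, hC⟩ := hSVP 2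
  refine ⟨3 * D + C + 2, M + 2, ?_⟩
  intro z hz a b c ha hb hc hra hrb hrc hab hac hbc haz hbz hcz
  have hz2 : 2 ≤ z := by omega
  have hMz : M < z := by omega
  have caM := rz_coprime hM hMz hra
  have cbM := rz_coprime hM hMz hrb
  have ccM := rz_coprime hM hMz hrc
  have hN : 0 < a * b * c * M := by positivity
  -- CRT
  obtain ⟨P1, hP1lt, h1a, h1b, h1c, h1M⟩ : ∃ P1 : ℕ, P1 < a * b * c * M ∧ a ∣ P1 ∧ b ∣ P1 + k ∧
      P1 ≡ 1 [MOD c] ∧ P1 ≡ P0 [MOD M] := by
    obtain ⟨x1, e1, e2⟩ := Nat.chineseRemainder hab 0 (b * k - k)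
    have cab : Nat.Coprime (a * b) c := Nat.Coprime.mul_left hac hbc
    obtain ⟨x2, e3, e4⟩ := Nat.chineseRemainder cab x1 1
    have cabc : Nat.Coprime (a * b * c) M := Nat.Coprime.mul_left (Nat.Coprime.mul_left caM cbM) ccM
    obtain ⟨x3, e5, e6⟩ := Nat.chineseRemainder cabc x2 P0
    have hr : x3 % (a * b * c * M) ≡ x3 [MOD a * b * c * M] := Nat.mod_modEq _ _
    have da : a ∣ a * b * c * M := ⟨b * c * M, by ring⟩
    have db : b ∣ a * b * c * M := ⟨a * c * M, by ring⟩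
    have dc : c ∣ a * b * c * M := ⟨a * b * M, by ring⟩
    have dM : M ∣ a * b * c * M := ⟨a * b * c, by ring⟩
    refine ⟨x3 % (a * b * c * M), Nat.mod_lt _ hN, ?_, ?_, ?_, ?_⟩
    · have f1 : x3 % (a * b * c * M) ≡ 0 [MOD a] :=
        (hr.of_dvd da).trans ((e5.of_dvd ⟨b * c, by ring⟩).trans ((e3.of_dvd ⟨b, rfl⟩).trans e1))
      exact (Nat.modEq_zero_iff_dvd).1 f1
    · have f1 : x3 % (a * b * c * M) ≡ b * k - k [MOD b] :=
        (hr.of_dvd db).trans ((e5.of_dvd ⟨a * c, by ring⟩).trans ((e3.of_dvd ⟨a, by ring⟩).trans e2))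
      have f2 := f1.add_right k
      have f3 : b * k - k + k = b * k := Nat.sub_add_cancel (Nat.le_mul_of_pos_left k (by omega))
      rw [f3] at f2
      exact (Nat.modEq_zero_iff_dvd).1 (f2.trans ((Nat.modEq_zero_iff_dvd).2 ⟨k, rfl⟩))
    · exact (hr.of_dvd dc).trans ((e5.of_dvd ⟨a * b, by ring⟩).trans e4)
    · exact (hr.of_dvd dM).trans e6
  obtain ⟨u0, hu0⟩ := h1a
  obtain ⟨w0, hw0⟩ := h1b
  set F : Polynomial ℤ := (Polynomial.C (u0 : ℤ) + Polynomial.C ((b * c * M : ℕ) : ℤ) * X) *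
    (Polynomial.C (w0 : ℤ) + Polynomial.C ((a * c * M : ℕ) : ℤ) * X) with hF
  have hev : ∀ y : ℤ, F.eval y = ((u0 : ℤ) + ((b * c * M : ℕ) : ℤ) * y) *
      ((w0 : ℤ) + ((a * c * M : ℕ) : ℤ) * y) := by
    intro y
    rw [hF]
    simp only [eval_mul, eval_add, eval_C, eval_X]
  have hdeg : F.natDegree ≤ 2 := by
    have l1 : ∀ u v : ℤ, (Polynomial.C u + Polynomial.C v * X : Polynomial ℤ).natDegree ≤ 1 := by
      intro u v
      rw [add_comm]
      exact natDegree_linear_le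
    exact natDegree_mul_le_of_le (l1 _ _) (l1 _ _)
  have hloc : ∀ p : ℕ, p.Prime → p < z → ∃ y : ℤ, ¬ (p : ℤ) ∣ F.eval y := by
    intro p hp hpz
    have hpp : Prime (p : ℤ) := Nat.prime_iff_prime_int.1 hp
    by_cases hpM : p ∣ M
    · refine ⟨0, fun h => ?_⟩
      rw [hev, mul_zero, add_zero, mul_zero, add_zero] at h
      rcases hpp.dvd_or_dvd h with h1 | h1
      · have h2 : p ∣ P1 := by
          rw [hu0]
          exact Dvd.dvd.mul_left (Int.natCast_dvd_natCast.1 h1) a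
        have h3 : p ∣ P0 := ((h1M.of_dvd hpM).dvd_iff dvd_rfl).1 h2
        exact hp.one_lt.ne' (Nat.eq_one_of_dvd_coprimes hP0 h3 hpM)
      · have h2 : p ∣ P1 + k := by
          rw [hw0]
          exact Dvd.dvd.mul_left (Int.natCast_dvd_natCast.1 h1) b
        have h3 : p ∣ P0 + k := (((h1M.of_dvd hpM).add_right k).dvd_iff dvd_rfl).1 h2
        exact hp.one_lt.ne' (Nat.eq_one_of_dvd_coprimes hP0k h3 hpM)
    · have h5 : 5 ≤ p := by
        have h2 : p ≠ 2 := by
          rintro rfl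
          exact hpM (dvd_trans (by norm_num) h6)
        have h3 : p ≠ 3 := by
          rintro rfl
          exact hpM (dvd_trans (by norm_num) h6)
        have h4 : p ≠ 4 := by
          rintro rfl
          exact absurd hp (by norm_num)
        have := hp.two_le
        omega
      have na := not_dvd_of_rz hra hp hpz
      have nb := not_dvd_of_rz hrb hp hpz
      have nc := not_dvd_of_rz hrc hp hpz
      have hA : ¬ (p : ℤ) ∣ ((b * c * M : ℕ) : ℤ) := by
        rw [Int.natCast_dvd_natCast, hp.dvd_mul, hp.dvd_mul]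
        tauto
      have hB : ¬ (p : ℤ) ∣ ((a * c * M : ℕ) : ℤ) := by
        rw [Int.natCast_dvd_natCast, hp.dvd_mul, hp.dvd_mul]
        tauto
      by_contra hcon
      push Not at hcon
      have q : ∀ y : ℤ, (p : ℤ) ∣ (u0 : ℤ) + ((b * c * M : ℕ) : ℤ) * y ∨
          (p : ℤ) ∣ (w0 : ℤ) + ((a * c * M : ℕ) : ℤ) * y := by
        intro y
        have h := hcon y
        rw [hev] at h
        exact hpp.dvd_or_dvd h
      rcases q 0 with h0 | h0 <;> rcases q 1 with h1 | h1 <;> rcases q 2 with h2 | h2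
      · exact lin_two hp h5 hA (by norm_num) (by norm_num) (by norm_num) h0 h1
      · exact lin_two hp h5 hA (by norm_num) (by norm_num) (by norm_num) h0 h1
      · exact lin_two hp h5 hA (by norm_num) (by norm_num) (by norm_num) h0 h2
      · exact lin_two hp h5 hB (by norm_num) (by norm_num) (by norm_num) h1 h2
      · exact lin_two hp h5 hA (by norm_num) (by norm_num) (by norm_num) h1 h2
      · exact lin_two hp h5 hB (by norm_num) (by norm_num) (by norm_num) h0 h2
      · exact lin_two hp h5 hB (by norm_num) (by norm_num) (by norm_num) h0 h1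
      · exact lin_two hp h5 hB (by norm_num) (by norm_num) (by norm_num) h0 h1
  have hcount := hC F z (z ^ C) hdeg hz2 le_rfl hloc
  have hpos : 0 < z ^ C := by positivity
  obtain ⟨y, hy⟩ : ((Icc 1 (z ^ C)).filter (fun y : ℕ => RZ z (F.eval (y : ℤ)))).Nonempty := by
    rw [← Finset.card_pos]
    by_contra h
    have h0 : ((Icc 1 (z ^ C)).filter (fun y : ℕ => RZ z (F.eval (y : ℤ)))).card = 0 := by omega
    have h1 : z ^ C ≤ z ^ C * 0 := by
      have := hcount
      rwa [h0] at this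
    omega
  obtain ⟨hy1, hy2⟩ := Finset.mem_filter.1 hy
  obtain ⟨hy3, hy4⟩ := Finset.mem_Icc.1 hy1
  have eP : P1 + a * b * c * M * y = a * (u0 + b * c * M * y) := by rw [hu0]; ring
  have ePk : P1 + a * b * c * M * y + k = b * (w0 + a * c * M * y) := by
    have : P1 + a * b * c * M * y + k = (P1 + k) + a * b * c * M * y := by ring
    rw [this, hw0]
    ring
  refine ⟨P1 + a * b * c * M * y, ?_, ?_, ?_, ?_, ?_, ?_, ?_, ?_⟩
  · have : 0 < a * b * c * M * y := Nat.mul_pos hN (by omega)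
    omega
  · have hNz : a * b * c * M ≤ z ^ (3 * D + 1) := by
      calc a * b * c * M ≤ z ^ D * z ^ D * z ^ D * z :=
            Nat.mul_le_mul (Nat.mul_le_mul (Nat.mul_le_mul haz hbz) hcz) hMz.le
        _ = z ^ (3 * D + 1) := by ring
    calc P1 + a * b * c * M * y ≤ a * b * c * M + a * b * c * M * z ^ C :=
          Nat.add_le_add hP1lt.le (Nat.mul_le_mul_left _ hy4)
      _ = a * b * c * M * (z ^ C + 1) := by ring
      _ ≤ z ^ (3 * D + 1) * z ^ (C + 1) := by
          apply Nat.mul_le_mul hNz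
          rw [pow_succ]
          nlinarith
      _ = z ^ (3 * D + C + 2) := by ring
  · exact ⟨_, eP⟩
  · exact ⟨_, ePk⟩
  · have h1 : P1 + a * b * c * M * y ≡ 1 + 0 [MOD c] := by
      apply Nat.ModEq.add h1c
      exact (Nat.modEq_zero_iff_dvd).2 ⟨a * b * M * y, by ring⟩
    exact h1
  · have h1 : P1 + a * b * c * M * y ≡ P0 + 0 [MOD M] := by
      apply Nat.ModEq.add h1M
      exact (Nat.modEq_zero_iff_dvd).2 ⟨a * b * c * y, by ring⟩
    exact h1
  · intro p hp hpz hdvd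
    have hpp : Prime (p : ℤ) := Nat.prime_iff_prime_int.1 hp
    rw [eP, Nat.cast_mul] at hdvd
    rcases hpp.dvd_or_dvd hdvd with h | h
    · exact hra p hp hpz h
    · apply hy2 p hp hpz
      rw [hev]
      apply Dvd.dvd.mul_right
      push_cast at h ⊢
      exact h
  · intro p hp hpz hdvd
    have hpp : Prime (p : ℤ) := Nat.prime_iff_prime_int.1 hp
    rw [ePk, Nat.cast_mul] at hdvd
    rcases hpp.dvd_or_dvd hdvd with h | h
    · exact hrb p hp hpz h
    · apply hy2 p hp hpz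
      rw [hev]
      apply Dvd.dvd.mul_left
      push_cast at h ⊢
      exact h

end

end Pool.Agent.Lib.MP_3efbeb_nt.PR
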