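import Pool.Agent.Lib.MP_3efbeb_nt.PR.Spec
import Pool.Agent.Lib.MP_3efbeb_nt.DL.ONE

/-!
# MP_3efbeb_nt, PR, module SEL (helper15): six coprime triples `(s, t)` with the same `g`
-/

set_option autoImplicit false

namespace Pool.Agent.Lib.MP_3efbeb_nt.PR

open Finset
open scoped Classical
open Pool.Agent.Lib.MP_3efbeb_nt.DL (SpecC1 SpecTK SpecEQ SpecLAM SpecVLP Good Rgh W1 QQ NN VV cq Lam ga)

noncomputable section

namespace SELM

/-- the number of `t ≤ X` with `p ∣ t`, `g ∣ t + 2` -/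
lemma card_two {X p g z : ℕ} (hz : 3 ≤ z) (hp : p.Prime) (hzp : z ≤ p) (hg : 1 ≤ g) (hg' : g = 1 ∨ g.Prime) :
    (((Icc 1 X).filter (fun t => p ∣ t ∧ g ∣ t + 2)).card : ℝ) ≤ (X : ℝ) / (z * g) + 1 := by
  have hz0 : (0 : ℝ) < z := by exact_mod_cast (by omega : 0 < z)
  have hg0 : (0 : ℝ) < g := by exact_mod_cast hg
  by_cases hpg : Nat.Coprime p g
  · -- one class mod p g
    set A := (Icc 1 X).filter (fun t => p ∣ t ∧ g ∣ t + 2) with hA
    have hcls : ∀ t ∈ A, ∀ t' ∈ A, t ≤ t' → p * g ∣ t' - t := by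
      intro t ht t' ht' htt
      rw [hA, mem_filter] at ht ht'
      have h1 : p ∣ t' - t := Nat.dvd_sub ht'.2.1 ht.2.1
      have h2 : g ∣ t' - t := by
        have := Nat.dvd_sub ht'.2.2 ht.2.2
        have e : t' + 2 - (t + 2) = t' - t := by omega
        rwa [e] at this
      exact Nat.Coprime.mul_dvd_of_dvd_of_dvd hpg h1 h2
    have hinj : Set.InjOn (fun t => t / (p * g)) (A : Set ℕ) := by
      intro t ht t' ht' h
      simp only at h
      have key : ∀ t ∈ A, ∀ t' ∈ A, t ≤ t' → t / (p * g) = t' / (p * g) → t = t' := by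
        intro t ht t' ht' htt h
        obtain ⟨c, hc⟩ := hcls t ht t' ht' htt
        have hpg0 : 0 < p * g := Nat.mul_pos hp.pos hg
        have e : t' = t + p * g * c := by omega
        rw [e, Nat.add_mul_div_left _ _ hpg0] at h
        have : c = 0 := by omega
        rw [e, this]; ring
      rcases le_total t t' with h1 | h1
      · exact key t ht t' ht' h1 h
      · exact (key t' ht' t ht h1 h.symm).symm
    have h1 : A.card ≤ (range (X / (p * g) + 1)).card := by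
      refine card_le_card_of_injOn _ ?_ hinj
      intro t ht
      rw [mem_coe, hA, mem_filter, mem_Icc] at ht
      rw [mem_coe, mem_range]
      exact Nat.lt_succ_of_le (Nat.div_le_div_right ht.1.2)
    rw [card_range] at h1
    have h2 : ((X / (p * g) : ℕ) : ℝ) ≤ (X : ℝ) / (z * g) := by
      refine Nat.cast_div_le.trans ?_
      push_cast
      have : (z : ℝ) ≤ p := by exact_mod_cast hzp
      gcongr
    calc (A.card : ℝ) ≤ ((X / (p * g) + 1 : ℕ) : ℝ) := by exact_mod_cast h1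
      _ = ((X / (p * g) : ℕ) : ℝ) + 1 := by push_cast; ring
      _ ≤ _ := by linarith
  · -- p = g
    have hempty : (Icc 1 X).filter (fun t => p ∣ t ∧ g ∣ t + 2) = ∅ := by
      rw [filter_eq_empty_iff]
      rintro t _ ⟨h1, h2⟩
      rcases hg' with h | h
      · exact hpg (by rw [h]; exact Nat.coprime_one_right p)
      · have h3 : p = g := by
          by_contra hne
          exact hpg ((Nat.coprime_primes hp h).2 hne)
        rw [← h3] at h2
        have h4 : p ∣ 2 := (Nat.dvd_add_right h1).1 h2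
        have := Nat.le_of_dvd (by norm_num) h4
        omega
    rw [hempty]
    simp only [card_empty, CharP.cast_eq_zero]
    positivity

/-- the number of prime factors of a rough number -/
lemma card_pf {z C f : ℕ} (hz : 2 ≤ z) (hf1 : 1 ≤ f) (hf : f ≤ z ^ C) (hr : RZ z f) : f.primeFactors.card ≤ C := by
  have h1 : z ^ f.primeFactors.card ≤ ∏ p ∈ f.primeFactors, p := by
    refine Finset.pow_card_le_prod _ _ _ fun p hp => ?_
    have hp' := Nat.mem_primeFactors.1 hp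
    by_contra hlt
    exact hr p hp'.1 (by omega) (by exact_mod_cast hp'.2.1)
  have h2 : ∏ p ∈ f.primeFactors, p ≤ f := Nat.le_of_dvd hf1 (Nat.prod_primeFactors_dvd f)
  exact (Nat.pow_le_pow_iff_right (by omega)).1 (h1.trans (h2.trans hf))

/-- one `g` -/
lemma one_g {X C z g : ℕ} (hz : 3 ≤ z) (hX : X = z ^ C) (T : Finset ℕ) (hg : 1 ≤ g) (hg' : g = 1 ∨ g.Prime)
    (hT : ∀ t ∈ T, 2 ≤ t ∧ t ≤ X ∧ RZ z t ∧ g ∣ t + 2)
    (hno : ¬ ∃ t : Fin 6 → ℕ, (∀ i, t i ∈ T) ∧ ∀ i j, i ≠ j → Nat.Coprime (t i) (t j)) :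
    (T.card : ℝ) ≤ 5 * (C * ((X : ℝ) / (z * g) + 1)) := by
  -- a maximal family
  obtain ⟨F, hF, hmax⟩ := exists_max_image (T.powerset.filter (fun F : Finset ℕ => (F : Set ℕ).Pairwise Nat.Coprime))
    (fun F => F.card) ⟨∅, by simp⟩
  rw [mem_filter, mem_powerset] at hF
  obtain ⟨hFT, hFc⟩ := hF
  have hF5 : F.card ≤ 5 := by
    by_contra hlt
    push Not at hlt
    obtain ⟨F', hF', hc'⟩ := exists_subset_card_eq (show 6 ≤ F.card by omega)
    let e := F'.equivFinOfCardEq hc'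
    refine hno ⟨fun i => (e.symm i : ℕ), fun i => hFT (hF' (e.symm i).2), fun i j hij => ?_⟩
    refine hFc (hF' (e.symm i).2) (hF' (e.symm j).2) fun h => hij ?_
    exact e.symm.injective (Subtype.ext h)
  have hcov : T ⊆ F.biUnion (fun f => f.primeFactors.biUnion (fun p =>
      (Icc 1 X).filter (fun t => p ∣ t ∧ g ∣ t + 2))) := by
    intro t ht
    obtain ⟨h2, hX', hr, hgt⟩ := hT t ht
    -- a common prime factor with some element of F
    obtain ⟨f, hfF, hft⟩ : ∃ f ∈ F, ¬ Nat.Coprime f t := by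
      by_cases htF : t ∈ F
      · refine ⟨t, htF, fun h => ?_⟩
        rw [Nat.coprime_self] at h
        omega
      · by_contra hcon
        push Not at hcon
        have h1 : insert t F ∈ T.powerset.filter (fun F : Finset ℕ => (F : Set ℕ).Pairwise Nat.Coprime) := by
          rw [mem_filter, mem_powerset]
          refine ⟨insert_subset ht hFT, ?_⟩
          rw [coe_insert, Set.pairwise_insert]
          exact ⟨hFc, fun f hf _ => ⟨(hcon f hf).symm, hcon f hf⟩⟩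
        have h3 := hmax _ h1
        simp only [card_insert_of_notMem htF] at h3
        omega
    obtain ⟨p, hp, hpf, hpt⟩ := Nat.Prime.not_coprime_iff_dvd.1 hft
    rw [mem_biUnion]
    refine ⟨f, hfF, ?_⟩
    rw [mem_biUnion]
    have hf0 : f ≠ 0 := by
      have := (hT f (hFT hfF)).1
      omega
    refine ⟨p, Nat.mem_primeFactors.2 ⟨hp, hpf, hf0⟩, ?_⟩
    rw [mem_filter, mem_Icc]
    exact ⟨⟨by omega, hX'⟩, hpt, hgt⟩
  have hB0 : 0 ≤ (X : ℝ) / (z * g) + 1 := by positivity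
  calc (T.card : ℝ) ≤ ((F.biUnion (fun f => f.primeFactors.biUnion (fun p =>
      (Icc 1 X).filter (fun t => p ∣ t ∧ g ∣ t + 2)))).card : ℝ) := by exact_mod_cast card_le_card hcov
    _ ≤ ∑ f ∈ F, ((f.primeFactors.biUnion (fun p =>
      (Icc 1 X).filter (fun t => p ∣ t ∧ g ∣ t + 2))).card : ℝ) := by exact_mod_cast card_biUnion_le
    _ ≤ ∑ f ∈ F, (C * ((X : ℝ) / (z * g) + 1)) := by
        refine sum_le_sum fun f hf => ?_
        obtain ⟨h2, hX', hr, _⟩ := hT f (hFT hf)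
        calc ((f.primeFactors.biUnion (fun p => (Icc 1 X).filter (fun t => p ∣ t ∧ g ∣ t + 2))).card : ℝ)
            ≤ ∑ p ∈ f.primeFactors, (((Icc 1 X).filter (fun t => p ∣ t ∧ g ∣ t + 2)).card : ℝ) := by
              exact_mod_cast card_biUnion_le
          _ ≤ ∑ p ∈ f.primeFactors, ((X : ℝ) / (z * g) + 1) := by
              refine sum_le_sum fun p hp => ?_
              have hp' := Nat.mem_primeFactors.1 hp
              refine card_two hz hp'.1 ?_ hg hg'
              by_contra hlt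
              exact hr p hp'.1 (by omega) (by exact_mod_cast hp'.2.1)
          _ = f.primeFactors.card * ((X : ℝ) / (z * g) + 1) := by rw [sum_const, nsmul_eq_mul]
          _ ≤ C * ((X : ℝ) / (z * g) + 1) := by
              refine mul_le_mul_of_nonneg_right ?_ hB0
              exact_mod_cast card_pf (by omega) (by omega) (hX ▸ hX') hr
    _ = F.card * (C * ((X : ℝ) / (z * g) + 1)) := by rw [sum_const, nsmul_eq_mul]
    _ ≤ 5 * (C * ((X : ℝ) / (z * g) + 1)) := by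
        refine mul_le_mul_of_nonneg_right ?_ (by positivity)
        exact_mod_cast hF5

/-- the selection -/
lemma pick {X C z N : ℕ} (hz : 3 ≤ z) (hX : X = z ^ C) (T : Finset ℕ) (gg : ℕ → ℕ)
    (hT : ∀ t ∈ T, 2 ≤ t ∧ t ≤ X ∧ RZ z t ∧ 1 ≤ gg t ∧ gg t ≤ N ∧ gg t ∣ t + 2 ∧ (gg t = 1 ∨ (gg t).Prime))
    (hcard : 5 * (C * ((X : ℝ) / z * (1 + Real.log N) + N)) < T.card) :
    ∃ g, ∃ t : Fin 6 → ℕ, (∀ i, t i ∈ T ∧ gg (t i) = g) ∧ ∀ i j, i ≠ j → Nat.Coprime (t i) (t j) := by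
  by_contra hno
  have hz0 : (0 : ℝ) < z := by exact_mod_cast (by omega : 0 < z)
  have h1 : T.card = ∑ g ∈ Icc 1 N, (T.filter (fun t => gg t = g)).card :=
    card_eq_sum_card_fiberwise (fun t ht => by
      rw [mem_coe, mem_Icc]
      have := hT t ht
      exact ⟨this.2.2.2.1, this.2.2.2.2.1⟩)
  have h2 : ∀ g ∈ Icc 1 N, (((T.filter (fun t => gg t = g)).card : ℕ) : ℝ) ≤ 5 * (C * ((X : ℝ) / (z * g) + 1)) := by
    intro g hg
    rw [mem_Icc] at hg
    by_cases hne : (T.filter (fun t => gg t = g)).Nonempty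
    · obtain ⟨t0, ht0⟩ := hne
      rw [mem_filter] at ht0
      have h3 := (hT t0 ht0.1).2.2.2.2.2.2
      rw [ht0.2] at h3
      refine one_g hz hX _ hg.1 h3 ?_ ?_
      · intro t ht
        rw [mem_filter] at ht
        obtain ⟨a1, a2, a3, a4, a5, a6, a7⟩ := hT t ht.1
        rw [ht.2] at a6
        exact ⟨a1, a2, a3, a6⟩
      · rintro ⟨t, ht, htc⟩
        exact hno ⟨g, t, fun i => by
          have := mem_filter.1 (ht i)
          exact this, htc⟩
    · rw [not_nonempty_iff_eq_empty] at hne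
      rw [hne, card_empty]
      push_cast
      positivity
  have h3 : (T.card : ℝ) ≤ ∑ g ∈ Icc 1 N, 5 * (C * ((X : ℝ) / (z * g) + 1)) := by
    rw [h1]
    push_cast
    exact sum_le_sum h2
  have h4 : ∑ g ∈ Icc 1 N, 5 * (C * ((X : ℝ) / (z * g) + 1)) ≤ 5 * (C * ((X : ℝ) / z * (1 + Real.log N) + N)) := by
    rw [← mul_sum, ← mul_sum, sum_add_distrib]
    have h5 : ∑ g ∈ Icc 1 N, (X : ℝ) / (z * g) = (X : ℝ) / z * ∑ g ∈ Icc 1 N, (1 : ℝ) / g := by
      rw [mul_sum]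
      refine sum_congr rfl fun g _ => ?_
      rw [div_mul_div_comm, mul_one]
    have h6 : ∑ g ∈ Icc 1 N, (1 : ℝ) / g ≤ 1 + Real.log N := by
      have h7 := harmonic_le_one_add_log N
      have h8 : ((harmonic N : ℚ) : ℝ) = ∑ g ∈ Icc 1 N, (1 : ℝ) / g := by
        rw [harmonic_eq_sum_Icc]
        push_cast
        exact sum_congr rfl fun g _ => by rw [one_div]
      rw [← h8]
      exact h7
    rw [h5, sum_const, Nat.card_Icc, nsmul_eq_mul, mul_one, Nat.add_sub_cancel]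
    have h9 : (X : ℝ) / z * ∑ g ∈ Icc 1 N, (1 : ℝ) / g ≤ (X : ℝ) / z * (1 + Real.log N) :=
      mul_le_mul_of_nonneg_left h6 (by positivity)
    gcongr
  linarith

lemma lz_natCast (n : ℕ) : lz (n : ℤ) = (-1) ^ n.primeFactorsList.length := by
  unfold lz
  rw [Int.natAbs_natCast]

lemma lz_eq_neg_iff (n : ℕ) : lz (n : ℤ) = -1 ↔ n.primeFactorsList.length % 2 = 1 % 2 := by
  rw [lz_natCast, show (1 : ℕ) % 2 = 1 from rfl, ← Nat.odd_iff]
  constructor
  · intro h
    by_contra hc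
    rw [Nat.not_odd_iff_even] at hc
    rw [hc.neg_one_pow] at h
    norm_num at h
  · intro h
    exact h.neg_one_pow

lemma lz_eq_or (n : ℤ) : lz n = 1 ∨ lz n = -1 := neg_one_pow_eq_or ℤ _

/-- the analytic part -/
lemma many (hC1 : SpecC1) (hTK : SpecTK) (hEQ : SpecEQ) (hLAM : SpecLAM) (hVLP : SpecVLP) (M0 : ℕ) (hM0 : 1 ≤ M0) :
    ∃ M A C z0 : ℕ, M0 ∣ M ∧ 1 ≤ M ∧ 2 * A + 2 ≤ C ∧ ∀ z : ℕ, z0 ≤ z → ∃ T : Finset ℕ,
      (∀ t ∈ T, 1 ≤ t ∧ t ≤ z ^ C ∧ (t + 1) % M = 0 ∧ RZ z t ∧ RZ z ((t + 2 : ℕ) : ℤ) ∧ lz t = -1 ∧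
        ∃ q : ℕ, q.Prime ∧ z < q ∧ q ≤ z ^ (2 * A) ∧ q % M = 1 % M ∧ q ∣ t + 2) ∧
      ((z ^ C : ℕ) : ℝ) ≤ √z * T.card := by
  have hs1 : ∀ s ∈ ({2} : Finset ℤ), s ≠ 0 := by
    intro s hs; rw [mem_singleton] at hs; rw [hs]; norm_num
  have hs2 : ∀ s ∈ ({-2} : Finset ℤ), s ≠ 0 := by
    intro s hs; rw [mem_singleton] at hs; rw [hs]; norm_num
  obtain ⟨Pe, he⟩ := hEQ {2} 2 (1 / 100) (by norm_num) (by norm_num) hs1
  obtain ⟨Pt, ht⟩ := hTK {-2} (1 / 100) (by norm_num) hs2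
  set Q : ℕ := Pe + Pt + 8 with hQ
  set M : ℕ := M0 * Q.factorial with hM
  have hM1 : 1 ≤ M := Nat.mul_pos hM0 (Nat.factorial_pos Q)
  have hMp : ∀ p : ℕ, p.Prime → ¬ p ∣ M → Q < p := by
    intro p hp hpM
    by_contra hle
    push Not at hle
    exact hpM (((Nat.Prime.dvd_factorial hp).2 hle).mul_left M0)
  have h2M : 2 ∣ M := ((Nat.Prime.dvd_factorial Nat.prime_two).2 (by omega)).mul_left M0
  have hno2 : ∀ p : ℕ, p.Prime → ¬ p ∣ M → ¬ (p : ℤ) ∣ 2 := by
    intro p hp hpM hd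
    have h1 : p ∣ 2 := by exact_mod_cast hd
    have := Nat.le_of_dvd (by norm_num) h1
    have := hMp p hp hpM
    omega
  have hgood1 : ∀ P : ℕ, P ≤ Q → Good {2} P M := by
    intro P hP
    refine ⟨hM1, fun p hp hpM => ⟨lt_of_le_of_lt hP (hMp p hp hpM), ?_, ?_⟩⟩
    · intro s hs; rw [mem_singleton] at hs; rw [hs]; exact hno2 p hp hpM
    · intro s hs s' hs' hne; rw [mem_singleton] at hs hs'; exact absurd (hs.trans hs'.symm) hne
  have hgood2 : ∀ P : ℕ, P ≤ Q → Good {-2} P M := by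
    intro P hP
    refine ⟨hM1, fun p hp hpM => ⟨lt_of_le_of_lt hP (hMp p hp hpM), ?_, ?_⟩⟩
    · intro s hs; rw [mem_singleton] at hs; rw [hs, Int.dvd_neg]; exact hno2 p hp hpM
    · intro s hs s' hs' hne; rw [mem_singleton] at hs hs'; exact absurd (hs.trans hs'.symm) hne
  obtain ⟨Be, ze, he2⟩ := he M (hgood1 Pe (by omega))
  obtain ⟨Kt, zt, ht2⟩ := ht M (hgood2 Pt (by omega))
  obtain ⟨K1, z1, hz12, hc1⟩ := Pool.Agent.Lib.MP_3efbeb_nt.DL.Base.c1 hC1 {2} (1 / 100) (by norm_num)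
  obtain ⟨A, J0, hA⟩ := hLAM M 300 hM1
  have h4 : ∀ p : ℕ, p.Prime → ¬ p ∣ M → 2 * 2 ≤ p := fun p hp hpM => by
    have := hMp p hp hpM
    omega
  obtain ⟨zv, hv⟩ := hVLP 2 M 1 hM1 h4
  have hMR : (0 : ℝ) < M := by exact_mod_cast hM1
  refine ⟨M, A, Be + Kt + K1 + 16 * A + 10, ze + zt + z1 + 2 ^ J0 + zv + (3 * M) ^ 4 + M + 1000,
    Dvd.intro _ rfl, hM1, by omega, fun z hz => ?_⟩
  have h2J0 : 0 < 2 ^ J0 := Nat.pow_pos (by norm_num)
  have hz2 : 2 ≤ z := by omega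
  have hz1n : 1 ≤ z := by omega
  have hz0 : (0 : ℝ) < z := by exact_mod_cast (by omega : 0 < z)
  have hz1' : (1 : ℝ) ≤ z := by exact_mod_cast hz1n
  have hz1000 : (1000 : ℝ) ≤ z := by exact_mod_cast (by omega : 1000 ≤ z)
  have hzM : (M : ℝ) ≤ z := by exact_mod_cast (by omega : M ≤ z)
  obtain ⟨hsc1, hsc2⟩ := Pool.Agent.Lib.MP_3efbeb_nt.DL.CLO.scale (8 * A) z hz2
  obtain ⟨_, hsc3⟩ := Pool.Agent.Lib.MP_3efbeb_nt.DL.CLO.scale A z hz2
  set J1 := Nat.clog 2 z with hJ1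
  set J2 := A * J1 with hJ2
  have hJ01 : J0 ≤ J1 := by
    have h1 : 2 ^ J0 ≤ 2 ^ J1 := by omega
    exact (Nat.pow_le_pow_iff_right (by norm_num)).1 h1
  set Λ := Lam (QQ M J1 J2) with hΛ
  have hΛ300 : 300 ≤ Λ := hA J1 hJ01
  have hΛ0 : 0 < Λ := by linarith
  set C : ℕ := Be + Kt + K1 + 16 * A + 10 with hC
  set X : ℕ := z ^ C with hX
  have hXbig : ∀ k : ℕ, k ≤ C → z ^ k ≤ X := fun k hk => Nat.pow_le_pow_right hz1n hk
  set V := VV 2 M z with hVd
  have hV : 0 < V := Pool.Agent.Lib.MP_3efbeb_nt.DL.Base.VV_pos h4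
  have hV4 : (z : ℝ) ^ (-(1 : ℝ) / 4) ≤ V := by
    have := hv z (by omega)
    rwa [pow_one] at this
  set N : ℝ := (X : ℝ) / M * V with hN
  have hN0 : 0 ≤ N := by positivity
  have hzV : 1 ≤ (z : ℝ) * V := by
    have h2 : (z : ℝ) ^ (-1 : ℝ) ≤ (z : ℝ) ^ (-(1 : ℝ) / 4) :=
      Real.rpow_le_rpow_of_exponent_le hz1' (by norm_num)
    rw [Real.rpow_neg_one] at h2
    calc (1 : ℝ) = z * (z : ℝ)⁻¹ := by field_simp
      _ ≤ z * V := mul_le_mul_of_nonneg_left (h2.trans hV4) hz0.le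
  have hNbig : (z : ℝ) ^ (K1 + 1) ≤ N := by
    have h2 : (z : ℝ) ^ (K1 + 3) ≤ X := by exact_mod_cast hXbig (K1 + 3) (by omega)
    rw [hN, div_mul_eq_mul_div, le_div_iff₀ hMR]
    calc (z : ℝ) ^ (K1 + 1) * M ≤ z ^ (K1 + 1) * z := by gcongr
      _ = z ^ (K1 + 1) * z * 1 := by ring
      _ ≤ z ^ (K1 + 1) * z * (z * V) := by gcongr
      _ = (z : ℝ) ^ (K1 + 3) * V := by ring
      _ ≤ X * V := by gcongr
  have hzK : 1000 * (z : ℝ) ^ K1 ≤ N := by
    refine le_trans ?_ hNbig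
    rw [pow_succ, mul_comm]
    gcongr
  have hX1000 : (1000 : ℝ) ≤ X := by
    have : z ^ 1 ≤ X := hXbig 1 (by omega)
    rw [pow_one] at this
    have h : (z : ℝ) ≤ X := by exact_mod_cast this
    linarith
  have hX0 : (0 : ℝ) < X := by linarith
  -- the set
  set W := W1 M (M - 1) z {2} 1 X with hW
  set gq : ℕ → Prop := fun t => ∃ q ∈ QQ M J1 J2, q ∣ t + 2 with hgq
  set T := W.filter (fun t : ℕ => lz (t : ℤ) = -1 ∧ gq t) with hT
  have hWmem : ∀ t, t ∈ W ↔ (1 ≤ t ∧ t ≤ X) ∧ t % M = (M - 1) % M ∧ Rgh M z t ∧ Rgh M z ((t : ℤ) + 2) := by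
    intro t
    rw [hW]
    unfold W1
    rw [mem_filter, mem_Icc]
    unfold cq
    simp only [mem_singleton, forall_eq, Nat.cast_one, one_mul]
  have hmod : ∀ t, t % M = (M - 1) % M → (t + 1) % M = 0 := by
    intro t h
    have h1 : t + 1 ≡ M - 1 + 1 [MOD M] := Nat.ModEq.add_right 1 h
    rw [Nat.sub_add_cancel hM1] at h1
    have h2 : (t + 1) % M = M % M := h1
    rw [h2, Nat.mod_self]
  refine ⟨T, ?_, ?_⟩
  · intro t htT
    rw [hT, mem_filter, hWmem] at htT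
    obtain ⟨⟨⟨h1, h2⟩, h3, h4', h5⟩, h6, q, hq, hqt⟩ := htT
    have h7 := hmod t h3
    have hMt : M ∣ t + 1 := Nat.dvd_of_mod_eq_zero h7
    refine ⟨h1, h2, h7, ?_, ?_, h6, q, ?_⟩
    · intro p hp hpz hpt
      by_cases hpM : p ∣ M
      · have h8 : p ∣ t := by exact_mod_cast hpt
        have h9 : p ∣ 1 := (Nat.dvd_add_right h8).1 (hpM.trans hMt)
        exact hp.one_lt.ne' (Nat.dvd_one.1 h9)
      · exact h4' p hp hpz hpM hpt
    · intro p hp hpz hpt
      by_cases hpM : p ∣ M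
      · have h8 : p ∣ t + 1 + 1 := by exact_mod_cast hpt
        have h9 : p ∣ 1 := (Nat.dvd_add_right (hpM.trans hMt)).1 h8
        exact hp.one_lt.ne' (Nat.dvd_one.1 h9)
      · refine h5 p hp hpz hpM ?_
        push_cast at hpt
        exact hpt
    · obtain ⟨a1, a2, a3, a4⟩ := Pool.Agent.Lib.MP_3efbeb_nt.DL.Base.mem_QQ hq
      exact ⟨a1, by omega, a4.trans hsc3, a2, hqt⟩
  · -- the count
    have hcard : |(W.card : ℝ) - N| ≤ 1 / 100 * N + (z : ℝ) ^ K1 := by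
      have := hc1 M (M - 1) z 1 X (hgood1 4 (by omega)) (by omega)
        (by exact_mod_cast Pool.Agent.Lib.MP_3efbeb_nt.DL.Base.rgh_one M z)
      simpa using this
    -- the sign
    set g : ℕ → ℕ → ℝ := ga 2 with hg
    have hEQ' : |NN M (M - 1) z {2} (g 0) X - NN M (M - 1) z {2} (g 1) X| ≤ 1 / 100 * N := by
      obtain ⟨_, h2, _⟩ := he2 z (by omega) X (M - 1) g (hXbig Be (by omega))
        (Pool.Agent.Lib.MP_3efbeb_nt.DL.ONEM.ga_mem 2)
        (fun a n => by rw [hg]; unfold ga; rw [Nat.add_mod_right])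
        (fun q hq _ _ a n hn => Pool.Agent.Lib.MP_3efbeb_nt.DL.ONEM.ga_mul 2 a hq hn)
      have h3 := h2 0 1
      refine h3.trans (le_of_eq ?_)
      rw [hN, card_singleton]; ring
    have hsum : NN M (M - 1) z {2} (g 0) X + NN M (M - 1) z {2} (g 1) X = W.card := by
      unfold NN
      rw [← sum_add_distrib, ← hW]
      have : ∀ n ∈ W, g 0 n + g 1 n = 1 := by
        intro n _
        have := Pool.Agent.Lib.MP_3efbeb_nt.DL.ONEM.ga_sum (m := 2) (by norm_num) n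
        rwa [sum_range_succ, sum_range_one] at this
      rw [sum_congr rfl this, sum_const, nsmul_eq_mul, mul_one]
    have hodd : NN M (M - 1) z {2} (g 1) X = ((W.filter (fun t : ℕ => lz (t : ℤ) = -1)).card : ℝ) := by
      unfold NN
      rw [← hW, card_filter]
      push_cast
      refine sum_congr rfl fun t _ => ?_
      rw [hg]
      unfold ga
      simp only [lz_eq_neg_iff]
    -- no prime factor q
    have hbad : ((W.filter (fun t => ¬ gq t)).card : ℝ) ≤ 3 / 100 * N := by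
      have hTK2 := ht2 z (by omega) J1 J2 hsc1 (X + 2) 1 (by
        have h1 : 2 ^ (8 * J2) ≤ z ^ (16 * A) := by
          have e : 8 * J2 = 8 * A * J1 := by rw [hJ2]; ring
          rw [e]
          refine hsc2.trans (le_of_eq ?_)
          congr 1; ring
        calc 2 ^ (8 * J2) * z ^ Kt ≤ z ^ (16 * A) * z ^ Kt := Nat.mul_le_mul_right _ h1
          _ = z ^ (16 * A + Kt) := (pow_add _ _ _).symm
          _ ≤ X := hXbig _ (by omega)
          _ ≤ X + 2 := by omega) (by linarith)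
      rw [card_singleton] at hTK2
      set W' := W1 M 1 z {-2} 1 (X + 2) with hW'
      have h1 : (W.filter (fun t => ¬ gq t)).card ≤ (W'.filter (fun n => ∀ q ∈ QQ M J1 J2, ¬ q ∣ n)).card := by
        refine card_le_card_of_injOn (fun t => t + 2) ?_ (fun a _ b _ hab => Nat.add_right_cancel hab)
        intro t ht
        rw [mem_coe, mem_filter, hWmem] at ht
        obtain ⟨⟨⟨b1, b2⟩, b3, b4, b5⟩, b6⟩ := ht
        rw [mem_coe, mem_filter]
        refine ⟨?_, ?_⟩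
        · rw [hW']
          unfold W1
          rw [mem_filter, mem_Icc]
          unfold cq
          simp only [mem_singleton, forall_eq, Nat.cast_one, one_mul]
          refine ⟨⟨by omega, by omega⟩, ?_, ?_, ?_⟩
          · have h7 := hmod t b3
            have h8 : t + 1 ≡ 0 [MOD M] := by
              unfold Nat.ModEq
              rw [h7, Nat.zero_mod]
            have h9 := h8.add_right 1
            exact h9
          · push_cast
            exact b5
          · have e : (((t + 2 : ℕ) : ℤ) + -2) = t := by push_cast; ring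
            rw [e]
            exact b4
        · intro q hq hqd
          exact b6 ⟨q, hq, hqd⟩
      have h2 : ((W'.filter (fun n => ∀ q ∈ QQ M J1 J2, ¬ q ∣ n)).card : ℝ) * Λ ^ 2 ≤
          ∑ m ∈ W', ((((QQ M J1 J2).filter (fun q => q ∣ m)).card : ℝ) - Λ) ^ 2 := by
        rw [← nsmul_eq_mul, ← sum_const]
        calc ∑ _n ∈ W'.filter (fun n => ∀ q ∈ QQ M J1 J2, ¬ q ∣ n), Λ ^ 2
            = ∑ m ∈ W'.filter (fun n => ∀ q ∈ QQ M J1 J2, ¬ q ∣ n),
              ((((QQ M J1 J2).filter (fun q => q ∣ m)).card : ℝ) - Λ) ^ 2 := by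
              refine sum_congr rfl fun m hm => ?_
              rw [mem_filter] at hm
              rw [filter_eq_empty_iff.2 (fun q hq => hm.2 q hq), card_empty]
              push_cast
              ring
          _ ≤ _ := sum_le_sum_of_subset_of_nonneg (filter_subset _ _) (fun _ _ _ => sq_nonneg _)
      have h3 : ((W'.filter (fun n => ∀ q ∈ QQ M J1 J2, ¬ q ∣ n)).card : ℝ) * Λ ^ 2 ≤
          (1 / 100 * Λ ^ 2 + 3 * Λ) * (((X + 2 : ℕ) : ℝ) / M) * VV (1 + 1) M z := h2.trans hTK2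
      have h5 : (1 / 100 * Λ ^ 2 + 3 * Λ) ≤ 2 / 100 * Λ ^ 2 := by nlinarith
      have h6 : (((X + 2 : ℕ) : ℝ) / M) * VV (1 + 1) M z ≤ 3 / 2 * N := by
        have e : VV (1 + 1) M z = V := rfl
        rw [e, hN]
        have h7 : ((X + 2 : ℕ) : ℝ) ≤ 3 / 2 * X := by push_cast; linarith
        have h8 : ((X + 2 : ℕ) : ℝ) / M ≤ 3 / 2 * X / M := by gcongr
        calc ((X + 2 : ℕ) : ℝ) / M * V ≤ 3 / 2 * X / M * V := mul_le_mul_of_nonneg_right h8 hV.le
          _ = _ := by ring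
      have h9 : 0 ≤ (((X + 2 : ℕ) : ℝ) / M) * VV (1 + 1) M z := by
        have e : VV (1 + 1) M z = V := rfl
        rw [e]
        positivity
      have h10 : ((W'.filter (fun n => ∀ q ∈ QQ M J1 J2, ¬ q ∣ n)).card : ℝ) * Λ ^ 2 ≤ (3 / 100 * N) * Λ ^ 2 := by
        calc _ ≤ (1 / 100 * Λ ^ 2 + 3 * Λ) * ((((X + 2 : ℕ) : ℝ) / M) * VV (1 + 1) M z) := by
              rw [← mul_assoc]; exact h3
          _ ≤ (2 / 100 * Λ ^ 2) * (3 / 2 * N) := by
              apply mul_le_mul h5 h6 h9 (by positivity)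
          _ = _ := by ring
      have h11 := le_of_mul_le_mul_right h10 (by positivity)
      have h12 : ((W.filter (fun t => ¬ gq t)).card : ℝ) ≤
          ((W'.filter (fun n => ∀ q ∈ QQ M J1 J2, ¬ q ∣ n)).card : ℝ) := by exact_mod_cast h1
      linarith
    -- combine
    have hTcard : 4 / 10 * N ≤ (T.card : ℝ) := by
      have h1 : (W.filter (fun t : ℕ => lz (t : ℤ) = -1)).card ≤ T.card + (W.filter (fun t => ¬ gq t)).card := by
        rw [← card_union_add_card_inter]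
        refine le_trans (card_le_card ?_) (Nat.le_add_right _ _)
        intro t ht
        rw [mem_filter] at ht
        rw [mem_union, hT, mem_filter, mem_filter]
        by_cases h : gq t
        · exact Or.inl ⟨ht.1, ht.2, h⟩
        · exact Or.inr ⟨ht.1, h⟩
      have h2 : ((W.filter (fun t : ℕ => lz (t : ℤ) = -1)).card : ℝ) ≤ T.card + ((W.filter (fun t => ¬ gq t)).card : ℝ) := by
        exact_mod_cast h1
      rw [← hodd] at h2
      have h3 := (abs_le.1 hcard).1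
      have h4' := (abs_le.1 hEQ').2
      have h5 : (z : ℝ) ^ K1 ≤ N / 1000 := by linarith
      linarith
    -- the size
    have h1 : 3 * (M : ℝ) ≤ √z * V := by
      have h2 : (z : ℝ) ^ ((1 : ℝ) / 4) ≤ √z * V := by
        calc (z : ℝ) ^ ((1 : ℝ) / 4) = (z : ℝ) ^ ((1 : ℝ) / 2) * (z : ℝ) ^ (-(1 : ℝ) / 4) := by
              rw [← Real.rpow_add hz0]; norm_num
          _ ≤ √z * V := by
              rw [← Real.sqrt_eq_rpow]
              exact mul_le_mul_of_nonneg_left hV4 (Real.sqrt_nonneg _)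
      have h3 : 3 * (M : ℝ) ≤ (z : ℝ) ^ ((1 : ℝ) / 4) := by
        have h5 : ((3 * M : ℝ)) ^ (4 : ℕ) ≤ z := by exact_mod_cast (by omega : (3 * M) ^ 4 ≤ z)
        calc 3 * (M : ℝ) = ((3 * (M : ℝ)) ^ (4 : ℕ)) ^ ((1 : ℝ) / 4) := by
              rw [← Real.rpow_natCast, ← Real.rpow_mul (by positivity)]
              norm_num
          _ ≤ (z : ℝ) ^ ((1 : ℝ) / 4) := Real.rpow_le_rpow (by positivity) h5 (by norm_num)
      exact h3.trans h2
    calc ((X : ℕ) : ℝ) = 1 * X := (one_mul _).symm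
      _ ≤ (4 / 10 * (√z * V) / M) * X := by
          refine mul_le_mul_of_nonneg_right ?_ hX0.le
          rw [le_div_iff₀ hMR]
          linarith
      _ = √z * (4 / 10 * N) := by
          rw [hN]
          ring
      _ ≤ √z * T.card := mul_le_mul_of_nonneg_left hTcard (Real.sqrt_nonneg _)

lemma lz_mul {a b : ℕ} (ha : a ≠ 0) (hb : b ≠ 0) : lz ((a * b : ℕ) : ℤ) = lz a * lz b := by
  rw [lz_natCast, lz_natCast, lz_natCast, (Nat.perm_primeFactorsList_mul ha hb).length_eq, List.length_append, pow_add]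

lemma lz_prime {q : ℕ} (hq : q.Prime) : lz (q : ℤ) = -1 := by
  rw [lz_natCast, Nat.primeFactorsList_prime hq]
  norm_num

end SELM

open SELM in
/-- SEL. -/
theorem specSEL (hC1 : SpecC1) (hTK : SpecTK) (hEQ : SpecEQ) (hLAM : SpecLAM) (hVLP : SpecVLP) : SpecSEL := by
  intro M0 hM0
  obtain ⟨M, A, C, z1, hMM, hM1, hAC, hmany⟩ := many hC1 hTK hEQ hLAM hVLP M0 hM0
  refine ⟨C, z1 + (5 * C * (2 + 8 * A) + 1) ^ 4 + 3, fun z hz => ?_⟩
  obtain ⟨T, hT, hcard⟩ := hmany z (by omega)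
  have hz3 : 3 ≤ z := by omega
  have hz0 : (0 : ℝ) < z := by exact_mod_cast (by omega : 0 < z)
  have hz1' : (1 : ℝ) ≤ z := by exact_mod_cast (by omega : 1 ≤ z)
  -- the function `g`
  have hq : ∀ t ∈ T, ∃ q : ℕ, q.Prime ∧ z < q ∧ q ≤ z ^ (2 * A) ∧ q % M = 1 % M ∧ q ∣ t + 2 :=
    fun t ht => (hT t ht).2.2.2.2.2.2
  choose! qq hqq using hq
  set gg : ℕ → ℕ := fun t => if lz ((t + 2 : ℕ) : ℤ) = -1 then 1 else qq t with hgg
  have hN1 : 1 ≤ z ^ (2 * A) := Nat.one_le_pow _ _ (by omega)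
  have hggT : ∀ t ∈ T, (gg t = 1 ∧ lz ((t + 2 : ℕ) : ℤ) = -1) ∨ (gg t = qq t ∧ lz ((t + 2 : ℕ) : ℤ) = 1) := by
    intro t _
    rw [hgg]
    by_cases h : lz ((t + 2 : ℕ) : ℤ) = -1
    · exact Or.inl ⟨by simp only [if_pos h], h⟩
    · refine Or.inr ⟨by simp only [if_neg h], ?_⟩
      rcases lz_eq_or ((t + 2 : ℕ) : ℤ) with h1 | h1
      · exact h1
      · exact absurd h1 h
  obtain ⟨g, t, ht, hcop⟩ := pick (X := z ^ C) (N := z ^ (2 * A)) hz3 rfl T gg (by
    intro t ht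
    obtain ⟨h1, h2, h3, h4, h5, h6, _⟩ := hT t ht
    obtain ⟨q1, q2, q3, q4, q5⟩ := hqq t ht
    have ht2 : 2 ≤ t := by
      by_contra hlt
      have e : t = 1 := by omega
      rw [e, lz_natCast, Nat.primeFactorsList_one] at h6
      norm_num at h6
    refine ⟨ht2, h2, h4, ?_⟩
    rcases hggT t ht with ⟨a, _⟩ | ⟨a, _⟩
    · rw [a]
      exact ⟨le_rfl, hN1, one_dvd _, Or.inl rfl⟩
    · rw [a]
      exact ⟨q1.pos, q3, q5, Or.inr q1⟩) (by
    -- the inequality
    have hX : ((z ^ C : ℕ) : ℝ) / √z ≤ T.card := by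
      rw [div_le_iff₀ (Real.sqrt_pos.2 hz0), mul_comm]
      exact hcard
    refine lt_of_lt_of_le ?_ hX
    set w : ℝ := (z : ℝ) ^ ((1 : ℝ) / 4) with hw
    have hw0 : 0 < w := Real.rpow_pos_of_pos hz0 _
    have hw4 : w ^ 4 = z := by
      rw [hw, ← Real.rpow_natCast, ← Real.rpow_mul hz0.le]
      norm_num
    have hw2 : √z = w ^ 2 := by
      rw [← hw4, show w ^ 4 = (w ^ 2) ^ 2 by ring]
      exact Real.sqrt_sq (by positivity)
    have hwbig : (5 * C * (2 + 8 * A) + 1 : ℝ) ≤ w := by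
      have h5 : ((5 * C * (2 + 8 * A) + 1 : ℝ)) ^ (4 : ℕ) ≤ z := by
        exact_mod_cast (by omega : (5 * C * (2 + 8 * A) + 1) ^ 4 ≤ z)
      calc (5 * C * (2 + 8 * A) + 1 : ℝ) = ((5 * C * (2 + 8 * A) + 1 : ℝ) ^ (4 : ℕ)) ^ ((1 : ℝ) / 4) := by
            rw [← Real.rpow_natCast, ← Real.rpow_mul (by positivity)]
            norm_num
        _ ≤ w := Real.rpow_le_rpow (by positivity) h5 (by norm_num)
    have hw1 : 1 ≤ w := by
      have : (0 : ℝ) ≤ 5 * C * (2 + 8 * A) := by positivity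
      linarith
    have hlog : Real.log ((z ^ (2 * A) : ℕ) : ℝ) ≤ 8 * A * w := by
      push_cast
      rw [Real.log_pow]
      have h1 : Real.log z = 4 * Real.log w := by
        rw [← hw4, Real.log_pow]
        norm_num
      have h2 : Real.log w ≤ w := (Real.log_le_sub_one_of_pos hw0).trans (by linarith)
      rw [h1]
      push_cast
      nlinarith [h2, (Nat.cast_nonneg A : (0 : ℝ) ≤ A)]
    set Y : ℝ := ((z ^ C : ℕ) : ℝ) / z with hY
    have hY0 : 0 < Y := by rw [hY]; push_cast; positivity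
    have hNY : ((z ^ (2 * A) : ℕ) : ℝ) ≤ Y := by
      rw [hY, le_div_iff₀ hz0]
      have : z ^ (2 * A) * z ≤ z ^ C := by
        rw [← pow_succ]
        exact Nat.pow_le_pow_right (by omega) (by omega)
      exact_mod_cast this
    have hYs : ((z ^ C : ℕ) : ℝ) / √z = Y * w ^ 2 := by
      rw [hY, hw2]
      have : (z : ℝ) = w ^ 4 := hw4.symm
      rw [this]
      field_simp
    rw [hYs]
    have h1 : Y * (1 + Real.log ((z ^ (2 * A) : ℕ) : ℝ)) + ((z ^ (2 * A) : ℕ) : ℝ) ≤ Y * ((2 + 8 * A) * w) := by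
      have h2 : Y * (1 + Real.log ((z ^ (2 * A) : ℕ) : ℝ)) ≤ Y * (1 + 8 * A * w) :=
        mul_le_mul_of_nonneg_left (by linarith) hY0.le
      have h3 : Y * (1 + 8 * A * w) + Y ≤ Y * ((2 + 8 * A) * w) := by nlinarith
      linarith
    have hC0 : (0 : ℝ) ≤ C := Nat.cast_nonneg _
    calc 5 * (C * (Y * (1 + Real.log ((z ^ (2 * A) : ℕ) : ℝ)) + ((z ^ (2 * A) : ℕ) : ℝ)))
        ≤ 5 * (C * (Y * ((2 + 8 * A) * w))) := by gcongr
      _ = Y * (5 * C * (2 + 8 * A)) * w := by ring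
      _ < Y * w * w := by
          refine mul_lt_mul_of_pos_right (mul_lt_mul_of_pos_left ?_ hY0) hw0
          linarith
      _ = Y * w ^ 2 := by ring)
  -- conclusion
  have hgdvd : ∀ i, g ∣ t i + 2 := by
    intro i
    obtain ⟨hi, hgi⟩ := ht i
    rcases hggT (t i) hi with ⟨a, _⟩ | ⟨a, _⟩
    · rw [← hgi, a]; exact one_dvd _
    · rw [← hgi, a]; exact (hqq (t i) hi).2.2.2.2
  obtain ⟨hi0, hgi0⟩ := ht 0
  have hg1 : 1 ≤ g := by
    rcases hggT (t 0) hi0 with ⟨a, _⟩ | ⟨a, _⟩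
    · rw [← hgi0, a]
    · rw [← hgi0, a]; exact (hqq (t 0) hi0).1.pos
  refine ⟨g, fun i => (t i + 2) / g, t, hg1, ?_, ?_, ?_, hcop⟩
  · rcases hggT (t 0) hi0 with ⟨a, _⟩ | ⟨a, _⟩
    · rw [← hgi0, a]
    · rw [← hgi0, a]
      have h1 : qq (t 0) ≡ 1 [MOD M] := (hqq (t 0) hi0).2.2.2.1
      exact h1.of_dvd hMM
  · intro p hp hpz hpd
    rcases hggT (t 0) hi0 with ⟨a, _⟩ | ⟨a, _⟩
    · rw [← hgi0, a] at hpd
      have h1 : p ∣ 1 := by exact_mod_cast hpd
      exact hp.one_lt.ne' (Nat.dvd_one.1 h1)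
    · rw [← hgi0, a] at hpd
      have h1 : p ∣ qq (t 0) := by exact_mod_cast hpd
      obtain ⟨b1, b2, _⟩ := hqq (t 0) hi0
      have := (Nat.prime_dvd_prime_iff_eq hp b1).1 h1
      omega
  · intro i
    obtain ⟨hi, hgi⟩ := ht i
    obtain ⟨h1, h2, h3, h4, h5, h6, _⟩ := hT (t i) hi
    have hsg : (t i + 2) / g * g = t i + 2 := Nat.div_mul_cancel (hgdvd i)
    refine ⟨⟨hsg, h1, ?_, h4, ?_, h6, ?_⟩, h2⟩
    · exact Nat.mod_eq_zero_of_dvd (hMM.trans (Nat.dvd_of_mod_eq_zero h3))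
    · intro p hp hpz hpd
      refine h5 p hp hpz (hpd.trans ?_)
      exact_mod_cast (Dvd.intro _ hsg : (t i + 2) / g ∣ t i + 2)
    · rcases hggT (t i) hi with ⟨a, b⟩ | ⟨a, b⟩
      · have hg : g = 1 := hgi.symm.trans a
        change lz (((t i + 2) / g : ℕ) : ℤ) = -1
        rw [hg, Nat.div_one]
        exact b
      · change lz (((t i + 2) / g : ℕ) : ℤ) = -1
        have hgp : g.Prime := by
          rw [← hgi, a]
          exact (hqq (t i) hi).1
        have hs0 : (t i + 2) / g ≠ 0 := by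
          intro h
          rw [h, zero_mul] at hsg
          omega
        have e := lz_mul hs0 hgp.ne_zero
        rw [hsg, b, lz_prime hgp] at e
        linarith

end

end Pool.Agent.Lib.MP_3efbeb_nt.PR
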