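import Pool.Agent.Lib.MP_3efbeb_nt.PR.ALT

/-!
# MP_3efbeb_nt, PR, module SIX: the identity of six numbers
-/

set_option autoImplicit false

namespace Pool.Agent.Lib.MP_3efbeb_nt.PR

open ALTM

theorem specSIX : SpecSIX := by
  intro P k m hP hk hm h1 h2 h3
  have hP' : (1 : ℤ) ≤ P + k := by linarith
  have i1 : 1 ≤ (P + k) * m := le_trans hm (le_mul_of_one_le_left (by linarith) hP')
  have i2 : 1 ≤ P * m := le_trans hm (le_mul_of_one_le_left (by linarith) hP)
  have i3 : 1 ≤ P * (P + k) * m := by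
    have : P * (P + k) * m = P * ((P + k) * m) := by ring
    rw [this]
    exact le_trans i1 (le_mul_of_one_le_left (by linarith) hP)
  have nP : P ≠ 0 := by positivity
  have nP' : P + k ≠ 0 := by positivity
  have nm : m ≠ 0 := by positivity
  have nb : (P + k) * m + 2 ≠ 0 := by linarith
  have nb' : P * m + 2 ≠ 0 := by linarith
  have na : P * (P + k) * m + 2 * k ≠ 0 := by linarith
  have nc : P * (P + k) * m + 2 * P + 4 * k ≠ 0 := by linarith
  have e1 : (P + k) ^ 2 * m * (P * m + 2) + 4 * k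
      = ((P + k) * m + 2) * (P * (P + k) * m + 2 * k) := by ring
  have e2 : P * m * (P * (P + k) * m + 2 * P + 4 * k) + 4 * k
      = (P * m + 2) * (P * (P + k) * m + 2 * k) := by ring
  have e3 : P * ((P + k) * m + 2) + 4 * k = P * (P + k) * m + 2 * P + 4 * k := by ring
  rw [e1, lz_mul (mul_ne_zero (pow_ne_zero 2 nP') nm) nb', lz_mul (pow_ne_zero 2 nP') nm,
    pow_two, lz_mul nP' nP', lz_mul nb na] at h1
  rw [e2, lz_mul (mul_ne_zero nP nm) nc, lz_mul nP nm, lz_mul nb' na] at h2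
  rw [e3, lz_mul nP nb] at h3
  have s1 := lz_sq P
  have s2 := lz_sq (P + k)
  have s3 := lz_sq m
  have s4 := lz_sq ((P + k) * m + 2)
  have s5 := lz_sq (P * m + 2)
  have s6 := lz_sq (P * (P + k) * m + 2 * k)
  have s7 := lz_sq (P * (P + k) * m + 2 * P + 4 * k)
  have key := congrArg₂ (· * ·) (congrArg₂ (· * ·) h1 h2) h3

  have : (lz P * lz P) * (lz (P + k) * lz (P + k)) * (lz m * lz m)
      * (lz ((P + k) * m + 2) * lz ((P + k) * m + 2)) * (lz (P * m + 2) * lz (P * m + 2))
      * (lz (P * (P + k) * m + 2 * k) * lz (P * (P + k) * m + 2 * k))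
      * (lz (P * (P + k) * m + 2 * P + 4 * k) * lz (P * (P + k) * m + 2 * P + 4 * k)) = -1 := by
    rw [show (-1 : ℤ) = -1 * -1 * -1 by norm_num, ← key]
    ring
  rw [s1, s2, s3, s4, s5, s6, s7] at this
  norm_num at this

end Pool.Agent.Lib.MP_3efbeb_nt.PR
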