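import Pool.Agent.Lib.MP_3efbeb_nt.PR.SVP
import Pool.Agent.Lib.MP_3efbeb_nt.PR.SEL
import Pool.Agent.Lib.MP_3efbeb_nt.PR.LOC
import Pool.Agent.Lib.MP_3efbeb_nt.PR.PSEL
import Pool.Agent.Lib.MP_3efbeb_nt.PR.ALT
import Pool.Agent.Lib.MP_3efbeb_nt.PR.SIX
import Pool.Agent.Lib.MP_3efbeb_nt.PR.CFG
import Pool.Agent.Lib.MP_3efbeb_nt.PR.MAIN
import Pool.Agent.Lib.MP_3efbeb_nt.PR.FIN
import Pool.Agent.Lib.MP_3efbeb_nt.DL.All3

/-!
# MP_3efbeb_nt, PR: the pair theorem (24 divides the difference)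
-/

set_option autoImplicit false

namespace Pool.Agent.Lib.MP_3efbeb_nt.PR

theorem all_sel : SpecSEL :=
  specSEL DL.all_c1 (DL.specTK DL.all_c1 DL.specVLP) DL.all_eq DL.specLAM DL.specVLP

theorem all_cfg : SpecCFG := specCFG all_sel specLOC (specPSEL specSVP) specALT specSIX

theorem main_fin : SpecFIN := specFIN (specMAIN all_cfg specSVP)

end Pool.Agent.Lib.MP_3efbeb_nt.PR
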