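import Pool.Agent.Lib.MP_3efbeb_nt.PR.CHN

/-!
# MP_3efbeb_nt, PR, module CFGA (helper24): one chain of the configuration
-/

set_option autoImplicit false

namespace Pool.Agent.Lib.MP_3efbeb_nt.PR

namespace CFGM

open CHNM

/-- what one chain gives: the eight smaller members `α j + β j w`, and the sign statement -/
def ChainOK (h M0 B z : ℕ) (W L0 T δ : ℤ) (α β : Fin 8 → ℤ) : Prop :=
  (∀ j, (B : ℤ) ≤ α j ∧ α j ≤ W ^ 8 ∧ 1 ≤ β j ∧ β j ≤ W ^ 8) ∧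
  (∀ p : ℕ, p.Prime → p < z → ¬ p ∣ M0 → ∀ j, ¬ (p : ℤ) ∣ β j) ∧
  (∀ p : ℕ, p.Prime → p ∣ M0 → ∀ j, ¬ (p : ℤ) ∣ α j ∧ ¬ (p : ℤ) ∣ α j + h) ∧
  ∀ (σ w : ℤ), σ = 1 ∨ σ = -1 → 0 ≤ w →
    (∀ j, ¬ (lz (α j + β j * w) = σ ∧ lz (α j + β j * w + h) = σ)) →
    lz (L0 + T * w) * lz (L0 + T * w + δ) = -1

lemma trip_s {M0 z g s t : ℕ} (hM : 1 ≤ M0) (hg : g % M0 = 1 % M0) (tr : Trip M0 z g s t) :
    (M0 : ℤ) ∣ (s : ℤ) - 1 ∧ (M0 : ℤ) ∣ (t : ℤ) + 1 ∧ (M0 : ℤ) ∣ (g : ℤ) - 1 ∧ 1 ≤ s ∧ 1 ≤ g ∧ s ≤ t + 2 ∧ g ≤ t + 2 := by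
  obtain ⟨h1, h2, h3, h4, h5, h6, h7⟩ := tr
  have hs : 1 ≤ s := by
    rcases Nat.eq_zero_or_pos s with h0 | h0
    · rw [h0, zero_mul] at h1; omega
    · exact h0
  have hg1 : 1 ≤ g := by
    rcases Nat.eq_zero_or_pos g with h0 | h0
    · rw [h0, mul_zero] at h1; omega
    · exact h0
  have hgm : (M0 : ℤ) ∣ (g : ℤ) - 1 := by
    have h8 : (g : ℤ) ≡ 1 [ZMOD (M0 : ℤ)] := by
      have h9 : g ≡ 1 [MOD M0] := hg
      exact_mod_cast (Int.natCast_modEq_iff.2 h9)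
    exact h8.symm.dvd
  have htm : (M0 : ℤ) ∣ (t : ℤ) + 1 := by
    have h8 : M0 ∣ t + 1 := Nat.dvd_of_mod_eq_zero h3
    exact_mod_cast h8
  refine ⟨?_, htm, hgm, hs, hg1, ?_, ?_⟩
  · have h8 : (s : ℤ) * g = t + 2 := by exact_mod_cast h1
    have h9 : (s : ℤ) - 1 = ((t : ℤ) + 1) - s * (g - 1) := by linear_combination h8
    rw [h9]
    exact dvd_sub htm (hgm.mul_left _)
  · calc s = s * 1 := (mul_one s).symm
      _ ≤ s * g := Nat.mul_le_mul_left s hg1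
      _ = t + 2 := h1
  · calc g = 1 * g := (one_mul g).symm
      _ ≤ s * g := Nat.mul_le_mul_right g hs
      _ = t + 2 := h1

lemma chain_ok (hALT : SpecALT) (h M0 B z g s t s' t' : ℕ) (W L0 T δ : ℤ) (hδ : δ = h ∨ δ = -(h : ℤ))
    (hM : 1 ≤ M0) (hg : g % M0 = 1 % M0) (tr : Trip M0 z g s t) (tr' : Trip M0 z g s' t')
    (hTt : (t : ℤ) ∣ T) (hTt' : (t' : ℤ) ∣ T) (hT1 : 1 ≤ T)
    (hTp : ∀ p : ℕ, p.Prime → p < z → ¬ p ∣ M0 → ¬ (p : ℤ) ∣ T)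
    (hW : 16 ≤ W) (hsW : (s : ℤ) ≤ W) (hsW' : (s' : ℤ) ≤ W) (htW : (t : ℤ) ≤ W) (htW' : (t' : ℤ) ≤ W)
    (hgW : (g : ℤ) ≤ W) (hhW : (h : ℤ) ≤ W) (hTW : T ≤ W) (hLW : L0 ≤ W ^ 6)
    (hL : ((B : ℤ) + 1 + ((t : ℤ) + t' + g + 4) * h) * ((t : ℤ) * t') ≤ L0)
    (d1 : (t : ℤ) ∣ s * L0 + δ) (d2 : (t' : ℤ) ∣ s' * (L0 + δ) + δ)
    (loc : ∀ p : ℕ, p.Prime → p ∣ M0 → ¬ (p : ℤ) ∣ L0 ∧ ¬ (p : ℤ) ∣ L0 + δ ∧ ¬ (p : ℤ) ∣ L0 + 2 * δ) :
    ∃ α β : Fin 8 → ℤ, ChainOK h M0 B z W L0 T δ α β := by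
  obtain ⟨sM, tM, gM, s1, g1, -, -⟩ := trip_s hM hg tr
  obtain ⟨sM', tM', -, s1', -, -, -⟩ := trip_s hM hg tr'
  obtain ⟨e0, t1, -, tz, sz, lt, ls⟩ := tr
  obtain ⟨e0', t1', -, tz', sz', lt', ls'⟩ := tr'
  have habs : |δ| = (h : ℤ) := by
    rcases hδ with rfl | rfl
    · exact abs_of_nonneg (by positivity)
    · rw [abs_neg]; exact abs_of_nonneg (by positivity)
  have cs1 : (1 : ℤ) ≤ s := by exact_mod_cast s1
  have cs1' : (1 : ℤ) ≤ s' := by exact_mod_cast s1'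
  have ct1 : (1 : ℤ) ≤ t := by exact_mod_cast t1
  have ct1' : (1 : ℤ) ≤ t' := by exact_mod_cast t1'
  have cg1 : (1 : ℤ) ≤ g := by exact_mod_cast g1
  have ht0 : (t : ℤ) ≠ 0 := by linarith
  have ht0' : (t' : ℤ) ≠ 0 := by linarith
  have hh0 : (0 : ℤ) ≤ h := by positivity
  have hB0 : (0 : ℤ) ≤ (B : ℤ) + 1 := by positivity
  have hge : ∀ j, (B : ℤ) + 1 + (h : ℤ) ≤ al δ g s t s' t' L0 j := by
    intro j
    have := al_ge (δ := δ) (L0 := L0) (B := (B : ℤ) + 1) hB0 cs1 cs1' ct1 ct1' cg1 (by rw [habs]; exact hL) j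
    rwa [habs] at this
  have hL0pos : 0 ≤ L0 := by
    refine le_trans ?_ hL
    positivity
  have hle : ∀ j, al δ g s t s' t' L0 j ≤ W ^ 8 := by
    intro j
    refine (al_le (δ := δ) cs1 cs1' ct1 ct1' cg1 hL0pos j).trans ?_
    rw [habs]
    have hW1 : 1 ≤ W := by linarith
    have hW6 : 0 ≤ W ^ 6 := by positivity
    have a1 : ((s : ℤ) + s') * L0 ≤ (2 * W) * W ^ 6 := mul_le_mul (by linarith) hLW hL0pos (by linarith)
    have a2 : ((s : ℤ) + s' + t + t' + g + 2) * h ≤ (6 * W) * W := mul_le_mul (by linarith) hhW hh0 (by linarith)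
    have a3 : W ^ 2 ≤ W ^ 7 := pow_le_pow_right₀ hW1 (by norm_num)
    have a4 : 8 * W ^ 7 ≤ W ^ 8 := by
      rw [pow_succ W 7, mul_comm]
      exact mul_le_mul_of_nonneg_left (by linarith) (by positivity)
    nlinarith
  have hbe := be_bounds (T := T) cs1 cs1' ct1 ct1' hT1 hTt hTt'
  have hbW : ∀ j, be s t s' t' T j ≤ W ^ 8 := by
    intro j
    refine ((hbe j).2).trans ?_
    have hW1 : 1 ≤ W := by linarith
    have a1 : ((s : ℤ) + s') * T ≤ (2 * W) * W := mul_le_mul (by linarith) hTW (by linarith) (by linarith)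
    have a3 : W ^ 3 ≤ W ^ 8 := pow_le_pow_right₀ hW1 (by norm_num)
    nlinarith [pow_pos (by linarith : 0 < W) 2]
  have hdv : ∀ p : ℕ, p.Prime → p < z → ¬ p ∣ M0 → ∀ j, ¬ (p : ℤ) ∣ be s t s' t' T j := by
    intro p hp hpz hpM j
    exact be_dvd (Nat.prime_iff_prime_int.1 hp) hTt hTt' (sz p hp hpz) (sz' p hp hpz) (hTp p hp hpz hpM) j
  have hmod : ∀ p : ℕ, p.Prime → p ∣ M0 → ∀ j, ¬ (p : ℤ) ∣ al δ g s t s' t' L0 j ∧
      ¬ (p : ℤ) ∣ al δ g s t s' t' L0 j + δ := by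
    intro p hp hpM j
    have hpM' : (p : ℤ) ∣ (M0 : ℤ) := by exact_mod_cast hpM
    obtain ⟨l1, l2, l3⟩ := loc p hp hpM
    exact al_mod ht0 ht0' (hpM'.trans tM) (hpM'.trans tM') (hpM'.trans sM) (hpM'.trans sM') (hpM'.trans gM)
      d1 d2 l1 l2 l3 j
  have cs : ∀ w : ℤ, 0 ≤ w → ∀ j, 0 ≤ be s t s' t' T j * w := fun w hw j =>
    mul_nonneg (by linarith [(hbe j).1]) hw
  have hsign : ∀ (σ w : ℤ), σ = 1 ∨ σ = -1 → 0 ≤ w →
      (∀ j, ¬ (lz (al δ g s t s' t' L0 j + be s t s' t' T j * w) = σ ∧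
        lz (al δ g s t s' t' L0 j + be s t s' t' T j * w + δ) = σ)) →
      lz (L0 + T * w) * lz (L0 + T * w + δ) = -1 := by
    intro σ w hσ hw hno
    have hc := chn_eq (g := (g : ℤ)) ht0 ht0' hTt hTt' d1 d2 w
    refine hALT δ g s t s' t' (L0 + T * w) _ _ σ hσ (by exact_mod_cast e0) (by exact_mod_cast e0') ls lt ls' lt'
      (by linarith) ht0 (by linarith) ht0' (eq1 ht0 hTt d1 w) (eq2 ht0' hTt' d2 w) ?_ ?_
    · intro j
      rw [hc j]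
      have h1 := hge j
      have h2 := cs w hw j
      have h3 : -(h : ℤ) ≤ δ := by rw [← habs]; exact neg_abs_le δ
      exact ⟨by intro h4; linarith, by intro h4; linarith⟩
    · intro j
      rw [hc j]
      exact hno j
  rcases hδ with rfl | rfl
  · refine ⟨al h g s t s' t' L0, be s t s' t' T, fun j => ⟨by linarith [hge j], hle j, (hbe j).1, hbW j⟩, hdv, hmod, hsign⟩
  · refine ⟨fun j => al (-(h : ℤ)) g s t s' t' L0 j + -(h : ℤ), be s t s' t' T,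
      fun j => ⟨by linarith [hge j], by linarith [hle j], (hbe j).1, hbW j⟩, hdv, ?_, ?_⟩
    · intro p hp hpM j
      obtain ⟨m1, m2⟩ := hmod p hp hpM j
      exact ⟨m2, by rw [neg_add_cancel_right]; exact m1⟩
    · intro σ w hσ hw hno
      refine hsign σ w hσ hw fun j hj => hno j ⟨?_, ?_⟩
      · rw [show al (-(h : ℤ)) g s t s' t' L0 j + -(h : ℤ) + be s t s' t' T j * w
          = al (-(h : ℤ)) g s t s' t' L0 j + be s t s' t' T j * w + -(h : ℤ) by ring]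
        exact hj.2
      · rw [show al (-(h : ℤ)) g s t s' t' L0 j + -(h : ℤ) + be s t s' t' T j * w + h
          = al (-(h : ℤ)) g s t s' t' L0 j + be s t s' t' T j * w by ring]
        exact hj.1

end CFGM

end Pool.Agent.Lib.MP_3efbeb_nt.PR
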