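import Pool.Agent.Lib.MP_3efbeb_nt.PR.Spec

/-!
# MP_3efbeb_nt, PR, module CRTM (helper15): the Chinese remainder parts of CFG
-/

set_option autoImplicit false

namespace Pool.Agent.Lib.MP_3efbeb_nt.PR

open Finset
open scoped Classical

namespace CRTMM

/-- classes modulo `M0` from classes modulo the primes of `M0` -/
lemma exists_class (M0 : ℕ) (r : ℕ → ℕ) : ∃ n : ℕ, ∀ p : ℕ, p.Prime → p ∣ M0 → M0 ≠ 0 → n ≡ r p [MOD p] := by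
  have hPp : ∀ p ∈ M0.primeFactors, p.Prime := fun p hp => Nat.prime_of_mem_primeFactors hp
  have hcop : Set.Pairwise (M0.primeFactors : Set ℕ) (Function.onFun Nat.Coprime id) := by
    intro p hp q hq hpq
    exact (Nat.coprime_primes (hPp p hp) (hPp q hq)).2 hpq
  obtain ⟨n0, hn0⟩ := Nat.chineseRemainderOfFinset r id M0.primeFactors (fun p hp => (hPp p hp).ne_zero) hcop
  exact ⟨n0, fun p hp hpM h0 => hn0 p (Nat.mem_primeFactors.2 ⟨hp, hpM, h0⟩)⟩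

/-- a natural number in the class of an integer -/
lemma exists_nat (p : ℕ) (hp : 1 ≤ p) (x : ℤ) : ∃ n : ℕ, (n : ℤ) ≡ x [ZMOD p] := by
  have hp0 : (p : ℤ) ≠ 0 := by exact_mod_cast (by omega : p ≠ 0)
  refine ⟨(x % p).toNat, ?_⟩
  rw [Int.toNat_of_nonneg (Int.emod_nonneg x hp0)]
  exact Int.mod_modEq x p

/-- LOC for all the primes of `M0` at the same time -/
lemma locM (hLOC : SpecLOC) (k : ℤ) (M0 : ℕ) (hM0 : 1 ≤ M0) (hk : 6 ∣ k) : ∃ PM mM : ℕ, ∀ p : ℕ, p.Prime → p ∣ M0 →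
    ∀ P m : ℤ, P ≡ PM [ZMOD p] → m ≡ mM [ZMOD p] → ∀ x ∈ ([P, P + k, m, (P + k) * m + 2, P * m + 2,
  P * (P + k) * m + 2 * k, P * (P + k) * m + 2 * P + 4 * k, (P + k) ^ 2 * m * (P * m + 2) + 8 * k,
  P * m * (P * (P + k) * m + 2 * P + 4 * k) + 8 * k, P * ((P + k) * m + 2) - 4 * k] : List ℤ), ¬ (p : ℤ) ∣ x := by
  have h1 : ∀ p : ℕ, ∃ a b : ℕ, p.Prime → ∀ x ∈ ([(a : ℤ), a + k, b, (a + k) * b + 2, a * b + 2,
      a * (a + k) * b + 2 * k, a * (a + k) * b + 2 * a + 4 * k, (a + k) ^ 2 * b * (a * b + 2) + 8 * k,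
      a * b * (a * (a + k) * b + 2 * a + 4 * k) + 8 * k, a * ((a + k) * b + 2) - 4 * k] : List ℤ), ¬ (p : ℤ) ∣ x := by
    intro p
    by_cases hp : p.Prime
    · obtain ⟨P, m, h⟩ := hLOC p k hp hk
      obtain ⟨a, ha⟩ := exists_nat p hp.one_lt.le P
      obtain ⟨b, hb⟩ := exists_nat p hp.one_lt.le m
      refine ⟨a, b, fun _ => ?_⟩
      have key : ∀ {x y : ℤ}, x ≡ y [ZMOD p] → ¬ (p : ℤ) ∣ y → ¬ (p : ℤ) ∣ x := by
        intro x y hxy hy hx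
        exact hy (hxy.dvd_iff.1 hx)
      have hc := Int.ModEq.refl (n := (p : ℤ))
      simp only [List.mem_cons, List.not_mem_nil, or_false, forall_eq_or_imp, forall_eq] at h ⊢
      obtain ⟨x1, x2, x3, x4, x5, x6, x7, x8, x9, x10⟩ := h
      have hak : (a : ℤ) + k ≡ P + k [ZMOD p] := ha.add_right k
      refine ⟨key ha x1, key hak x2, key hb x3, key ((hak.mul hb).add_right 2) x4, key ((ha.mul hb).add_right 2) x5,
        key (((ha.mul hak).mul hb).add_right _) x6, key ((((ha.mul hak).mul hb).add (ha.mul_left 2)).add_right _) x7,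
        key ((((hak.pow 2).mul hb).mul ((ha.mul hb).add_right 2)).add_right _) x8,
        key (((ha.mul hb).mul ((((ha.mul hak).mul hb).add (ha.mul_left 2)).add_right _)).add_right _) x9,
        key ((ha.mul ((hak.mul hb).add_right 2)).sub_right _) x10⟩
    · exact ⟨0, 0, fun h => absurd h hp⟩
  choose a b hab using h1
  obtain ⟨PM, hPM⟩ := exists_class M0 a
  obtain ⟨mM, hmM⟩ := exists_class M0 b
  refine ⟨PM, mM, fun p hp hpM P m hP hm => ?_⟩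
  have h := hab p hp
  have hP' : P ≡ a p [ZMOD p] := hP.trans ((Int.natCast_modEq_iff).2 (hPM p hp hpM (by omega)))
  have hm' : m ≡ b p [ZMOD p] := hm.trans ((Int.natCast_modEq_iff).2 (hmM p hp hpM (by omega)))
  have key : ∀ {x y : ℤ}, x ≡ y [ZMOD p] → ¬ (p : ℤ) ∣ y → ¬ (p : ℤ) ∣ x := by
    intro x y hxy hy hx
    exact hy (hxy.dvd_iff.1 hx)
  simp only [List.mem_cons, List.not_mem_nil, or_false, forall_eq_or_imp, forall_eq] at h ⊢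
  obtain ⟨x1, x2, x3, x4, x5, x6, x7, x8, x9, x10⟩ := h
  have hak : P + k ≡ a p + k [ZMOD p] := hP'.add_right k
  exact ⟨key hP' x1, key hak x2, key hm' x3, key ((hak.mul hm').add_right 2) x4, key ((hP'.mul hm').add_right 2) x5,
    key (((hP'.mul hak).mul hm').add_right _) x6, key ((((hP'.mul hak).mul hm').add (hP'.mul_left 2)).add_right _) x7,
    key ((((hak.pow 2).mul hm').mul ((hP'.mul hm').add_right 2)).add_right _) x8,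
    key (((hP'.mul hm').mul ((((hP'.mul hak).mul hm').add (hP'.mul_left 2)).add_right _)).add_right _) x9,
    key ((hP'.mul ((hak.mul hm').add_right 2)).sub_right _) x10⟩

/-- a linear congruence -/
lemma lin {n : ℕ} (hn : 1 ≤ n) {a b : ℤ} (h : IsCoprime a (n : ℤ)) : ∃ c : ℕ, (n : ℤ) ∣ a * c + b := by
  obtain ⟨u, v, huv⟩ := h
  obtain ⟨c, hc⟩ := exists_nat n hn (-(u * b))
  refine ⟨c, ?_⟩
  have h1 : (n : ℤ) ∣ (c : ℤ) - -(u * b) := hc.symm.dvd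
  obtain ⟨w, hw⟩ := h1
  refine ⟨a * w + b * v, ?_⟩
  have e : (c : ℤ) = n * w - u * b := by linarith
  rw [e]
  linear_combination -b * huv

/-- seven congruences -/
lemma crt7 (M0 mM B' : ℕ) (t c : Fin 6 → ℕ) (hM0 : 1 ≤ M0) (ht : ∀ i, 1 ≤ t i)
    (hcop : ∀ i j, i ≠ j → Nat.Coprime (t i) (t j)) (hM : ∀ i, Nat.Coprime (t i) M0) :
    ∃ m0 : ℕ, B' ≤ m0 ∧ m0 ≤ B' + M0 * (∏ i, t i) ∧ m0 ≡ mM [MOD M0] ∧ ∀ i, m0 ≡ c i [MOD t i] := by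
  obtain ⟨n0, hn0⟩ := Nat.chineseRemainderOfFinset c t univ (fun i _ => by have := ht i; omega)
    (fun i _ j _ hij => hcop i j hij)
  have hcopM : Nat.Coprime M0 (∏ i, t i) := Nat.Coprime.prod_right fun i _ => (hM i).symm
  set n1 := Nat.chineseRemainder hcopM mM n0 with hn1
  have hT0 : 1 ≤ ∏ i, t i := Nat.succ_le_of_lt (prod_pos fun i _ => ht i)
  set T := M0 * ∏ i, t i with hT
  have hT1 : 1 ≤ T := Nat.mul_pos hM0 hT0
  have hTB : B' ≤ T * B' := by nlinarith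
  set m0 := B' + ((n1 : ℕ) + T * B' - B') % T with hm0
  have hmod : m0 ≡ (n1 : ℕ) [MOD T] := by
    have h1 : ((n1 : ℕ) + T * B' - B') % T ≡ (n1 : ℕ) + T * B' - B' [MOD T] := Nat.mod_modEq _ _
    have h2 := h1.add_left B'
    have e : B' + ((n1 : ℕ) + T * B' - B') = (n1 : ℕ) + T * B' := by omega
    rw [e] at h2
    have h3 : (n1 : ℕ) + T * B' ≡ n1 [MOD T] := by
      have : T ∣ T * B' := Dvd.intro _ rfl
      exact ((Nat.modEq_iff_dvd' (Nat.le_add_right _ _)).2 (by rwa [Nat.add_sub_cancel_left])).symm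
    exact h2.trans h3
  refine ⟨m0, Nat.le_add_right _ _, ?_, ?_, fun i => ?_⟩
  · have := Nat.mod_lt ((n1 : ℕ) + T * B' - B') hT1
    omega
  · exact (hmod.of_dvd (Dvd.intro _ rfl)).trans n1.2.1
  · have hi : t i ∣ ∏ i, t i := dvd_prod_of_mem t (mem_univ i)
    exact (hmod.of_dvd (hi.mul_left M0)).trans ((n1.2.2.of_dvd hi).trans (hn0 i (mem_univ i)))

/-- helper24's form -/
theorem exists_m0 (M0 B : ℕ) (mM : ℤ) (m1 : Fin 6 → ℤ) (t : Fin 6 → ℕ) (hM : 1 ≤ M0) (ht : ∀ i, 1 ≤ t i)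
    (htM : ∀ i, Nat.Coprime (t i) M0) (htt : ∀ i j, i ≠ j → Nat.Coprime (t i) (t j)) :
    ∃ m0 : ℕ, B ≤ m0 ∧ m0 ≤ B + M0 * ∏ i, t i ∧ (M0 : ℤ) ∣ (m0 : ℤ) - mM ∧ ∀ i, (t i : ℤ) ∣ (m0 : ℤ) - m1 i := by
  obtain ⟨nM, hnM⟩ := exists_nat M0 hM mM
  have h1 : ∀ i, ∃ c : ℕ, (c : ℤ) ≡ m1 i [ZMOD (t i)] := fun i => exists_nat (t i) (ht i) (m1 i)
  choose c hc using h1
  obtain ⟨m0, a1, a2, a3, a4⟩ := crt7 M0 nM B t c hM ht htt htM
  exact ⟨m0, a1, a2, ((Int.natCast_modEq_iff.2 a3).trans hnM).symm.dvd,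
    fun i => ((Int.natCast_modEq_iff.2 (a4 i)).trans (hc i)).symm.dvd⟩

/-- LOC for `M0`, helper24's form -/
theorem exists_PM (hLOC : SpecLOC) (M0 : ℕ) (k : ℤ) (hM : 1 ≤ M0) (hk : 6 ∣ k) : ∃ PM mM : ℕ, ∀ p : ℕ, p.Prime →
    p ∣ M0 → ∀ P m : ℤ, (M0 : ℤ) ∣ P - PM → (M0 : ℤ) ∣ m - mM → ∀ x ∈ ([P, P + k, m, (P + k) * m + 2, P * m + 2,
  P * (P + k) * m + 2 * k, P * (P + k) * m + 2 * P + 4 * k, (P + k) ^ 2 * m * (P * m + 2) + 8 * k,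
  P * m * (P * (P + k) * m + 2 * P + 4 * k) + 8 * k, P * ((P + k) * m + 2) - 4 * k] : List ℤ), ¬ (p : ℤ) ∣ x := by
  obtain ⟨PM, mM, h⟩ := locM hLOC k M0 hM hk
  refine ⟨PM, mM, fun p hp hpM P m hP hm => h p hp hpM P m ?_ ?_⟩
  · exact (Int.modEq_of_dvd (((Int.natCast_dvd_natCast.2 hpM).trans hP))).symm
  · exact (Int.modEq_of_dvd (((Int.natCast_dvd_natCast.2 hpM).trans hm))).symm

/-- the choice of `m0`: `h = 4k`; all the congruences needed for the three chains -/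
lemma chains_m0 (k M0 P mM B' : ℕ) (s t : Fin 6 → ℕ) (hM0 : 1 ≤ M0) (ht : ∀ i, 1 ≤ t i)
    (hcop : ∀ i j, i ≠ j → Nat.Coprime (t i) (t j)) (hM : ∀ i, Nat.Coprime (t i) M0)
    (h2 : ∀ i, Nat.Coprime (t i) 2) (hk : ∀ i, Nat.Coprime (t i) k) (hk1 : ∀ i, Nat.Coprime (t i) (k + 1))
    (hs : ∀ i, Nat.Coprime (t i) (s i)) (hP0 : t 0 ∣ P) (hP1 : t 1 ∣ P) (hP2 : t 2 ∣ P + k) (hP3 : t 3 ∣ P + k)
    (hP4 : P ≡ 1 [MOD t 4]) (hP5 : P ≡ 1 [MOD t 5]) :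
    ∃ m0 : ℕ, B' ≤ m0 ∧ m0 ≤ B' + M0 * (∏ i, t i) ∧ m0 ≡ mM [MOD M0] ∧
      (t 0 : ℤ) ∣ s 0 * (((P : ℤ) + k) ^ 2 * m0 * (P * m0 + 2)) + 4 * k ∧
      (t 1 : ℤ) ∣ s 1 * (((P : ℤ) + k) ^ 2 * m0 * (P * m0 + 2) + 4 * k) + 4 * k ∧
      (t 2 : ℤ) ∣ s 2 * ((P : ℤ) * m0 * (P * (P + k) * m0 + 2 * P + 4 * k)) + 4 * k ∧
      (t 3 : ℤ) ∣ s 3 * ((P : ℤ) * m0 * (P * (P + k) * m0 + 2 * P + 4 * k) + 4 * k) + 4 * k ∧
      (t 4 : ℤ) ∣ s 4 * ((P : ℤ) * ((P + k) * m0 + 2) + 4 * k) - 4 * k ∧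
      (t 5 : ℤ) ∣ s 5 * ((P : ℤ) * ((P + k) * m0 + 2)) - 4 * k := by
  have hI : ∀ {a : ℕ} (i : Fin 6), Nat.Coprime (t i) a → IsCoprime (a : ℤ) (t i : ℤ) := fun i h =>
    (Nat.isCoprime_iff_coprime.2 h).symm
  have hs' := fun i => hI i (hs i)
  have hk' := fun i => hI i (hk i)
  have hk1' := fun i => hI i (hk1 i)
  have h2' := fun i => hI i (h2 i)
  obtain ⟨c0, hc0⟩ := lin (n := t 0) (ht 0) (a := s 0 * (2 * (k * k))) (b := 4 * k)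
    ((hs' 0).mul_left ((h2' 0).mul_left ((hk' 0).mul_left (hk' 0))))
  obtain ⟨c1, hc1⟩ := lin (n := t 1) (ht 1) (a := s 1 * (2 * (k * k))) (b := s 1 * (4 * k) + 4 * k)
    ((hs' 1).mul_left ((h2' 1).mul_left ((hk' 1).mul_left (hk' 1))))
  obtain ⟨c2, hc2⟩ := lin (n := t 2) (ht 2) (a := -(s 2 * (2 * (k * k)))) (b := 4 * k)
    (((hs' 2).mul_left ((h2' 2).mul_left ((hk' 2).mul_left (hk' 2)))).neg_left)
  obtain ⟨c3, hc3⟩ := lin (n := t 3) (ht 3) (a := -(s 3 * (2 * (k * k)))) (b := s 3 * (4 * k) + 4 * k)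
    (((hs' 3).mul_left ((h2' 3).mul_left ((hk' 3).mul_left (hk' 3)))).neg_left)
  obtain ⟨c4, hc4⟩ := lin (n := t 4) (ht 4) (a := s 4 * ((k + 1 : ℕ) : ℤ)) (b := s 4 * (2 + 4 * k) - 4 * k)
    ((hs' 4).mul_left (hk1' 4))
  obtain ⟨c5, hc5⟩ := lin (n := t 5) (ht 5) (a := s 5 * ((k + 1 : ℕ) : ℤ)) (b := s 5 * 2 - 4 * k)
    ((hs' 5).mul_left (hk1' 5))
  obtain ⟨m0, hm1, hm2, hm3, hm4⟩ := crt7 M0 mM B' t ![c0, c1, c2, c3, c4, c5] hM0 ht hcop hM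
  have hd : ∀ i : Fin 6, ∀ c : ℕ, ![c0, c1, c2, c3, c4, c5] i = c → (t i : ℤ) ∣ (m0 : ℤ) - c := by
    intro i c hc
    have h := hm4 i
    rw [hc] at h
    exact (Int.natCast_modEq_iff.2 h.symm).dvd
  obtain ⟨w0, hw0⟩ := hd 0 c0 rfl
  obtain ⟨w1, hw1⟩ := hd 1 c1 rfl
  obtain ⟨w2, hw2⟩ := hd 2 c2 rfl
  obtain ⟨w3, hw3⟩ := hd 3 c3 rfl
  obtain ⟨w4, hw4⟩ := hd 4 c4 rfl
  obtain ⟨w5, hw5⟩ := hd 5 c5 rfl
  refine ⟨m0, hm1, hm2, hm3, ?_, ?_, ?_, ?_, ?_, ?_⟩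
  · obtain ⟨P', hP'⟩ := (Int.natCast_dvd_natCast.2 hP0)
    obtain ⟨v, hv⟩ := hc0
    have em : (m0 : ℤ) = c0 + t 0 * w0 := by linarith
    -- modulo t 0: P = 0
    refine ⟨v + s 0 * (2 * (k * k)) * w0 + s 0 * m0 * (P' * (P + 2 * k) * (P * m0 + 2) + k * k * P' * m0), ?_⟩
    have e1 : (P : ℤ) = t 0 * P' := hP'
    linear_combination hv + (s 0 : ℤ) * (2 * (k * k)) * em +
      ((s 0 : ℤ) * m0 * ((P + 2 * k) * (P * m0 + 2) + k * k * m0)) * e1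
  · obtain ⟨P', hP'⟩ := (Int.natCast_dvd_natCast.2 hP1)
    obtain ⟨v, hv⟩ := hc1
    have em : (m0 : ℤ) = c1 + t 1 * w1 := by linarith
    refine ⟨v + s 1 * (2 * (k * k)) * w1 + s 1 * m0 * (P' * (P + 2 * k) * (P * m0 + 2) + k * k * P' * m0), ?_⟩
    have e1 : (P : ℤ) = t 1 * P' := hP'
    linear_combination hv + (s 1 : ℤ) * (2 * (k * k)) * em +
      ((s 1 : ℤ) * m0 * ((P + 2 * k) * (P * m0 + 2) + k * k * m0)) * e1
  · obtain ⟨P', hP'⟩ := (Int.natCast_dvd_natCast.2 hP2)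
    obtain ⟨v, hv⟩ := hc2
    have em : (m0 : ℤ) = c2 + t 2 * w2 := by linarith
    push_cast at hP'
    -- P = t P' - k ; P m (P(P+k)m + 2P + 4k) = -2k² m + t P' (...)
    refine ⟨v - s 2 * (2 * (k * k)) * w2 + s 2 * m0 * P' * (P * P * m0 + 2 * (P + k)), ?_⟩
    linear_combination hv - (s 2 : ℤ) * (2 * (k * k)) * em +
      ((s 2 : ℤ) * m0 * (P * P * m0 + 2 * (P + k))) * hP'
  · obtain ⟨P', hP'⟩ := (Int.natCast_dvd_natCast.2 hP3)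
    obtain ⟨v, hv⟩ := hc3
    have em : (m0 : ℤ) = c3 + t 3 * w3 := by linarith
    push_cast at hP'
    refine ⟨v - s 3 * (2 * (k * k)) * w3 + s 3 * m0 * P' * (P * P * m0 + 2 * (P + k)), ?_⟩
    linear_combination hv - (s 3 : ℤ) * (2 * (k * k)) * em +
      ((s 3 : ℤ) * m0 * (P * P * m0 + 2 * (P + k))) * hP'
  · obtain ⟨P', hP'⟩ := ((Int.natCast_modEq_iff.2 hP4.symm).dvd)
    obtain ⟨v, hv⟩ := hc4
    have em : (m0 : ℤ) = c4 + t 4 * w4 := by linarith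
    push_cast at hP' hv
    -- P = 1 + t P'
    refine ⟨v + s 4 * (k + 1) * w4 + s 4 * P' * ((P + k) * m0 + 2 + m0), ?_⟩
    linear_combination hv + (s 4 : ℤ) * (k + 1) * em + (s 4 : ℤ) * ((P + k) * m0 + 2 + m0) * hP'
  · obtain ⟨P', hP'⟩ := ((Int.natCast_modEq_iff.2 hP5.symm).dvd)
    obtain ⟨v, hv⟩ := hc5
    have em : (m0 : ℤ) = c5 + t 5 * w5 := by linarith
    push_cast at hP' hv
    refine ⟨v + s 5 * (k + 1) * w5 + s 5 * P' * ((P + k) * m0 + 2 + m0), ?_⟩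
    linear_combination hv + (s 5 : ℤ) * (k + 1) * em + (s 5 : ℤ) * ((P + k) * m0 + 2 + m0) * hP'

end CRTMM

end Pool.Agent.Lib.MP_3efbeb_nt.PR
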