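import Pool.Agent.Lib.MP_3efbeb_nt.PR.CFGA
import Pool.Agent.Lib.MP_3efbeb_nt.PR.CRTM

/-!
# MP_3efbeb_nt, PR, module CFGB (helper24): bounds and coprimality for the configuration
-/

set_option autoImplicit false

namespace Pool.Agent.Lib.MP_3efbeb_nt.PR

namespace CFGM

open CHNM

lemma cop_of_RZ {z t n : ℕ} (h : RZ z (t : ℤ)) (hn : 1 ≤ n) (hnz : n < z) : Nat.Coprime t n := by
  refine Nat.coprime_of_dvd fun q hq h1 h2 => ?_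
  exact h q hq (lt_of_le_of_lt (Nat.le_of_dvd hn h2) hnz) (by exact_mod_cast h1)

lemma cop_ts {z M0 g s t : ℕ} (hz : 2 < z) (tr : Trip M0 z g s t) : Nat.Coprime t s := by
  obtain ⟨h1, h2, h3, h4, h5, h6, h7⟩ := tr
  refine Nat.coprime_of_dvd fun q hq a1 a2 => ?_
  have a3 : q ∣ t + 2 := by rw [← h1]; exact a2.mul_right g
  have a4 : q ∣ 2 := (Nat.dvd_add_right a1).1 a3
  exact h4 q hq (lt_of_le_of_lt (Nat.le_of_dvd (by norm_num) a4) hz) (by exact_mod_cast a1)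

lemma RZ_mul {z : ℕ} {a b : ℤ} (ha : RZ z a) (hb : RZ z b) : RZ z (a * b) := by
  intro p hp hpz hd
  rcases (Nat.prime_iff_prime_int.1 hp).dvd_or_dvd hd with h | h
  · exact ha p hp hpz h
  · exact hb p hp hpz h

lemma cop_of_primes {a M : ℕ} (h : ∀ p : ℕ, p.Prime → p ∣ M → ¬ (p : ℤ) ∣ (a : ℤ)) : Nat.Coprime a M := by
  refine Nat.coprime_of_dvd fun q hq a1 a2 => ?_
  exact h q hq a2 (by exact_mod_cast a1)

lemma T_dvd {z M0 : ℕ} {t : Fin 6 → ℕ} (ht : ∀ i, RZ z (t i : ℤ)) (p : ℕ) (hp : p.Prime) (hpz : p < z)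
    (hpM : ¬ p ∣ M0) : ¬ (p : ℤ) ∣ ((M0 * ∏ i, t i : ℕ) : ℤ) := by
  intro h
  have h1 : p ∣ M0 * ∏ i, t i := by exact_mod_cast h
  rcases hp.dvd_mul.1 h1 with h2 | h2
  · exact hpM h2
  · obtain ⟨i, -, hi⟩ := (hp.prime.dvd_finset_prod_iff _).1 h2
    exact ht i p hp hpz (by exact_mod_cast hi)

/-- the sizes -/
lemma sizes {P k m T W : ℤ} (hP1 : 1 ≤ P) (hPW : P ≤ W) (hk : 0 ≤ k) (hQW : P + k ≤ W) (hm : 1 ≤ m) (hmW : m ≤ W)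
    (hkW : 4 * k ≤ W) (hT : 1 ≤ T) (hTW : T ≤ W) (hW : 16 ≤ W) :
    (m ≤ (P + k) ^ 2 * m * (P * m + 2) ∧ (P + k) ^ 2 * m * (P * m + 2) ≤ W ^ 6) ∧
    (m ≤ P * m * (P * (P + k) * m + 2 * P + 4 * k) ∧ P * m * (P * (P + k) * m + 2 * P + 4 * k) ≤ W ^ 6) ∧
    (m ≤ P * ((P + k) * m + 2) + 4 * k ∧ P * ((P + k) * m + 2) + 4 * k ≤ W ^ 6) ∧
    (0 ≤ (P + k) ^ 2 * (2 * P * m + 2) ∧ (P + k) ^ 2 * (2 * P * m + 2) ≤ W ^ 8 ∧
      1 ≤ (P + k) ^ 2 * P * T ∧ (P + k) ^ 2 * P * T ≤ W ^ 8) ∧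
    (0 ≤ 2 * P ^ 2 * (P + k) * m + P * (2 * P + 4 * k) ∧ 2 * P ^ 2 * (P + k) * m + P * (2 * P + 4 * k) ≤ W ^ 8 ∧
      1 ≤ P ^ 2 * (P + k) * T ∧ P ^ 2 * (P + k) * T ≤ W ^ 8) ∧
    (1 ≤ P * (P + k) ∧ P * (P + k) ≤ W ^ 8) := by
  have hQ1 : 1 ≤ P + k := by linarith
  have hW1 : 1 ≤ W := by linarith
  have hW0 : 0 ≤ W := by linarith
  have hP0 : 0 ≤ P := by linarith
  have hQ0 : 0 ≤ P + k := by linarith
  have hm0 : 0 ≤ m := by linarith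
  have hT0 : 0 ≤ T := by linarith
  have p2 : ∀ {a b : ℤ}, 1 ≤ a → 1 ≤ b → 1 ≤ a * b := fun ha hb => by nlinarith
  have e56 : 2 * W ^ 5 ≤ W ^ 6 := by
    rw [pow_succ W 5, mul_comm]; exact mul_le_mul_of_nonneg_left (by linarith) (by positivity)
  have e56' : 8 * W ^ 5 ≤ W ^ 6 := by
    rw [pow_succ W 5, mul_comm]; exact mul_le_mul_of_nonneg_left (by linarith) (by positivity)
  have e68 : W ^ 6 ≤ W ^ 8 := pow_le_pow_right₀ hW1 (by norm_num)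
  have e25 : W ^ 2 ≤ W ^ 5 := pow_le_pow_right₀ hW1 (by norm_num)
  have e35 : W ^ 3 ≤ W ^ 5 := pow_le_pow_right₀ hW1 (by norm_num)
  have e45 : W ^ 4 ≤ W ^ 5 := pow_le_pow_right₀ hW1 (by norm_num)
  have e28 : W ^ 2 ≤ W ^ 8 := pow_le_pow_right₀ hW1 (by norm_num)
  have e48 : W ^ 4 ≤ W ^ 8 := pow_le_pow_right₀ hW1 (by norm_num)
  have e58 : W ^ 5 ≤ W ^ 8 := pow_le_pow_right₀ hW1 (by norm_num)
  refine ⟨⟨?_, ?_⟩, ⟨?_, ?_⟩, ⟨?_, ?_⟩, ⟨by positivity, ?_, ?_, ?_⟩, ⟨by positivity, ?_, ?_, ?_⟩, ?_, ?_⟩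
  · have h1 : 1 ≤ (P + k) ^ 2 * (P * m + 2) := p2 (one_le_pow₀ hQ1) (by nlinarith)
    nlinarith
  · calc (P + k) ^ 2 * m * (P * m + 2) ≤ W ^ 2 * W * (W * W + W * W) := by
          gcongr
          nlinarith
      _ = 2 * W ^ 5 := by ring
      _ ≤ W ^ 6 := e56
  · have h1 : 1 ≤ P * (P * (P + k) * m + 2 * P + 4 * k) := p2 hP1 (by nlinarith [p2 (p2 hP1 hQ1) hm])
    nlinarith
  · calc P * m * (P * (P + k) * m + 2 * P + 4 * k) ≤ W * W * (W * W * W + 2 * W + W) := by gcongr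
      _ = W ^ 5 + 3 * W ^ 3 := by ring
      _ ≤ W ^ 6 := by linarith
  · have h1 : m ≤ (P + k) * m := by nlinarith
    have h2 : (P + k) * m + 2 ≤ P * ((P + k) * m + 2) := by nlinarith [p2 hQ1 hm]
    linarith
  · calc P * ((P + k) * m + 2) + 4 * k ≤ W * (W * W + W * W) + W ^ 2 := by
          gcongr
          · nlinarith
          · nlinarith
      _ = 2 * W ^ 3 + W ^ 2 := by ring
      _ ≤ W ^ 6 := by linarith [pow_nonneg hW0 5]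
  · calc (P + k) ^ 2 * (2 * P * m + 2) ≤ W ^ 2 * (2 * W * W + W * W) := by
          gcongr
          nlinarith
      _ = 3 * W ^ 4 := by ring
      _ ≤ W ^ 8 := by linarith [pow_nonneg hW0 5]
  · exact p2 (p2 (one_le_pow₀ hQ1) hP1) hT
  · calc (P + k) ^ 2 * P * T ≤ W ^ 2 * W * W := by gcongr
      _ = W ^ 4 := by ring
      _ ≤ W ^ 8 := e48
  · calc 2 * P ^ 2 * (P + k) * m + P * (2 * P + 4 * k) ≤ 2 * W ^ 2 * W * W + W * (2 * W + W) := by gcongr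
      _ = 2 * W ^ 4 + 3 * W ^ 2 := by ring
      _ ≤ W ^ 8 := by linarith [pow_nonneg hW0 5]
  · exact p2 (p2 (one_le_pow₀ hP1) hQ1) hT
  · calc P ^ 2 * (P + k) * T ≤ W ^ 2 * W * W := by gcongr
      _ = W ^ 4 := by ring
      _ ≤ W ^ 8 := e48
  · exact p2 hP1 hQ1
  · calc P * (P + k) ≤ W * W := by gcongr
      _ = W ^ 2 := by ring
      _ ≤ W ^ 8 := e28

/-- the bounds for `B'`, `T`, `m0`, `P + k`, `s`, `g` in terms of `z` -/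
lemma zbounds {z C1 C2 E B k M0 m0 P g B' : ℕ} {s t : Fin 6 → ℕ} (hz : 16 ≤ z) (hBz : B + 1 ≤ z) (hkz : 4 * k ≤ z)
    (hMz : M0 ≤ z) (hE : E = 6 * C1 + C2 + 5) (ht : ∀ i, t i ≤ z ^ C1) (hs : ∀ i, s i ≤ t i + 2) (hg : g ≤ z ^ C1 + 2)
    (hP : P ≤ z ^ C2) (hB' : B' = (B + 1 + (3 * z ^ C1 + 6) * (4 * k)) * (z ^ C1 * z ^ C1))
    (hm0 : m0 ≤ B' + M0 * ∏ i, t i) :
    M0 * ∏ i, t i ≤ z ^ E ∧ m0 ≤ z ^ E ∧ P ≤ z ^ E ∧ P + k ≤ z ^ E ∧ (∀ i, s i ≤ z ^ E) ∧ (∀ i, t i ≤ z ^ E) ∧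
      g ≤ z ^ E ∧ 4 * k ≤ z ^ E ∧ 16 ≤ z ^ E := by
  have hz1 : 1 ≤ z := by omega
  have hzC : 1 ≤ z ^ C1 := Nat.one_le_pow _ _ hz1
  have hzC2 : 1 ≤ z ^ C2 := Nat.one_le_pow _ _ hz1
  have mono : ∀ {a b : ℕ}, a ≤ b → z ^ a ≤ z ^ b := fun h => Nat.pow_le_pow_right hz1 h
  have hz1E : z ≤ z ^ E := by
    calc z = z ^ 1 := (pow_one z).symm
      _ ≤ z ^ E := mono (by omega)
  have hprod : ∏ i, t i ≤ z ^ (6 * C1) := by
    calc ∏ i, t i ≤ ∏ _i : Fin 6, z ^ C1 := Finset.prod_le_prod' fun i _ => ht i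
      _ = z ^ (6 * C1) := by rw [Finset.prod_const, Finset.card_univ, Fintype.card_fin, ← pow_mul, mul_comm]
  have hT : M0 * ∏ i, t i ≤ z ^ (6 * C1 + 1) := by
    calc M0 * ∏ i, t i ≤ z * z ^ (6 * C1) := Nat.mul_le_mul hMz hprod
      _ = z ^ (6 * C1 + 1) := by rw [pow_succ, mul_comm]
  have h1 : 3 * z ^ C1 + 6 ≤ z ^ (C1 + 1) := by
    calc 3 * z ^ C1 + 6 ≤ 16 * z ^ C1 := by omega
      _ ≤ z * z ^ C1 := Nat.mul_le_mul_right _ hz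
      _ = z ^ (C1 + 1) := by rw [pow_succ, mul_comm]
  have h2 : B + 1 + (3 * z ^ C1 + 6) * (4 * k) ≤ z ^ (C1 + 3) := by
    have a1 : (3 * z ^ C1 + 6) * (4 * k) ≤ z ^ (C1 + 1) * z := Nat.mul_le_mul h1 hkz
    have a2 : z ^ (C1 + 1) * z = z ^ (C1 + 2) := by rw [← pow_succ]
    have a3 : z ≤ z ^ (C1 + 2) := by
      calc z = z ^ 1 := (pow_one z).symm
        _ ≤ z ^ (C1 + 2) := mono (by omega)
    have a4 : 2 * z ^ (C1 + 2) ≤ z ^ (C1 + 3) := by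
      rw [pow_succ z (C1 + 2), mul_comm]
      exact Nat.mul_le_mul_left _ (by omega)
    omega
  have h3 : B' ≤ z ^ (3 * C1 + 3) := by
    rw [hB']
    calc _ ≤ z ^ (C1 + 3) * (z ^ C1 * z ^ C1) := Nat.mul_le_mul_right _ h2
      _ = z ^ (3 * C1 + 3) := by rw [← pow_add, ← pow_add]; congr 1; ring
  have hmE : m0 ≤ z ^ E := by
    have a1 : z ^ (3 * C1 + 3) ≤ z ^ (6 * C1 + 4) := mono (by omega)
    have a2 : z ^ (6 * C1 + 1) ≤ z ^ (6 * C1 + 4) := mono (by omega)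
    have a3 : 2 * z ^ (6 * C1 + 4) ≤ z ^ (6 * C1 + 5) := by
      rw [pow_succ z (6 * C1 + 4), mul_comm]
      exact Nat.mul_le_mul_left _ (by omega)
    have a4 : z ^ (6 * C1 + 5) ≤ z ^ E := mono (by omega)
    omega
  have hC11 : z ^ C1 + 2 ≤ z ^ (C1 + 1) := by omega
  have hC1E : z ^ (C1 + 1) ≤ z ^ E := mono (by omega)
  refine ⟨hT.trans (mono (by omega)), hmE, hP.trans (mono (by omega)), ?_, fun i => ?_, fun i => ?_, ?_, ?_, ?_⟩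
  · have a1 : z ≤ z ^ (C2 + 1) := by
      calc z = z ^ 1 := (pow_one z).symm
        _ ≤ z ^ (C2 + 1) := mono (by omega)
    have a2 : z ^ C2 ≤ z ^ (C2 + 1) := mono (by omega)
    have a3 : 2 * z ^ (C2 + 1) ≤ z ^ (C2 + 2) := by
      rw [pow_succ z (C2 + 1), mul_comm]
      exact Nat.mul_le_mul_left _ (by omega)
    have a4 : z ^ (C2 + 2) ≤ z ^ E := mono (by omega)
    omega
  · have := hs i; have := ht i; omega
  · have := ht i; omega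
  · omega
  · omega
  · omega

end CFGM

end Pool.Agent.Lib.MP_3efbeb_nt.PR
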