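import Pool.Agent.Lib.MP_3efbeb_nt.PR.Spec

/-!
# MP_3efbeb_nt, PR, module CHN (helper24): the eight numbers of one chain as functions of the sieve variable
-/

set_option autoImplicit false

namespace Pool.Agent.Lib.MP_3efbeb_nt.PR

namespace CHNM

/-- the constant terms -/
def al (δ g s t s' t' L0 : ℤ) : Fin 8 → ℤ :=
  ![L0, s * L0, (s * L0 + δ) / t, s * L0 + δ + t * δ, s' * (L0 + δ), (s' * (L0 + δ) + δ) / t',
    s' * (L0 + δ) + δ + t' * δ, L0 + g * δ]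

/-- the coefficients -/
def be (s t s' t' T : ℤ) : Fin 8 → ℤ := ![T, s * T, s * T / t, s * T, s' * T, s' * T / t', s' * T, T]

variable {δ g s t s' t' L0 T : ℤ}

lemma eq1 (ht0 : t ≠ 0) (hT : t ∣ T) (h1 : t ∣ s * L0 + δ) (w : ℤ) :
    s * (L0 + T * w) + δ = t * ((s * L0 + δ) / t + s * T / t * w) := by
  obtain ⟨a, ha⟩ := h1
  obtain ⟨b, hb⟩ := hT
  have e1 : (s * L0 + δ) / t = a := by rw [ha]; exact Int.mul_ediv_cancel_left a ht0
  have e2 : s * T / t = s * b := by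
    rw [hb, show s * (t * b) = t * (s * b) by ring]
    exact Int.mul_ediv_cancel_left _ ht0
  rw [e1, e2, hb]
  linear_combination ha

lemma eq2 (ht0' : t' ≠ 0) (hT' : t' ∣ T) (h2 : t' ∣ s' * (L0 + δ) + δ) (w : ℤ) :
    s' * (L0 + T * w + δ) + δ = t' * ((s' * (L0 + δ) + δ) / t' + s' * T / t' * w) := by
  have h := eq1 (s := s') (L0 := L0 + δ) (δ := δ) ht0' hT' h2 w
  rw [← h]
  ring

/-- the eight numbers -/
lemma chn_eq (ht0 : t ≠ 0) (ht0' : t' ≠ 0) (hT : t ∣ T) (hT' : t' ∣ T)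
    (h1 : t ∣ s * L0 + δ) (h2 : t' ∣ s' * (L0 + δ) + δ) (w : ℤ) (j : Fin 8) :
    chn δ g s t s' t' (L0 + T * w) ((s * L0 + δ) / t + s * T / t * w)
      ((s' * (L0 + δ) + δ) / t' + s' * T / t' * w) j = al δ g s t s' t' L0 j + be s t s' t' T j * w := by
  have e1 := eq1 ht0 hT h1 w
  have e2 := eq2 ht0' hT' h2 w
  unfold chn al be
  fin_cases j
  · show L0 + T * w = L0 + T * w
    rfl
  · show s * (L0 + T * w) = s * L0 + s * T * w
    ring
  · rfl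
  · show t * ((s * L0 + δ) / t + s * T / t * w + δ) = s * L0 + δ + t * δ + s * T * w
    linear_combination -e1
  · show s' * (L0 + T * w + δ) = s' * (L0 + δ) + s' * T * w
    ring
  · rfl
  · show t' * ((s' * (L0 + δ) + δ) / t' + s' * T / t' * w + δ) = s' * (L0 + δ) + δ + t' * δ + s' * T * w
    linear_combination -e2
  · show L0 + T * w + g * δ = L0 + g * δ + T * w
    ring

/-- lower bounds -/
lemma al_ge {B : ℤ} (hB : 0 ≤ B) (hs : 1 ≤ s) (hs' : 1 ≤ s') (ht : 1 ≤ t) (ht' : 1 ≤ t') (hg : 1 ≤ g)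
    (hL : (B + (t + t' + g + 4) * |δ|) * (t * t') ≤ L0) (j : Fin 8) : B + |δ| ≤ al δ g s t s' t' L0 j := by
  have hd : 0 ≤ |δ| := abs_nonneg δ
  have hd1 : -|δ| ≤ δ := neg_abs_le δ
  have htt : 1 ≤ t * t' := by nlinarith
  have hA : 0 ≤ B + (t + t' + g + 4) * |δ| := by positivity
  have hL1 : B + (t + t' + g + 4) * |δ| ≤ L0 := le_trans (by nlinarith) hL
  have hLt : (B + (t + t' + g + 4) * |δ|) * t ≤ L0 := le_trans (by nlinarith [mul_nonneg hA (by linarith : (0:ℤ) ≤ t)]) hL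
  have hLt' : (B + (t + t' + g + 4) * |δ|) * t' ≤ L0 := le_trans (by nlinarith [mul_nonneg hA (by linarith : (0:ℤ) ≤ t')]) hL
  have hL0 : 0 ≤ L0 := le_trans hA hL1
  have htd : 0 ≤ t * |δ| := by positivity
  have htd' : 0 ≤ t' * |δ| := by positivity
  have hgd : 0 ≤ g * |δ| := by positivity
  have hexp : (t + t' + g + 4) * |δ| = t * |δ| + t' * |δ| + g * |δ| + 4 * |δ| := by ring
  have htδ : -(t * |δ|) ≤ t * δ := by nlinarith
  have htδ' : -(t' * |δ|) ≤ t' * δ := by nlinarith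
  have hgδ : -(g * |δ|) ≤ g * δ := by nlinarith
  have hsL : L0 ≤ s * L0 := by nlinarith
  have hLδ : 0 ≤ L0 + δ := by linarith
  have hsL' : L0 + δ ≤ s' * (L0 + δ) := by nlinarith
  unfold al
  fin_cases j
  · show B + |δ| ≤ L0
    linarith
  · show B + |δ| ≤ s * L0
    linarith
  · show B + |δ| ≤ (s * L0 + δ) / t
    rw [Int.le_ediv_iff_mul_le (by linarith)]
    have h1 : (B + |δ|) * t + |δ| ≤ (B + (t + t' + g + 4) * |δ|) * t := by nlinarith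
    linarith
  · show B + |δ| ≤ s * L0 + δ + t * δ
    linarith
  · show B + |δ| ≤ s' * (L0 + δ)
    linarith
  · show B + |δ| ≤ (s' * (L0 + δ) + δ) / t'
    rw [Int.le_ediv_iff_mul_le (by linarith)]
    have h1 : (B + |δ|) * t' + 2 * |δ| ≤ (B + (t + t' + g + 4) * |δ|) * t' := by nlinarith
    linarith
  · show B + |δ| ≤ s' * (L0 + δ) + δ + t' * δ
    linarith
  · show B + |δ| ≤ L0 + g * δ
    linarith

/-- upper bounds -/
lemma al_le (hs : 1 ≤ s) (hs' : 1 ≤ s') (ht : 1 ≤ t) (ht' : 1 ≤ t') (hg : 1 ≤ g) (hL : 0 ≤ L0) (j : Fin 8) :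
    al δ g s t s' t' L0 j ≤ (s + s') * L0 + (s + s' + t + t' + g + 2) * |δ| := by
  have hd : 0 ≤ |δ| := abs_nonneg δ
  have hd1 : δ ≤ |δ| := le_abs_self δ
  have hsL : 0 ≤ s * L0 := by positivity
  have hsL' : 0 ≤ s' * L0 := by positivity
  have hsL1 : L0 ≤ s * L0 := by nlinarith
  have h1 : 0 ≤ s * |δ| := by positivity
  have h2 : 0 ≤ s' * |δ| := by positivity
  have h3 : 0 ≤ t * |δ| := by positivity
  have h4 : 0 ≤ t' * |δ| := by positivity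
  have h5 : 0 ≤ g * |δ| := by positivity
  have e2 : s' * δ ≤ s' * |δ| := by nlinarith
  have e3 : t * δ ≤ t * |δ| := by nlinarith
  have e4 : t' * δ ≤ t' * |δ| := by nlinarith
  have e5 : g * δ ≤ g * |δ| := by nlinarith
  have hexp : (s + s') * L0 + (s + s' + t + t' + g + 2) * |δ| =
      s * L0 + s' * L0 + s * |δ| + s' * |δ| + t * |δ| + t' * |δ| + g * |δ| + 2 * |δ| := by ring
  have hpos : 0 ≤ (s + s') * L0 + (s + s' + t + t' + g + 2) * |δ| := by rw [hexp]; linarith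
  unfold al
  fin_cases j
  · show L0 ≤ _
    rw [hexp]; linarith
  · show s * L0 ≤ _
    rw [hexp]; linarith
  · show (s * L0 + δ) / t ≤ _
    refine Int.ediv_le_of_le_mul (by linarith) ?_
    have h6 : s * L0 + δ ≤ (s + s') * L0 + (s + s' + t + t' + g + 2) * |δ| := by rw [hexp]; linarith
    nlinarith
  · show s * L0 + δ + t * δ ≤ _
    rw [hexp]; linarith
  · show s' * (L0 + δ) ≤ _
    rw [hexp]; nlinarith
  · show (s' * (L0 + δ) + δ) / t' ≤ _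
    refine Int.ediv_le_of_le_mul (by linarith) ?_
    have h6 : s' * (L0 + δ) + δ ≤ (s + s') * L0 + (s + s' + t + t' + g + 2) * |δ| := by rw [hexp]; nlinarith
    nlinarith
  · show s' * (L0 + δ) + δ + t' * δ ≤ _
    rw [hexp]; nlinarith
  · show L0 + g * δ ≤ _
    rw [hexp]; linarith

lemma div_pos_of_dvd {a b : ℤ} (ha : 1 ≤ a) (hb : 1 ≤ b) (h : b ∣ a) : 1 ≤ a / b ∧ a / b ≤ a := by
  obtain ⟨c, rfl⟩ := h
  rw [Int.mul_ediv_cancel_left c (by linarith)]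
  have hc : 1 ≤ c := by
    by_contra hcon
    push Not at hcon
    have : c ≤ 0 := by linarith
    nlinarith
  exact ⟨hc, by nlinarith⟩

/-- bounds of the coefficients -/
lemma be_bounds (hs : 1 ≤ s) (hs' : 1 ≤ s') (ht : 1 ≤ t) (ht' : 1 ≤ t') (hT1 : 1 ≤ T) (hT : t ∣ T) (hT' : t' ∣ T)
    (j : Fin 8) : 1 ≤ be s t s' t' T j ∧ be s t s' t' T j ≤ (s + s') * T := by
  have h1 : 1 ≤ s * T := by nlinarith
  have h2 : 1 ≤ s' * T := by nlinarith
  have h3 : (s + s') * T = s * T + s' * T := by ring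
  have h4 : T ≤ s * T := by nlinarith
  have h5 := div_pos_of_dvd h1 ht (hT.mul_left s)
  have h6 := div_pos_of_dvd h2 ht' (hT'.mul_left s')
  rw [h3]
  unfold be
  fin_cases j
  · exact ⟨hT1, show T ≤ _ by linarith⟩
  · exact ⟨h1, show s * T ≤ _ by linarith⟩
  · exact ⟨h5.1, show s * T / t ≤ _ by linarith [h5.2]⟩
  · exact ⟨h1, show s * T ≤ _ by linarith⟩
  · exact ⟨h2, show s' * T ≤ _ by linarith⟩
  · exact ⟨h6.1, show s' * T / t' ≤ _ by linarith [h6.2]⟩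
  · exact ⟨h2, show s' * T ≤ _ by linarith⟩
  · exact ⟨hT1, show T ≤ _ by linarith⟩

/-- primes dividing the coefficients -/
lemma be_dvd {p : ℤ} (hp : Prime p) (hT : t ∣ T) (hT' : t' ∣ T) (hps : ¬ p ∣ s) (hps' : ¬ p ∣ s') (hpT : ¬ p ∣ T)
    (j : Fin 8) : ¬ p ∣ be s t s' t' T j := by
  have h1 : ¬ p ∣ s * T := fun h => (hp.dvd_or_dvd h).elim hps hpT
  have h2 : ¬ p ∣ s' * T := fun h => (hp.dvd_or_dvd h).elim hps' hpT
  have h3 : s * T / t ∣ s * T := Int.ediv_dvd_of_dvd (hT.mul_left s)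
  have h4 : s' * T / t' ∣ s' * T := Int.ediv_dvd_of_dvd (hT'.mul_left s')
  unfold be
  fin_cases j
  · exact hpT
  · exact h1
  · exact fun h => h1 (h.trans h3)
  · exact h1
  · exact h2
  · exact fun h => h2 (h.trans h4)
  · exact h2
  · exact hpT

/-- the residues modulo a small prime: `t = t' = -1`, `s = s' = g = 1` -/
lemma al_mod {p : ℤ} (ht0 : t ≠ 0) (ht0' : t' ≠ 0) (ht : p ∣ t + 1) (ht' : p ∣ t' + 1) (hs : p ∣ s - 1)
    (hs' : p ∣ s' - 1) (hg : p ∣ g - 1) (h1 : t ∣ s * L0 + δ) (h2 : t' ∣ s' * (L0 + δ) + δ)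
    (hL0 : ¬ p ∣ L0) (hL1 : ¬ p ∣ L0 + δ) (hL2 : ¬ p ∣ L0 + 2 * δ) (j : Fin 8) :
    ¬ p ∣ al δ g s t s' t' L0 j ∧ ¬ p ∣ al δ g s t s' t' L0 j + δ := by
  obtain ⟨a, ha⟩ := h1
  obtain ⟨b, hb⟩ := h2
  have e1 : (s * L0 + δ) / t = a := by rw [ha]; exact Int.mul_ediv_cancel_left a ht0
  have e2 : (s' * (L0 + δ) + δ) / t' = b := by rw [hb]; exact Int.mul_ediv_cancel_left b ht0'
  obtain ⟨u, hu⟩ := ht
  obtain ⟨u', hu'⟩ := ht'
  obtain ⟨v, hv⟩ := hs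
  obtain ⟨v', hv'⟩ := hs'
  obtain ⟨w, hw⟩ := hg
  have key : ∀ {x y : ℤ}, ¬ p ∣ y → p ∣ x - y → ¬ p ∣ x := fun hy hd hx => hy (by
    have := dvd_sub hx hd
    rwa [sub_sub_cancel] at this)
  have keyn : ∀ {x y : ℤ}, ¬ p ∣ y → p ∣ x + y → ¬ p ∣ x := fun hy hd hx => hy (by
    have := dvd_sub hd hx
    rwa [add_sub_cancel_left] at this)
  unfold al
  fin_cases j
  · exact ⟨hL0, hL1⟩
  · refine ⟨key hL0 ⟨v * L0, ?_⟩, key hL1 ⟨v * L0, ?_⟩⟩
    · show s * L0 - L0 = p * (v * L0)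
      linear_combination L0 * hv
    · show s * L0 + δ - (L0 + δ) = p * (v * L0)
      linear_combination L0 * hv
  · show ¬ p ∣ (s * L0 + δ) / t ∧ ¬ p ∣ (s * L0 + δ) / t + δ
    rw [e1]
    -- `a t = s L0 + δ`, `t = -1`, `s = 1`: `a = -(L0 + δ)`
    refine ⟨keyn hL1 ⟨u * a - v * L0, ?_⟩, keyn hL0 ⟨u * a - v * L0, ?_⟩⟩
    · linear_combination a * hu - L0 * hv + ha
    · linear_combination a * hu - L0 * hv + ha
  · refine ⟨key hL0 ⟨v * L0 + u * δ, ?_⟩, key hL1 ⟨v * L0 + u * δ, ?_⟩⟩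
    · show s * L0 + δ + t * δ - L0 = p * (v * L0 + u * δ)
      linear_combination L0 * hv + δ * hu
    · show s * L0 + δ + t * δ + δ - (L0 + δ) = p * (v * L0 + u * δ)
      linear_combination L0 * hv + δ * hu
  · refine ⟨key hL1 ⟨v' * (L0 + δ), ?_⟩, key hL2 ⟨v' * (L0 + δ), ?_⟩⟩
    · show s' * (L0 + δ) - (L0 + δ) = p * (v' * (L0 + δ))
      linear_combination (L0 + δ) * hv'
    · show s' * (L0 + δ) + δ - (L0 + 2 * δ) = p * (v' * (L0 + δ))
      linear_combination (L0 + δ) * hv'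
  · show ¬ p ∣ (s' * (L0 + δ) + δ) / t' ∧ ¬ p ∣ (s' * (L0 + δ) + δ) / t' + δ
    rw [e2]
    refine ⟨keyn hL2 ⟨u' * b - v' * (L0 + δ), ?_⟩, keyn hL1 ⟨u' * b - v' * (L0 + δ), ?_⟩⟩
    · linear_combination b * hu' - (L0 + δ) * hv' + hb
    · linear_combination b * hu' - (L0 + δ) * hv' + hb
  · refine ⟨key hL1 ⟨v' * (L0 + δ) + u' * δ, ?_⟩, key hL2 ⟨v' * (L0 + δ) + u' * δ, ?_⟩⟩
    · show s' * (L0 + δ) + δ + t' * δ - (L0 + δ) = p * (v' * (L0 + δ) + u' * δ)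
      linear_combination (L0 + δ) * hv' + δ * hu'
    · show s' * (L0 + δ) + δ + t' * δ + δ - (L0 + 2 * δ) = p * (v' * (L0 + δ) + u' * δ)
      linear_combination (L0 + δ) * hv' + δ * hu'
  · refine ⟨key hL1 ⟨w * δ, ?_⟩, key hL2 ⟨w * δ, ?_⟩⟩
    · show L0 + g * δ - (L0 + δ) = p * (w * δ)
      linear_combination δ * hw
    · show L0 + g * δ + δ - (L0 + 2 * δ) = p * (w * δ)
      linear_combination δ * hw

end CHNM

end Pool.Agent.Lib.MP_3efbeb_nt.PR
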