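import Pool.Agent.Lib.MP_3efbeb_nt.PR.Spec
import Pool.Agent.Lib.MP_3efbeb_nt.SV.Poly

/-!
# MP_3efbeb_nt, PR, module SVP (helper66): the sieve for the values of a polynomial
-/

set_option autoImplicit false

namespace Pool.Agent.Lib.MP_3efbeb_nt.PR

open Finset
open scoped Classical

theorem specSVP : SpecSVP := by
  intro D
  obtain ⟨C, hC⟩ := SV.specSieveP D
  refine ⟨(C + 1) * C + C + 1, ?_⟩
  intro F z X hF hz hzX hloc
  have hz1 : 1 ≤ z := by omega
  have hzR : (2 : ℝ) ≤ (z : ℝ) := by exact_mod_cast hz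
  have hz0 : (0 : ℝ) < (z : ℝ) := by linarith
  have h1 : (z : ℝ) ^ C ≤ (X : ℝ) := by
    have h2 : z ^ C ≤ z ^ ((C + 1) * C + C + 1) := Nat.pow_le_pow_right hz1 (by nlinarith)
    exact_mod_cast h2.trans hzX
  have h3 := hC F z X hF hzR h1 (fun p hp hpz => hloc p hp (by exact_mod_cast hpz))
  have hfil : ((Icc 1 X).filter (fun y : ℕ => ∀ p : ℕ, p.Prime → (p : ℝ) < (z : ℝ) → ¬ (p : ℤ) ∣ F.eval (y : ℤ))) =
      (Icc 1 X).filter (fun y : ℕ => RZ z (F.eval (y : ℤ))) := by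
    apply filter_congr
    intro y _
    unfold RZ
    constructor
    · intro h p hp hpz
      exact h p hp (by exact_mod_cast hpz)
    · intro h p hp hpz
      exact h p hp (by exact_mod_cast hpz)
  rw [hfil] at h3
  set N := ((Icc 1 X).filter (fun y : ℕ => RZ z (F.eval (y : ℤ)))).card with hN
  have hlog : 1 + Real.log z ≤ (z : ℝ) := by
    have := Real.log_le_sub_one_of_pos hz0
    linarith
  have hlog0 : 0 ≤ Real.log (z : ℝ) := Real.log_nonneg (by linarith)
  have hCz : (C : ℝ) ≤ (z : ℝ) ^ C := by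
    have h4 : C ≤ 2 ^ C := Nat.lt_two_pow_self.le
    have h5 : (C : ℝ) ≤ (2 : ℝ) ^ C := by exact_mod_cast h4
    exact h5.trans (pow_le_pow_left₀ (by norm_num) hzR C)
  have h6 : (C : ℝ) * (1 + Real.log z) ≤ (z : ℝ) ^ (C + 1) := by
    rw [pow_succ]
    exact mul_le_mul hCz hlog (by linarith) (by positivity)
  have h7 : ((C : ℝ) * (1 + Real.log z)) ^ C ≤ (z : ℝ) ^ ((C + 1) * C + C + 1) := by
    have h8 : ((C : ℝ) * (1 + Real.log z)) ^ C ≤ ((z : ℝ) ^ (C + 1)) ^ C :=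
      pow_le_pow_left₀ (by positivity) h6 C
    rw [← pow_mul] at h8
    exact h8.trans (pow_le_pow_right₀ (by linarith) (by omega))
  have h9 : (X : ℝ) ≤ (z : ℝ) ^ ((C + 1) * C + C + 1) * (N : ℝ) :=
    h3.trans (mul_le_mul_of_nonneg_right h7 (by positivity))
  exact_mod_cast h9

end Pool.Agent.Lib.MP_3efbeb_nt.PR
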