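import Pool.Agent.Lib.MP_3efbeb_nt.DL.Spec

/-!
# MP_3efbeb_nt, PR: two odd members at a fixed shift `h`, `24 ∣ h`

**Theorem.** `24 ∣ h`, `K` a finite set of integers divisible by `(48 (|K| + 2))!`, `σ = ±1`: for large `z`, `x ≥ z^C`, at
least `√x / z^C` of the `n ≤ x` have `n`, `n + h` and `n + k` (`k ∈ K`) without prime factor `< z` and
`λ(n) = λ(n + h) = σ`. (Both signs; `σ = -1`: both numbers of prime factors are odd.)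

**Proof.** (helper66, helper24, helper16, helper15.) Suppose that in a family of pairs `(n, n+h)` none is `(σ, σ)`.
(1) Alternation (helper24): `s g = t + 2`, `λ(s) = λ(t) = -1`. If `λ(L) = -σ`, `s L + δ = t L1`: `λ(sL) = σ`, so
`λ(sL+δ) = -σ`, `λ(L1) = σ`, `λ(L1+δ) = -σ`, `λ(t(L1+δ)) = σ`, `λ(t(L1+δ)+δ) = -σ`, and this number is `s (L + gδ)`, so
`λ(L+gδ) = σ`. With a second triple `(s', t')` with the same `g` for `L + δ`: `λ(L+δ+gδ) = σ` if `λ(L+δ) = -σ`. So not both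
`λ(L)`, `λ(L+δ)` are `-σ`, and `λ(L) λ(L+δ) = -1`.
(2) Identity (helper66), `h = 4k`, `P' = P + k`, `b = P'm + 2`, `b' = Pm + 2`, `a0 = PP'm + 2k`, `c = PP'm + 2P + 4k`:
`P'^2 m b' + h = b a0`, `P m c + h = b' a0`, `P b + h = c`; the product of the six numbers is a square. Contradiction to (1).
(3) `m = m0 + T y`, `y` is the sieve variable. The three numbers `n1 = P'^2 m b'`, `n2 = P m c`, `n3 = P b` need the
congruences of (1) modulo six different `t`'s: `P = 0 (t1 t2)`, `P' = 0 (t3 t4)` make all of them linear in `m`.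
(4) Local conditions: `t = -1`, `s = g = 1` modulo the small primes; the classes of `(P, m)` from LOC; for `n3` the chain
goes backwards (`L = n3 + h`, `δ = -h`). This is where `24 ∣ h` is used.

Modules: file `PR/<NAME>.lean`, theorem `specNAME (hXX : SpecXX) .. : SpecNAME`, namespace
`Pool.Agent.Lib.MP_3efbeb_nt.PR`, own lemmas in `..PR.<NAME>M`.
-/

set_option autoImplicit false

namespace Pool.Agent.Lib.MP_3efbeb_nt.PR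

open Finset
open scoped Classical

noncomputable section

/-! ## Definitions -/

/-- no prime factor `< z` -/
def RZ (z : ℕ) (n : ℤ) : Prop := ∀ p : ℕ, p.Prime → p < z → ¬ (p : ℤ) ∣ n

/-- the Liouville function of `|n|` -/
def lz (n : ℤ) : ℤ := (-1) ^ n.natAbs.primeFactorsList.length

/-- the triples `(s, t, g)` of (1) -/
def Trip (M0 z g s t : ℕ) : Prop :=
  s * g = t + 2 ∧ 1 ≤ t ∧ (t + 1) % M0 = 0 ∧ RZ z t ∧ RZ z s ∧ lz t = -1 ∧ lz s = -1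

/-- the eight numbers of a chain: `L`, `sL`, `L1`, `t(L1+δ)`, `s'(L+δ)`, `L2`, `t'(L2+δ)`, `L+gδ`; each is one member
of a pair `(u, u + δ)` -/
def chn (δ g s t s' t' L L1 L2 : ℤ) : Fin 8 → ℤ :=
  ![L, s * L, L1, t * (L1 + δ), s' * (L + δ), L2, t' * (L2 + δ), L + g * δ]

/-! ## SVP: the sieve for a polynomial -/

/-- SVP. The lower bound sieve for one polynomial of degree `≤ D`. (Copy `SV/Sieve.lean`, `specSieveK`, and replace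
`val a b x` by the value of `F` in `ZMod n`: `nu F p ≤ D` as `F ≠ 0` modulo `p`, `Polynomial.card_roots`.) -/
def SpecSVP : Prop := ∀ D : ℕ, ∃ C : ℕ, ∀ (F : Polynomial ℤ) (z X : ℕ), F.natDegree ≤ D → 2 ≤ z → z ^ C ≤ X →
  (∀ p : ℕ, p.Prime → p < z → ∃ y : ℤ, ¬ (p : ℤ) ∣ F.eval y) →
  X ≤ z ^ C * ((Icc 1 X).filter (fun y : ℕ => RZ z (F.eval (y : ℤ)))).card

/-! ## SEL: the triples -/

/-- SEL (from `DL.SpecC1`, `SpecTK`, `SpecEQ`, `SpecLAM`, `SpecVLP`/`SpecVLB`). `M` a multiple of `M0` and of all primes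
`≤ P0`; the `t ≤ X = z^C` with `t = -1 (mod M)`, `t`, `t+2` rough: `(1 ± η) (X/M) VV 2` (C1 with `S = {2}`); by EQ (`m = 2`,
`S = {2}`, `g a n = 1` if `Omega n = a (mod 2)`) at least `(1/2 - 2η)` of them have `λ(t) = -1`; by TK for `n = t + 2`
(`S = {-2}`) and LAM all but `η` of them have a prime factor `q = 1 (mod M)` of `t + 2` in `QQ M J1 J2`. If
`λ(t+2) = -1` put `g = 1`, `s = t+2`; otherwise `g = q`, `s = (t+2)/q`. So `N ≥ (X/M) VV 2 / 4` of the `t` have a triple with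
`g ∈ {1} ∪ QQ M J1 J2`. Suppose that for no `g` six of them are pairwise coprime: for each `g` a maximal set of
pairwise coprime ones has at most 5 elements, and all others have a common prime factor `p ≥ z` with one of these
(at most `5 log2 X` primes `p`, `p ∤ g` as `p` is odd), `t = 0 (p)`, `t = -2 (g)`: at most `X/(p g) + 1` each; the sum over
`g` is at most `5 log2 X (2 X / z + 2^J2 + 1)`, smaller than `N` (VLP). -/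
def SpecSEL : Prop := ∀ M0 : ℕ, 1 ≤ M0 → ∃ C z0 : ℕ, ∀ z : ℕ, z0 ≤ z → ∃ (g : ℕ) (s t : Fin 6 → ℕ),
  1 ≤ g ∧ g % M0 = 1 % M0 ∧ RZ z g ∧ (∀ i, Trip M0 z g (s i) (t i) ∧ t i ≤ z ^ C) ∧
  ∀ i j, i ≠ j → Nat.Coprime (t i) (t j)

/-! ## LOC: the classes of `(P, m)` modulo the small primes -/

/-- LOC (no hypotheses). `p = 2`: `(1, 1)`; `p = 3`: `(1, 2)`; `p = 5, 7`: `decide` over `ZMod p` (`∀ k, ∃ P m`);
`p ≥ 11`: `P ∈ {1, 2}` with `p ∤ P + k`, and the product of the polynomials in `m` has degree `10 < p` and is not zero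
modulo `p`. -/
def SpecLOC : Prop := ∀ (p : ℕ) (k : ℤ), p.Prime → 6 ∣ k → ∃ P m : ℤ, ∀ x ∈ ([P, P + k, m, (P + k) * m + 2, P * m + 2,
  P * (P + k) * m + 2 * k, P * (P + k) * m + 2 * P + 4 * k, (P + k) ^ 2 * m * (P * m + 2) + 8 * k,
  P * m * (P * (P + k) * m + 2 * P + 4 * k) + 8 * k, P * ((P + k) * m + 2) - 4 * k] : List ℤ), ¬ (p : ℤ) ∣ x

/-! ## PSEL: the choice of `P` -/

/-- PSEL (from SVP or `SV.specSieveK`). `P = a u`, `u = u0 + M b c y` with `a u0 = P0 (mod M)`, `a u0 + k = 0 (mod b)`,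
`a u0 = 1 (mod c)` (CRT); forms `u0 + M b c y` and `((a u0 + k) / b) + M a c y` (also `b ∣ M b c a y`); for `p ∣ M` both are
units as `P0`, `P0 + k` are; for `p ∤ M` (so `p ≥ 5`) each form has at most one root. -/
def SpecPSEL : Prop := ∀ (k M P0 D : ℕ), 1 ≤ k → 1 ≤ M → 6 ∣ M → Nat.Coprime P0 M → Nat.Coprime (P0 + k) M →
  ∃ C z0 : ℕ, ∀ z : ℕ, z0 ≤ z → ∀ a b c : ℕ, 1 ≤ a → 1 ≤ b → 1 ≤ c → RZ z a → RZ z b → RZ z c →
  Nat.Coprime a b → Nat.Coprime a c → Nat.Coprime b c → a ≤ z ^ D → b ≤ z ^ D → c ≤ z ^ D →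
  ∃ P : ℕ, 1 ≤ P ∧ P ≤ z ^ C ∧ a ∣ P ∧ b ∣ P + k ∧ P % c = 1 % c ∧ P % M = P0 % M ∧ RZ z P ∧ RZ z ((P + k : ℕ) : ℤ)

/-! ## ALT, SIX: the algebra -/

/-- ALT (no hypotheses): part (1). All numbers are different from `0`. -/
def SpecALT : Prop := ∀ (δ g s t s' t' L L1 L2 σ : ℤ), σ = 1 ∨ σ = -1 → s * g = t + 2 → s' * g = t' + 2 →
  lz s = -1 → lz t = -1 → lz s' = -1 → lz t' = -1 → s ≠ 0 → t ≠ 0 → s' ≠ 0 → t' ≠ 0 →
  s * L + δ = t * L1 → s' * (L + δ) + δ = t' * L2 →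
  (∀ j, chn δ g s t s' t' L L1 L2 j ≠ 0 ∧ chn δ g s t s' t' L L1 L2 j + δ ≠ 0) →
  (∀ j, ¬ (lz (chn δ g s t s' t' L L1 L2 j) = σ ∧ lz (chn δ g s t s' t' L L1 L2 j + δ) = σ)) →
  lz L * lz (L + δ) = -1

/-- SIX (no hypotheses): part (2). -/
def SpecSIX : Prop := ∀ (P k m : ℤ), 1 ≤ P → 1 ≤ k → 1 ≤ m →
  lz ((P + k) ^ 2 * m * (P * m + 2)) * lz ((P + k) ^ 2 * m * (P * m + 2) + 4 * k) = -1 →
  lz (P * m * (P * (P + k) * m + 2 * P + 4 * k)) * lz (P * m * (P * (P + k) * m + 2 * P + 4 * k) + 4 * k) = -1 →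
  lz (P * ((P + k) * m + 2)) * lz (P * ((P + k) * m + 2) + 4 * k) = -1 → False

/-! ## CFG: the 24 polynomials -/

/-- CFG (from SEL, LOC, PSEL, ALT, SIX). `h = 4k`. CRT: classes `PM`, `mM` modulo `M0` with the properties of LOC for
all primes `p ∣ M0`. SEL: `g`, `s_i`, `t_i`, `i < 6`. PSEL: `P = 0 (t0 t1)`, `P + k = 0 (t2 t3)`, `P = 1 (t4 t5)`,
`P = PM (M0)`. `T = M0 t0 ⋯ t5`. `m0 = mM (mod M0)` with (`N1`, `N2`, `N3` = `(P+k)^2 m (P m+2)`,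
`P m (P(P+k)m+2P+4k)`, `P((P+k)m+2)`) `s0 N1 + h = 0 (t0)`, `s1 (N1 + h) + h = 0 (t1)` (`N1 = 2k² m` modulo `t0 t1`);
`s2 N2 + h = 0 (t2)`, `s3 (N2 + h) + h = 0 (t3)` (`N2 = -2k² m` modulo `t2 t3`); `s4 (N3+h) - h = 0 (t4)`,
`s5 N3 - h = 0 (t5)` (`N3 = (1+k) m + 2` modulo `t4 t5`), and `m0 ≥ B' ` large (so that all `α` are `≥ B`). `m = m0 + T y`,
`N_i(m) = N_i(m0) + T (q1 y + q2 y²)`, and the eight numbers of `chn` (for `i = 2`: `L = N3 + h`, `δ = -h`, and then the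
smaller member `u - h`) are `α + β (q1 y + q2 y²)`: `(α, β) = (L0, T)`, `(s L0, s T)`, `((s L0 + δ)/t, s T/t)`,
`(s L0 + δ + t δ, s T)`, `(s'(L0+δ), s'T)`, `((s'(L0+δ)+δ)/t', s'T/t')`, `(s'(L0+δ)+δ+t'δ, s'T)`, `(L0 + gδ, T)`. Modulo
`p ∣ M0`: `t = -1`, `s = g = 1`, all `α`, `α + h` are `±L0, ±(L0+δ), ±(L0+2δ)`. The sign statement: ALT for the three chains
and SIX. -/
def SpecCFG : Prop := ∀ (h M0 B : ℕ), 1 ≤ h → 24 ∣ h → 6 ∣ M0 → 1 ≤ M0 → ∃ C z0 : ℕ, ∀ z : ℕ, z0 ≤ z →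
  ∃ (q1 q2 α β : Fin 24 → ℤ),
    (∀ i, 0 ≤ q1 i ∧ 0 ≤ q2 i ∧ 1 ≤ q1 i + q2 i ∧ q1 i ≤ (z : ℤ) ^ C ∧ q2 i ≤ (z : ℤ) ^ C) ∧
    (∀ i, (B : ℤ) ≤ α i ∧ α i ≤ (z : ℤ) ^ C ∧ 1 ≤ β i ∧ β i ≤ (z : ℤ) ^ C) ∧
    (∀ p : ℕ, p.Prime → p < z → ¬ p ∣ M0 → ∀ i, ¬ (p : ℤ) ∣ β i ∧ ¬ ((p : ℤ) ∣ q1 i ∧ (p : ℤ) ∣ q2 i)) ∧
    (∀ p : ℕ, p.Prime → p ∣ M0 → ∀ i, ¬ (p : ℤ) ∣ α i ∧ ¬ (p : ℤ) ∣ α i + h) ∧
    ∀ σ : ℤ, σ = 1 ∨ σ = -1 → ∀ y : ℕ, ∃ i,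
      lz (α i + β i * (q1 i * y + q2 i * y ^ 2)) = σ ∧ lz (α i + β i * (q1 i * y + q2 i * y ^ 2) + h) = σ

/-! ## MAIN -/

/-- MAIN (from CFG, SVP). `D = 48 (|K| + 2)`, `M0 = D!` (a multiple of 6), `F = ∏_(i, k ∈ K ∪ {0, h}) (α_i + k + β_i (q1 X + q2 X²))` of
degree `≤ D`. `p ∣ M0`: `y = 0`, `F(0) = ∏ (α_i + k)`, `k = 0 (mod p)` for `k ∈ K`. `p ∤ M0`, `p < z`: `p > D` and every
factor is not constant modulo `p`: `Polynomial.exists_eval_ne_zero_of_natDegree_lt_card`. SVP with `X = Y`,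
`Y = ⌊√x⌋ / z^C₁`; each `y` gives an `i` (CFG); one `i` for at least `1/24` of the `y`; `y ↦ n = α_i + β_i (..)` is
injective and `n ≤ x`. (Two-sided roughness: `z ≤ p`; `n + k > 0` by `B`.) -/
def SpecMAIN : Prop := ∀ (h : ℕ) (K : Finset ℤ), 1 ≤ h → 24 ∣ h → (∀ k ∈ K, ((48 * (K.card + 2)).factorial : ℤ) ∣ k) →
  ∃ C z0 : ℕ, ∀ z : ℕ, z0 ≤ z → ∀ σ : ℤ, σ = 1 ∨ σ = -1 → ∀ x : ℕ, z ^ C ≤ x →
    Nat.sqrt x ≤ z ^ C * ((Icc 1 x).filter (fun n : ℕ => RZ z (n : ℤ) ∧ RZ z ((n : ℤ) + h) ∧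
      (∀ k ∈ K, 0 < (n : ℤ) + k ∧ RZ z ((n : ℤ) + k)) ∧ lz (n : ℤ) = σ ∧ lz ((n : ℤ) + h) = σ)).card

end

end Pool.Agent.Lib.MP_3efbeb_nt.PR
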